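import Pool.Agent.NullShell.Calc

/-!
# Null cones that are not crossed by radiation

Tensor fields on the unit sphere are given by their components in the frame of the three rotation
fields `rot i x = e_i × x`, `i = 0, 1, 2`: `T i j x = T(rot i, rot j)` for a 2-tensor and
`ζ i x = ζ(rot i)` for a 1-form. The rotation fields span the tangent plane, `∑ x_i rot i = 0`,
and `∑ rot i ⊗ rot i` is the inverse of the round metric: indices are contracted with the round
metric by summing over the frame. `Lop i f` is the derivative of `f` along `rot i`, and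
`[rot i, rot j] = - ∑ k, eps i j k • rot k`.
-/

open MeasureTheory Filter Topology
open scoped ContDiff

namespace Pool.Agent.NullCone

open Pool.Agent.NullShell

/-- Components of a 2-tensor field on the unit sphere in the frame of rotation fields. -/
abbrev Ten := Fin 3 → Fin 3 → E → ℝ

/-- Components of a 1-form on the unit sphere in the frame of rotation fields. -/
abbrev Cov := Fin 3 → E → ℝ

/-- The round metric. -/
noncomputable def roundM : Ten := fun i j x => (if i = j then 1 else 0) - x i * x j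

/-- `T` is (given by the components of) a smooth symmetric 2-tensor field on the unit sphere. -/
structure IsSymTensor (T : Ten) : Prop where
  smooth : ∀ i j, Sm (T i j)
  symm : ∀ x ∈ SS, ∀ i j, T i j x = T j i x
  tangent : ∀ x ∈ SS, ∀ i, ∑ j, T i j x * x j = 0

/-- `T` is positive definite on the tangent planes of the unit sphere. -/
def IsPosDef (T : Ten) : Prop := ∀ x ∈ SS, ∀ v : Fin 3 → ℝ, ∑ i, v i * x i = 0 → v ≠ 0 →
  0 < ∑ i, ∑ j, T i j x * v i * v j

/-- The trace relative to the round metric. -/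
noncomputable def ttr (T : Ten) (x : E) : ℝ := ∑ i, T i i x

/-- The determinant relative to the round metric: `det T = ((tr T)² - tr T²) / 2`. -/
noncomputable def tdet (T : Ten) (x : E) : ℝ :=
  (1 / 2) * (ttr T x ^ 2 - ∑ i, ∑ j, T i j x * T j i x)

/-- The inverse of `T` on the tangent planes: `T⁻¹ = ((tr T) id - T) / det T`. -/
noncomputable def tinv (T : Ten) : Ten := fun i j x =>
  (ttr T x * roundM i j x - T i j x) / tdet T x

/-- The area element of the metric `γ` relative to that of the round metric. -/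
noncomputable def areaEl (γ : Ten) (x : E) : ℝ := Real.sqrt (tdet γ x)

/-- The Levi-Civita symbol. -/
noncomputable def eps (i j k : Fin 3) : ℝ :=
  (((j : ℕ) : ℝ) - (i : ℕ)) * (((k : ℕ) : ℝ) - (i : ℕ)) * (((k : ℕ) : ℝ) - (j : ℕ)) / 2

/-- The Lie derivative of the 2-tensor `T` along the rotation field `rot i`: its component `j k`
is `rot i (T j k) - T([rot i, rot j], rot k) - T(rot j, [rot i, rot k])`. -/
noncomputable def lieRot (i : Fin 3) (T : Ten) : Ten := fun j k x =>
  Lop i (T j k) x + ∑ l, eps i j l * T l k x + ∑ l, eps i k l * T j l x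

/-- The divergence, with respect to the metric `γ`, of the symmetric 2-tensor `T`, times the area
element of `γ`: the component `√γ (div_γ T)(rot i)`. It is computed from the identity
`√γ (div_γ T)(Y) = div (√γ T(Y, ·)^♯) - √γ ⟨T, 𝓛_Y γ⟩ / 2`. -/
noncomputable def divDens (γ T : Ten) (i : Fin 3) (x : E) : ℝ :=
  (∑ j, Lop j (fun y => areaEl γ y * ∑ k, tinv γ j k y * T k i y) x)
    - (1 / 2) * areaEl γ x * ∑ j, ∑ k, (∑ l, ∑ m, tinv γ j l x * T l m x * tinv γ m k x) *
        lieRot i γ j k x

/-- The trace `γ^{ij} T_ij` with respect to the metric `γ`. -/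
noncomputable def gtr (γ T : Ten) (x : E) : ℝ := ∑ i, ∑ j, tinv γ i j x * T i j x

/-- The square of the norm of the 1-form `ζ` with respect to the metric `γ`. -/
noncomputable def normSq (γ : Ten) (ζ : Cov) (x : E) : ℝ :=
  ∑ i, ∑ j, tinv γ i j x * ζ i x * ζ j x

/-- **A null cone that is not crossed by radiation.** The null hypersurface `Ω` is generated by
the past directed outgoing null geodesics that start orthogonally at a closed surface, and is
followed up to past null infinity. `L` is the past directed generator with `∇_L L = 0`, `s ≥ 0`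
the affine parameter, the points of `Ω` are `(s, x)`, `x` in the unit sphere, and `S_s` is the
section of parameter `s`. `γ s` is the metric of `S_s`; `χ s` is its second fundamental form
`⟨∇ L, ·⟩`; `ℓ` is the future directed outgoing null normal of `S_s` with `⟨ℓ, L⟩ = 2`;
`ζ s` is the torsion `- ⟨∇ L, ℓ⟩ / 2`; `θ s` is the outer null expansion of `S_s` (along `ℓ`) and
`ρ s = G(-L, ℓ)`, `G` the Einstein tensor, `8 π` times the stress energy tensor.

The equations are the structure equations of a null hypersurface for `R(L, X, L, Y) = 0`, that is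
`Ψ₀ = 0` and `T(L, L) = 0` on `Ω`, so that `T(L, X) = 0` for `X` tangent to `S_s` by the dominant
energy condition. -/
structure ConeData where
  γ : ℝ → Ten
  χ : ℝ → Ten
  ζ : ℝ → Cov
  θ : ℝ → E → ℝ
  ρ : ℝ → E → ℝ
  metric : ∀ s, 0 ≤ s → IsSymTensor (γ s)
  posDef : ∀ s, 0 ≤ s → IsPosDef (γ s)
  secondForm : ∀ s, 0 ≤ s → IsSymTensor (χ s)
  torsion_smooth : ∀ s, 0 ≤ s → ∀ i, Sm (ζ s i)
  torsion_tangent : ∀ s, 0 ≤ s → ∀ x ∈ SS, ∑ i, ζ s i x * x i = 0
  expansion_smooth : ∀ s, 0 ≤ s → Sm (θ s)
  /-- `∂_s γ = 2 χ`. -/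
  variation : ∀ s, 0 ≤ s → ∀ x ∈ SS, ∀ i j,
    HasDerivWithinAt (fun r => γ r i j x) (2 * χ s i j x) (Set.Ici 0) s
  /-- The optical (Riccati) equation `∂_s χ = χ γ⁻¹ χ - R(L, ·, L, ·)` with
  `R(L, ·, L, ·) = 0`. -/
  optical : ∀ s, 0 ≤ s → ∀ x ∈ SS, ∀ i j,
    HasDerivWithinAt (fun r => χ r i j x)
      (∑ k, ∑ m, χ s i k x * tinv (γ s) k m x * χ s m j x) (Set.Ici 0) s
  /-- The Codazzi (Damour, Navier, Stokes) equation
  `∂_s (√γ ζ) = √γ div_γ (χ - (tr_γ χ) γ)`; the term `8 π √γ T(L, ·)` vanishes. -/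
  codazzi : ∀ s, 0 ≤ s → ∀ x ∈ SS, ∀ i,
    HasDerivWithinAt (fun r => areaEl (γ r) x * ζ r i x)
      (divDens (γ s) (fun j k y => χ s j k y - gtr (γ s) (χ s) y * γ s j k y) i x) (Set.Ici 0) s
  /-- The cross focusing equation
  `∂_s θ + (tr_γ χ) θ = 2 K - 2 |ζ|² ± 2 div ζ - G(-L, ℓ)`, `K` the Gauss curvature of `S_s`,
  integrated over `S_s` with the theorem of Gauss and Bonnet. -/
  crossFocusing : ∀ s, 0 ≤ s →
    HasDerivWithinAt (fun r => sint (fun x => areaEl (γ r) x * θ r x))
      (8 * Real.pi - 2 * sint (fun x => areaEl (γ s) x * normSq (γ s) (ζ s) x)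
        - sint (fun x => areaEl (γ s) x * ρ s x)) (Set.Ici 0) s
  /-- The dominant energy condition. -/
  energy : ∀ s, 0 ≤ s → ∀ x ∈ SS, 0 ≤ ρ s x
  /-- The large sections become round, with radius `s`. -/
  asymptotic_metric : ∀ x ∈ SS, ∀ i j,
    Tendsto (fun s => γ s i j x / s ^ 2) atTop (𝓝 (roundM i j x))
  /-- The outer null expansion behaves like `2 / s`. -/
  asymptotic_expansion : TendstoUniformlyOn (fun s x => s * θ s x) (fun _ => 2) atTop SS

/-- The area of the section `S_s`. -/
noncomputable def ConeData.area (C : ConeData) (s : ℝ) : ℝ := sint (areaEl (C.γ s))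

/-- The Hawking energy `√(|S_s| / 16 π) (1 - (1 / 16 π) ∫ (tr_γ χ) θ)` of the section `S_s`. Its
limit for `s → ∞` is the Bondi energy. -/
noncomputable def ConeData.hawkingEnergy (C : ConeData) (s : ℝ) : ℝ :=
  Real.sqrt (C.area s / (16 * Real.pi)) *
    (1 - 1 / (16 * Real.pi) *
      sint (fun x => areaEl (C.γ s) x * (gtr (C.γ s) (C.χ s) x * C.θ s x)))

end Pool.Agent.NullCone
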