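import Pool.Agent.NullCone.Stmts

/-! # The lower bound for the energy -/

open MeasureTheory Filter Topology
open scoped ContDiff

namespace Pool.Agent.NullCone

open Pool.Agent.NullShell

/-! ## Positivity -/

lemma pos_aux (a b c d e f x0 x1 x2 : ℝ) (hu : x0 ^ 2 + x1 ^ 2 + x2 ^ 2 = 1)
    (r0 : a * x0 + b * x1 + c * x2 = 0) (r1 : b * x0 + d * x1 + e * x2 = 0)
    (r2 : c * x0 + e * x1 + f * x2 = 0)
    (hp : ∀ v0 v1 v2 : ℝ, v0 * x0 + v1 * x1 + v2 * x2 = 0 → ¬ (v0 = 0 ∧ v1 = 0 ∧ v2 = 0) →
      0 < a * v0 ^ 2 + d * v1 ^ 2 + f * v2 ^ 2 + 2 * b * v0 * v1 + 2 * c * v0 * v2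
        + 2 * e * v1 * v2) (hx : x2 ≠ 0) :
    0 < a + d + f ∧ 0 < a * d - b ^ 2 + (a * f - c ^ 2) + (d * f - e ^ 2) := by
  have hq : ∀ α β : ℝ, ¬ (α = 0 ∧ β = 0) → 0 < a * α ^ 2 + d * β ^ 2 + 2 * b * α * β := by
    intro α β hn
    have h1 := hp (α - (α * x0 + β * x1) * x0) (β - (α * x0 + β * x1) * x1)
      (-(α * x0 + β * x1) * x2) (by linear_combination (-(α * x0 + β * x1)) * hu) (by
        rintro ⟨h1, h2, h3⟩
        have h4 : α * x0 + β * x1 = 0 := by
          rcases mul_eq_zero.1 h3 with h | h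
          · linarith
          · exact absurd h hx
        rw [h4] at h1 h2
        exact hn ⟨by linarith, by linarith⟩)
    have h2 : a * (α - (α * x0 + β * x1) * x0) ^ 2 + d * (β - (α * x0 + β * x1) * x1) ^ 2
        + f * (-(α * x0 + β * x1) * x2) ^ 2
        + 2 * b * (α - (α * x0 + β * x1) * x0) * (β - (α * x0 + β * x1) * x1)
        + 2 * c * (α - (α * x0 + β * x1) * x0) * (-(α * x0 + β * x1) * x2)
        + 2 * e * (β - (α * x0 + β * x1) * x1) * (-(α * x0 + β * x1) * x2)
        = a * α ^ 2 + d * β ^ 2 + 2 * b * α * β := by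
      linear_combination ((α * x0 + β * x1) ^ 2 * x0 - 2 * (α * x0 + β * x1) * α) * r0
        + ((α * x0 + β * x1) ^ 2 * x1 - 2 * (α * x0 + β * x1) * β) * r1
        + ((α * x0 + β * x1) ^ 2 * x2) * r2
    rw [h2] at h1
    exact h1
  have ha : 0 < a := by
    have := hq 1 0 (by simp)
    linarith
  have hm : 0 < a * d - b ^ 2 := by
    have := hq (-b) a (by rintro ⟨_, h⟩; linarith)
    have e1 : a * (-b) ^ 2 + d * a ^ 2 + 2 * b * (-b) * a = a * (a * d - b ^ 2) := by ring
    rw [e1] at this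
    exact (pos_iff_pos_of_mul_pos this).1 ha
  have hd : 0 < d := by
    have := hq 0 1 (by simp)
    linarith
  have hf : 0 ≤ f := by
    have e1 : f * x2 ^ 2 = a * x0 ^ 2 + d * x1 ^ 2 + 2 * b * x0 * x1 := by
      linear_combination (-x0) * r0 + (-x1) * r1 + x2 * r2
    have h2 : 0 ≤ a * x0 ^ 2 + d * x1 ^ 2 + 2 * b * x0 * x1 := by
      by_cases h : x0 = 0 ∧ x1 = 0
      · rw [h.1, h.2]; simp
      · exact (hq x0 x1 h).le
    rw [← e1] at h2
    exact nonneg_of_mul_nonneg_left h2 (by positivity)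
  refine ⟨by linarith, ?_⟩
  have e0 : x0 ^ 2 * (a * d - b ^ 2) = x2 ^ 2 * (d * f - e ^ 2) := by
    have e1 : a * x0 ^ 2 = d * x1 ^ 2 + 2 * e * x1 * x2 + f * x2 ^ 2 := by
      linear_combination x0 * r0 - x1 * r1 - x2 * r2
    have e2 : b * x0 = - (d * x1 + e * x2) := by linarith
    have : x0 ^ 2 * (a * d - b ^ 2) = d * (a * x0 ^ 2) - (b * x0) ^ 2 := by ring
    rw [this, e1, e2]
    ring
  have e3 : x1 ^ 2 * (a * d - b ^ 2) = x2 ^ 2 * (a * f - c ^ 2) := by
    have e1 : d * x1 ^ 2 = a * x0 ^ 2 + 2 * c * x0 * x2 + f * x2 ^ 2 := by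
      linear_combination x1 * r1 - x0 * r0 - x2 * r2
    have e2 : b * x1 = - (a * x0 + c * x2) := by linarith
    have : x1 ^ 2 * (a * d - b ^ 2) = a * (d * x1 ^ 2) - (b * x1) ^ 2 := by ring
    rw [this, e1, e2]
    ring
  have e4 : a * d - b ^ 2 = x2 ^ 2 * (a * d - b ^ 2 + (a * f - c ^ 2) + (d * f - e ^ 2)) := by
    linear_combination e0 + e3 + (-(a * d - b ^ 2)) * hu
  rw [e4] at hm
  exact (pos_iff_pos_of_mul_pos hm).1 (by positivity)

/-- positivity of the trace and of the determinant -/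
lemma plane_pos {x : Fin 3 → ℝ} {U : Fin 3 → Fin 3 → ℝ} (h : PlaneMat x U) :
    0 < mtr U ∧ 0 < mdet U := by
  have hu := h.unit
  have s10 := h.symm 1 0
  have s20 := h.symm 2 0
  have s21 := h.symm 2 1
  have r0 := h.tangent 0
  have r1 := h.tangent 1
  have r2 := h.tangent 2
  simp only [Fin.sum_univ_three] at hu r0 r1 r2
  rw [s10] at r1
  rw [s20, s21] at r2
  have hp : ∀ v : Fin 3 → ℝ, v 0 * x 0 + v 1 * x 1 + v 2 * x 2 = 0 → v ≠ 0 →
      0 < U 0 0 * v 0 ^ 2 + U 1 1 * v 1 ^ 2 + U 2 2 * v 2 ^ 2 + 2 * U 0 1 * v 0 * v 1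
        + 2 * U 0 2 * v 0 * v 2 + 2 * U 1 2 * v 1 * v 2 := by
    intro v h1 h2
    have := h.pos v (by rw [Fin.sum_univ_three]; exact h1) h2
    simp only [Fin.sum_univ_three] at this
    rw [s10, s20, s21] at this
    linarith
  have key : 0 < U 0 0 + U 1 1 + U 2 2 ∧ 0 < U 0 0 * U 1 1 - U 0 1 ^ 2
      + (U 0 0 * U 2 2 - U 0 2 ^ 2) + (U 1 1 * U 2 2 - U 1 2 ^ 2) := by
    by_cases h2 : x 2 = 0
    · by_cases h1 : x 1 = 0
      · have h0 : x 0 ≠ 0 := by
          intro h0
          rw [h0, h1, h2] at hu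
          norm_num at hu
        have := pos_aux (U 1 1) (U 1 2) (U 0 1) (U 2 2) (U 0 2) (U 0 0) (x 1) (x 2) (x 0)
          (by linarith) (by linarith) (by linarith) (by linarith) (fun v0 v1 v2 hv hn => by
            have := hp ![v2, v0, v1] (by simp; linarith) (fun hz => hn
              ⟨by simpa using congrFun hz 1, by simpa using congrFun hz 2,
                by simpa using congrFun hz 0⟩)
            simp at this
            linarith) h0
        exact ⟨by linarith [this.1], by linarith [this.2]⟩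
      · have := pos_aux (U 0 0) (U 0 2) (U 0 1) (U 2 2) (U 1 2) (U 1 1) (x 0) (x 2) (x 1)
          (by linarith) (by linarith) (by linarith) (by linarith) (fun v0 v1 v2 hv hn => by
            have := hp ![v0, v2, v1] (by simp; linarith) (fun hz => hn
              ⟨by simpa using congrFun hz 0, by simpa using congrFun hz 2,
                by simpa using congrFun hz 1⟩)
            simp at this
            linarith) h1
        exact ⟨by linarith [this.1], by linarith [this.2]⟩
    · have := pos_aux (U 0 0) (U 0 1) (U 0 2) (U 1 1) (U 1 2) (U 2 2) (x 0) (x 1) (x 2)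
          (by linarith) (by linarith) (by linarith) (by linarith) (fun v0 v1 v2 hv hn => by
            have := hp ![v0, v1, v2] (by simp; linarith) (fun hz => hn
              ⟨by simpa using congrFun hz 0, by simpa using congrFun hz 1,
                by simpa using congrFun hz 2⟩)
            simp at this
            linarith) h2
      exact this
  constructor
  · unfold mtr
    rw [Fin.sum_univ_three]
    exact key.1
  · unfold mdet mtr
    simp only [Fin.sum_univ_three]
    rw [s10, s20, s21]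
    nlinarith [key.2]

section Energy

variable {C : ConeData}

lemma sm_mtr {T : Ten} (hT : IsSymTensor T) : Sm (ttr T) :=
  Sm.sum fun i _ => hT.smooth i i

lemma sm_mdet {T : Ten} (hT : IsSymTensor T) : Sm (tdet T) := by
  unfold tdet
  exact ((sm_mtr hT).pow 2 |>.sub (Sm.sum fun i _ => Sm.sum fun j _ =>
    (hT.smooth i j).mul (hT.smooth j i))).const_mul _

/-- positivity of the trace and of the determinant -/
lemma coneDens_nonneg {U : Fin 3 → Fin 3 → ℝ} {N W : Fin 3 → ℝ} {l : ℝ} (hl : 0 ≤ l)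
    (h1 : 0 ≤ mtr U) (h2 : 0 ≤ mdet U) : 0 ≤ coneDens U N W l := by
  unfold coneDens
  apply div_nonneg
  · exact Finset.sum_nonneg fun i _ => sq_nonneg _
  · positivity

/-- the density with `l` replaced by `max l 0` is continuous -/
lemma continuous_cd (hM : Smooth_Stmt) (hpos : ∀ x ∈ SS, 0 < ttr (C.χ 0) x ∧ 0 < tdet (C.χ 0) x) :
    Continuous (fun p : ℝ × SS => cd C (max p.1 0) p.2) := by
  obtain ⟨hN, hW, _, _, _, _, _, _, _⟩ := hM C
  have hU := C.secondForm 0 le_rfl
  have cN : ∀ i, Continuous fun p : ℝ × SS => Nfun C i p.2 := fun i =>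
    (hN i).continuous_restrict.comp continuous_snd
  have cW : ∀ i, Continuous fun p : ℝ × SS => Wfun (C.χ 0) i p.2 := fun i =>
    (hW i).continuous_restrict.comp continuous_snd
  have cU : ∀ i j, Continuous fun p : ℝ × SS => C.χ 0 i j p.2 := fun i j =>
    (hU.smooth i j).continuous_restrict.comp continuous_snd
  have cT : Continuous fun p : ℝ × SS => ttr (C.χ 0) p.2 :=
    (sm_mtr hU).continuous_restrict.comp continuous_snd
  have cD : Continuous fun p : ℝ × SS => tdet (C.χ 0) p.2 :=
    (sm_mdet hU).continuous_restrict.comp continuous_snd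
  have cl : Continuous fun p : ℝ × SS => max p.1 0 := continuous_fst.max continuous_const
  unfold cd coneDens
  refine Continuous.div ?_ ?_ ?_
  · refine continuous_finsetSum _ fun i _ => ?_
    refine Continuous.pow (Continuous.sub ?_ ?_) 2
    · exact (cl.add cT).mul ((cN i).add (cl.mul (cW i)))
    · exact continuous_finsetSum _ fun j _ => (cU i j).mul ((cN j).add (cl.mul (cW j)))
  · exact (((cl.pow 2).add (cl.mul cT)).add cD).pow 3
  · intro p
    obtain ⟨h1, h2⟩ := hpos p.2 p.2.2
    have h3 : 0 ≤ max p.1 0 := le_max_right _ _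
    have h4 : 0 < max p.1 0 ^ 2 + max p.1 0 * ttr (C.χ 0) p.2 + tdet (C.χ 0) p.2 := by positivity
    exact (pow_pos h4 3).ne'

/-- the integral of the density is continuous -/
lemma continuous_Z (hM : Smooth_Stmt) (hpos : ∀ x ∈ SS, 0 < ttr (C.χ 0) x ∧ 0 < tdet (C.χ 0) x) :
    Continuous (fun l : ℝ => sint (fun x => cd C (max l 0) x)) := by
  have h := continuous_parametric_integral_of_continuous (μ := sph)
    (f := fun (l : ℝ) (x : SS) => cd C (max l 0) x) (continuous_cd hM hpos)
    (s := (Set.univ : Set SS)) isCompact_univ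
  simpa [sint] using h

/-- limits of integrals against the expansion -/
lemma tendsto_sint_expansion (C : ConeData) {f : E → ℝ} (hf : Sm f) :
    Tendsto (fun s => sint (fun x => f x * (s * C.θ s x))) atTop (𝓝 (2 * sint f)) := by
  have e : 2 * sint f = sint (fun x => f x * 2) := by
    rw [← sint_const_mul]
    exact sint_congr fun x _ => mul_comm _ _
  rw [e]
  unfold sint
  have hu := C.asymptotic_expansion
  rw [Metric.tendstoUniformlyOn_iff] at hu
  refine tendsto_integral_filter_of_dominated_convergence (fun x : SS => |f x| * 3) ?_ ?_ ?_ ?_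
  · filter_upwards [eventually_ge_atTop 0] with s hs
    exact (hf.mul ((C.expansion_smooth s hs).const_mul s)).integrable.aestronglyMeasurable
  · filter_upwards [hu 1 one_pos] with s hs
    refine Eventually.of_forall fun x => ?_
    have h1 := hs x x.2
    rw [Real.dist_eq] at h1
    rw [Real.norm_eq_abs, abs_mul]
    apply mul_le_mul_of_nonneg_left _ (abs_nonneg _)
    have h2 := abs_lt.1 h1
    rw [abs_le]
    constructor <;> linarith
  · exact (hf.integrable.abs).mul_const 3
  · refine Eventually.of_forall fun x => ?_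
    apply Tendsto.const_mul
    rw [Metric.tendsto_atTop']
    intro ε hε
    obtain ⟨N, hN⟩ := eventually_atTop.1 (hu ε hε)
    exact ⟨N, fun s hs => by rw [dist_comm]; exact hN s hs.le x x.2⟩

/-- the upper bound for the integral of the expansion -/
lemma flux_le (hM : Smooth_Stmt) (hpos : ∀ x ∈ SS, 0 < ttr (C.χ 0) x ∧ 0 < tdet (C.χ 0) x)
    (hθ : ∀ x ∈ SS, C.θ 0 x ≤ 0) {s : ℝ} (hs : 0 ≤ s) :
    sint (fun x => areaEl (C.γ s) x * C.θ s x)
      ≤ 8 * Real.pi * s - 2 * ∫ l in (0 : ℝ)..s, sint (fun x => cd C (max l 0) x) := by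
  obtain ⟨_, _, _, _, _, _, _, _, hcd⟩ := hM C
  have cZ := continuous_Z hM hpos
  set F : ℝ → ℝ := fun r => sint (fun x => areaEl (C.γ r) x * C.θ r x) with hF
  set Z : ℝ → ℝ := fun l => sint (fun x => cd C (max l 0) x) with hZ
  set G : ℝ → ℝ := fun r => 8 * Real.pi * r - F r - 2 * ∫ l in (0 : ℝ)..r, Z l with hG
  have hd : ∀ r, 0 ≤ r → HasDerivWithinAt G (sint (fun x => areaEl (C.γ r) x * C.ρ r x))
      (Set.Ici 0) r := by
    intro r hr
    have h1 := C.crossFocusing r hr
    have h2 : HasDerivWithinAt (fun r => ∫ l in (0 : ℝ)..r, Z l) (Z r) (Set.Ici 0) r :=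
      (intervalIntegral.integral_hasDerivAt_right (cZ.intervalIntegrable _ _)
        (cZ.stronglyMeasurableAtFilter _ _) cZ.continuousAt).hasDerivWithinAt
    have h3 : HasDerivWithinAt (fun r => 8 * Real.pi * r) (8 * Real.pi) (Set.Ici 0) r := by
      simpa using (hasDerivAt_id r).const_mul (8 * Real.pi) |>.hasDerivWithinAt
    have h4 : HasDerivWithinAt G _ (Set.Ici 0) r := (h3.sub h1).sub (h2.const_mul 2)
    have e : sint (fun x => areaEl (C.γ r) x * normSq (C.γ r) (C.ζ r) x) = Z r := by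
      rw [hZ]
      refine sint_congr fun x hx => ?_
      rw [hcd r hr x hx, max_eq_left hr]
    rw [e] at h4
    exact h4.congr_deriv (by ring)
  have hmono : MonotoneOn G (Set.Ici 0) := by
    refine monotoneOn_of_deriv_nonneg (convex_Ici 0) (fun r hr => (hd r hr).continuousWithinAt)
      ?_ ?_
    · intro r hr
      rw [interior_Ici] at hr
      exact ((hd r (le_of_lt hr)).hasDerivAt (Ici_mem_nhds hr)).differentiableAt.differentiableWithinAt
    · intro r hr
      rw [interior_Ici] at hr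
      rw [((hd r (le_of_lt hr)).hasDerivAt (Ici_mem_nhds hr)).deriv]
      exact sint_nonneg fun x hx => mul_nonneg (Real.sqrt_nonneg _) (C.energy r (le_of_lt hr) x hx)
  have h0 := hmono (Set.mem_Ici.2 le_rfl) (Set.mem_Ici.2 hs) hs
  have h1 : F 0 ≤ 0 := by
    have : 0 ≤ sint (fun x => -(areaEl (C.γ 0) x * C.θ 0 x)) :=
      sint_nonneg fun x hx => by
        have := mul_nonneg (Real.sqrt_nonneg (tdet (C.γ 0) x)) (neg_nonneg.2 (hθ x hx))
        unfold areaEl
        linarith
    rw [sint_neg] at this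
    linarith
  simp only [hG, intervalIntegral.integral_same, mul_zero, zero_sub, sub_zero] at h0
  linarith

end Energy

/-- The lower bound for the energy. -/
theorem Energy (_ : Solve_Stmt) (hM : Smooth_Stmt) : Energy_Stmt := by
  intro C EB hθ hEB s₁ hs₁
  have hM' := hM C
  obtain ⟨hN, hW, hNx, hWx, hA0, hPM, hAs, hAg, hcd⟩ := hM'
  have hU := C.secondForm 0 le_rfl
  have hpos : ∀ x ∈ SS, 0 < ttr (C.χ 0) x ∧ 0 < tdet (C.χ 0) x := fun x hx =>
    plane_pos (hPM x hx)
  have cZ := continuous_Z hM hpos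
  have hT := sm_mtr hU
  have hD := sm_mdet hU
  set Z : ℝ → ℝ := fun l => sint (fun x => cd C (max l 0) x) with hZ
  have eI : ∫ l in (0 : ℝ)..s₁, sint (fun x => cd C l x) = ∫ l in (0 : ℝ)..s₁, Z l := by
    apply intervalIntegral.integral_congr
    intro l hl
    rw [Set.uIcc_of_le hs₁] at hl
    simp only [hZ]
    rw [max_eq_left hl.1]
  have hZ0 : ∀ l, 0 ≤ Z l := fun l => sint_nonneg fun x hx =>
    coneDens_nonneg (le_max_right _ _) (hpos x hx).1.le (hpos x hx).2.le
  rw [eI]
  set I : ℝ := ∫ l in (0 : ℝ)..s₁, Z l with hI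
  set T : ℝ := sint (ttr (C.χ 0)) with hTd
  -- the area
  have hA : ∀ s, 0 ≤ s → C.area s = 4 * Real.pi * s ^ 2 + s * T + sint (tdet (C.χ 0)) := by
    intro s hs
    unfold ConeData.area
    rw [sint_congr (hAs s hs), sint_add ((sm_const (s ^ 2)).add (hT.const_mul s)) hD,
      sint_add (sm_const (s ^ 2)) (hT.const_mul s), sint_const, sint_const_mul]
  -- the integral
  have hP : Tendsto (fun s => s * sint (fun x => ttr (C.χ 0) x * C.θ s x)) atTop (𝓝 (2 * T)) := by
    refine (tendsto_sint_expansion C hT).congr fun s => ?_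
    rw [← sint_const_mul]
    exact sint_congr fun x _ => by ring
  have hR : Tendsto (fun s => sint (fun x => tdet (C.χ 0) x * C.θ s x)) atTop (𝓝 0) := by
    have h1 := (tendsto_sint_expansion C hD).mul tendsto_inv_atTop_zero
    rw [mul_zero] at h1
    refine h1.congr' ?_
    filter_upwards [eventually_gt_atTop 0] with s hs
    rw [mul_comm, ← sint_const_mul]
    refine sint_congr fun x _ => ?_
    field_simp
  have hroot : Tendsto (fun s => Real.sqrt (C.area s / (16 * Real.pi)) / s) atTop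
      (𝓝 (1 / 2)) := by
    have h1 : Tendsto (fun s : ℝ => 1 / 4 + T / (16 * Real.pi) * s⁻¹
        + sint (tdet (C.χ 0)) / (16 * Real.pi) * (s⁻¹ * s⁻¹)) atTop (𝓝 (1 / 4)) := by
      have h2 : Tendsto (fun s : ℝ => s⁻¹) atTop (𝓝 0) := tendsto_inv_atTop_zero
      have h3 := ((h2.const_mul (T / (16 * Real.pi))).const_add (1 / 4)).add
        ((h2.mul h2).const_mul (sint (tdet (C.χ 0)) / (16 * Real.pi)))
      simpa using h3
    have h2 := (Real.continuous_sqrt.tendsto (1 / 4)).comp h1
    have e : Real.sqrt (1 / 4) = 1 / 2 := by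
      rw [show (1 / 4 : ℝ) = (1 / 2) ^ 2 by norm_num]
      exact Real.sqrt_sq (by norm_num)
    rw [e] at h2
    refine h2.congr' ?_
    filter_upwards [eventually_gt_atTop 0] with s hs
    rw [hA s hs.le, Function.comp_apply]
    have e1 : (4 * Real.pi * s ^ 2 + s * T + sint (tdet (C.χ 0))) / (16 * Real.pi)
        = (1 / 4 + T / (16 * Real.pi) * s⁻¹
        + sint (tdet (C.χ 0)) / (16 * Real.pi) * (s⁻¹ * s⁻¹)) * s ^ 2 := by
      have := Real.pi_pos
      field_simp
      ring
    rw [e1, Real.sqrt_mul' _ (sq_nonneg s), Real.sqrt_sq hs.le]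
    field_simp
  -- the bound
  have hlow : Tendsto (fun s => Real.sqrt (C.area s / (16 * Real.pi)) / s
      * (1 / (16 * Real.pi) * (4 * I + s * sint (fun x => ttr (C.χ 0) x * C.θ s x)
        + 2 * sint (fun x => tdet (C.χ 0) x * C.θ s x)))) atTop
      (𝓝 (1 / 2 * (1 / (16 * Real.pi) * (4 * I + 2 * T + 2 * 0)))) :=
    hroot.mul (((hP.const_add (4 * I)).add (hR.const_mul 2)).const_mul _)
  have hle : ∀ᶠ s in atTop, Real.sqrt (C.area s / (16 * Real.pi)) / s
      * (1 / (16 * Real.pi) * (4 * I + s * sint (fun x => ttr (C.χ 0) x * C.θ s x)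
        + 2 * sint (fun x => tdet (C.χ 0) x * C.θ s x))) ≤ C.hawkingEnergy s := by
    filter_upwards [eventually_gt_atTop 0, eventually_ge_atTop s₁] with s hs hss
    have hF := flux_le hM hpos hθ hs.le
    have hθs := C.expansion_smooth s hs.le
    have hI2 : I ≤ ∫ l in (0 : ℝ)..s, Z l := by
      rw [hI, ← intervalIntegral.integral_add_adjacent_intervals
        (cZ.intervalIntegrable 0 s₁) (cZ.intervalIntegrable s₁ s)]
      have := intervalIntegral.integral_nonneg hss (fun l _ => hZ0 l) (μ := volume)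
      linarith
    have e1 : sint (fun x => areaEl (C.γ s) x * C.θ s x) = s ^ 2 * sint (C.θ s)
        + s * sint (fun x => ttr (C.χ 0) x * C.θ s x)
        + sint (fun x => tdet (C.χ 0) x * C.θ s x) := by
      rw [← sint_const_mul, ← sint_const_mul, ← sint_add (hθs.const_mul _)
        ((hT.mul hθs).const_mul _), ← sint_add ((hθs.const_mul _).add
        ((hT.mul hθs).const_mul _)) (hD.mul hθs)]
      refine sint_congr fun x hx => ?_
      rw [hAs s hs.le x hx]
      ring
    have e2 : sint (fun x => areaEl (C.γ s) x * (gtr (C.γ s) (C.χ s) x * C.θ s x))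
        = 2 * s * sint (C.θ s) + sint (fun x => ttr (C.χ 0) x * C.θ s x) := by
      rw [← sint_const_mul, ← sint_add (hθs.const_mul _) (hT.mul hθs)]
      refine sint_congr fun x hx => ?_
      rw [← mul_assoc, hAg s hs.le x hx]
      ring
    unfold ConeData.hawkingEnergy
    rw [e2]
    rw [e1] at hF
    rw [div_mul_eq_mul_div, ← mul_div_assoc']
    apply mul_le_mul_of_nonneg_left _ (Real.sqrt_nonneg _)
    rw [div_le_iff₀ hs]
    set P := sint (fun x => ttr (C.χ 0) x * C.θ s x)
    set R := sint (fun x => tdet (C.χ 0) x * C.θ s x)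
    set Q := sint (C.θ s)
    have hpi := Real.pi_pos
    have h5 : 1 / (16 * Real.pi) * (4 * I + s * P + 2 * R) * (16 * Real.pi)
        ≤ (1 - 1 / (16 * Real.pi) * (2 * s * Q + P)) * s * (16 * Real.pi) := by
      have e3 : 1 / (16 * Real.pi) * (4 * I + s * P + 2 * R) * (16 * Real.pi)
          = 4 * I + s * P + 2 * R := by field_simp
      have e4 : (1 - 1 / (16 * Real.pi) * (2 * s * Q + P)) * s * (16 * Real.pi)
          = 16 * Real.pi * s - (2 * s ^ 2 * Q + s * P) := by field_simp
      rw [e3, e4]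
      linarith
    exact le_of_mul_le_mul_right h5 (by positivity)
  have hfin := le_of_tendsto_of_tendsto hlow hEB hle
  have hpi := Real.pi_pos
  have e5 : 1 / 2 * (1 / (16 * Real.pi) * (4 * I + 2 * T + 2 * 0))
      = (T + 2 * I) / (16 * Real.pi) := by
    field_simp
    ring
  rw [e5, div_le_iff₀ (by positivity)] at hfin
  linarith

end Pool.Agent.NullCone
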