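import Pool.Agent.NullCone.Stmts
import Pool.Agent.NullShell.Core

/-! # The Penrose inequality for null cones that are not crossed by radiation -/

open MeasureTheory Filter Topology
open scoped ContDiff

namespace Pool.Agent.NullCone

open Pool.Agent.NullShell

theorem coneFinal_sm_Jfun {U : Ten} (hU : IsSymTensor U) {α : E → ℝ} (hα : Sm α)
    (hW : ∀ i, Sm (Wfun U i)) (R : ℝ) : Sm (Jfun U α R) := by
  have ha : ∀ i, Sm (fun x => - Lop i α x) := fun i => (hα.lop i).neg
  have ht : Sm (ttr U) := Sm.sum fun i _ => hU.smooth i i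
  have h1 : Sm (fun x => ∑ i, (- Lop i α x) * Wfun U i x) :=
    Sm.sum fun i _ => (ha i).mul (hW i)
  have h2 : Sm (fun x => ∑ i, ∑ j, U i j x * (- Lop i α x) * (- Lop j α x)) :=
    Sm.sum fun i _ => Sm.sum fun j _ => ((hU.smooth i j).mul (ha i)).mul (ha j)
  have h3 : Sm (fun x => (ttr U x / 2) * ∑ i, (- Lop i α x) ^ 2) :=
    (ht.div (sm_const 2) fun _ _ => two_ne_zero).mul (Sm.sum fun i _ => (ha i).pow 2)
  exact (h1.const_mul (2 / R)).sub ((h2.add h3).const_mul (1 / R ^ 2))

theorem coneFinal_trace_pos {x : Fin 3 → ℝ} {U : Fin 3 → Fin 3 → ℝ} (hU : PlaneMat x U) :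
    0 < ∑ i, U i i := by
  have hx := hU.unit
  have hM := hU.tangent
  simp only [Fin.sum_univ_three] at hx hM
  -- the three vectors `e_i × x`
  have hq0 : ∑ i, (fun i => ![0, - x 2, x 1] i) i * x i = 0 := by
    simp only [Fin.sum_univ_three, Matrix.cons_val_zero, Matrix.cons_val_one, Matrix.cons_val]
    ring
  have hq1 : ∑ i, (fun i => ![x 2, 0, - x 0] i) i * x i = 0 := by
    simp only [Fin.sum_univ_three, Matrix.cons_val_zero, Matrix.cons_val_one, Matrix.cons_val]
    ring
  have hq2 : ∑ i, (fun i => ![- x 1, x 0, 0] i) i * x i = 0 := by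
    simp only [Fin.sum_univ_three, Matrix.cons_val_zero, Matrix.cons_val_one, Matrix.cons_val]
    ring
  have hnn : ∀ v : Fin 3 → ℝ, ∑ i, v i * x i = 0 → 0 ≤ ∑ i, ∑ j, U i j * v i * v j := by
    intro v hv
    by_cases h : v = 0
    · subst h; simp
    · exact (hU.pos v hv h).le
  have hn := core_trace_nonneg U x (by linarith) hM hnn
  refine lt_of_le_of_ne hn fun h0 => ?_
  have e : ∑ i, U i i = (∑ i, ∑ j, U i j * (![0, - x 2, x 1] i) * (![0, - x 2, x 1] j))
      + (∑ i, ∑ j, U i j * (![x 2, 0, - x 0] i) * (![x 2, 0, - x 0] j))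
      + ∑ i, ∑ j, U i j * (![- x 1, x 0, 0] i) * (![- x 1, x 0, 0] j) := by
    have hM0 := hM 0
    have hM1 := hM 1
    have hM2 := hM 2
    simp only [Fin.sum_univ_three, Matrix.cons_val_zero, Matrix.cons_val_one, Matrix.cons_val]
    linear_combination (-(U 0 0 + U 1 1 + U 2 2)) * hx + x 0 * hM0 + x 1 * hM1 + x 2 * hM2
  have n0 := hnn _ hq0
  have n1 := hnn _ hq1
  have n2 := hnn _ hq2
  -- one of the vectors is nonzero
  have hne : (![0, - x 2, x 1] : Fin 3 → ℝ) ≠ 0 ∨ (![x 2, 0, - x 0] : Fin 3 → ℝ) ≠ 0 := by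
    by_contra hcon
    push Not at hcon
    obtain ⟨c0, c1⟩ := hcon
    have d1 := congrFun c0 1
    have d2 := congrFun c0 2
    have d3 := congrFun c1 2
    simp only [Matrix.cons_val_one, Matrix.cons_val, Pi.zero_apply] at d1 d2 d3
    have z2 : x 2 = 0 := by linarith
    have z1 : x 1 = 0 := by linarith
    have z0 : x 0 = 0 := by linarith
    rw [z0, z1, z2] at hx
    norm_num at hx
  rcases hne with h | h
  · have := hU.pos _ hq0 h
    linarith
  · have := hU.pos _ hq1 h
    linarith

/-- The final theorem from the modules. -/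
theorem ConeFinal (hS : Solve_Stmt) (hSm : Smooth_Stmt) (hE : Energy_Stmt)
    (hP : Pointwise_Stmt) (hL : Limit_Stmt) (hM : MasterG_Stmt)
    (hA : NullShell.Approx_Stmt) : ConeFinal_Stmt := by
  intro C EB htrap hlim
  obtain ⟨hN, hW, hNx, hWx, harea, hplane, -, -, -⟩ := hSm C
  have hU : IsSymTensor (C.χ 0) := C.secondForm 0 le_rfl
  have hpos : IsPosDef (C.χ 0) := (hS C).1
  have hpi := Real.pi_pos
  set U := C.χ 0 with hUdef
  have ht : Sm (ttr U) := Sm.sum fun i _ => hU.smooth i i
  have htpos : ∀ x ∈ SS, 0 < ttr U x := fun x hx => coneFinal_trace_pos (hplane x hx)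
  have hA0 : C.area 0 = sint (tdet U) := by
    unfold ConeData.area
    exact sint_congr harea
  -- the energy is nonnegative
  have hEn := hE C EB htrap hlim
  have hEB : 0 ≤ EB := by
    have h1 := hEn 0 le_rfl
    rw [intervalIntegral.integral_same] at h1
    have h2 : 0 ≤ sint (ttr U) := sint_nonneg fun x hx => (htpos x hx).le
    have h3 : 0 ≤ 16 * Real.pi * EB := by linarith
    exact nonneg_of_mul_nonneg_right h3 (by positivity)
  -- the main estimate
  have key : ∀ δ : ℝ, 0 < δ → sint (tdet U) ≤ 16 * Real.pi * EB ^ 2 + δ := by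
    intro δ hδ
    obtain ⟨η, R, hη, hη0, hR, herr⟩ := hA (ttr U) ht htpos δ hδ
    have hne : ∀ y ∈ SS, η y ≠ 0 := fun y hy => (hη0 y hy).ne'
    set α : E → ℝ := fun y => -R * Real.log (η y) with hαdef
    have hα : Sm α := (hη.log hne).const_mul (-R)
    have hJ : sint (Jfun U α R) ≤ 16 * Real.pi * EB - sint (ttr U) := by
      refine hL U (Nfun C) (Wfun U) (Jfun U α R) _ hU hpos hN hW
        (coneFinal_sm_Jfun hU hα hW R) ?_ ?_
      · intro s hs
        have h1 := hEn s hs
        have h2 : 2 * (∫ l in (0 : ℝ)..s, sint (fun x =>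
            coneDens (fun i j => U i j x) (fun i => Nfun C i x) (fun i => Wfun U i x) l))
            = 2 * ∫ l in (0 : ℝ)..s, sint (fun x => cd C l x) := rfl
        rw [h2]
        linarith
      · intro x hx ε hε
        have hax : ∑ i, (- Lop i α x) * x i = 0 := by
          have := sum_coord_mul_Lop α x
          simp only [Fin.sum_univ_three]
          linarith
        exact hP (fun i => x i) (fun i j => U i j x) (fun i => Nfun C i x)
          (fun i => Wfun U i x) (fun i => - Lop i α x) R (hplane x hx) (hNx x hx) (hWx x hx)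
          hax hR ε hε
    have hmaster := hM U α R hU hα hR
    have herr2 : sint (fun x => (lap α x - gdot α α x / R - ttr U x / 2 + R) ^ 2) ≤ δ := by
      refine le_trans (le_of_eq (sint_congr fun x hx => ?_)) herr
      rw [hαdef, core_error hη hη0 hR hx]
      have := hne x hx
      congr 1
      field_simp
      ring
    have h4 : R * (sint (ttr U) + sint (Jfun U α R)) ≤ R * (16 * Real.pi * EB) :=
      mul_le_mul_of_nonneg_left (by linarith) hR.le
    nlinarith [mul_nonneg hpi.le (sq_nonneg (R - 2 * EB))]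
  have hfin : sint (tdet U) ≤ 16 * Real.pi * EB ^ 2 := le_of_forall_pos_le_add key
  rw [hA0]
  refine Real.sqrt_le_iff.2 ⟨hEB, ?_⟩
  rw [div_le_iff₀ (by positivity)]
  linarith

end Pool.Agent.NullCone
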