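import Pool.Agent.NullCone.Energy
import Pool.Agent.NullCone.Final

/-! # Null cones that are not crossed by radiation: no condition on the first section -/

open MeasureTheory Filter Topology
open scoped ContDiff

namespace Pool.Agent.NullCone

open Pool.Agent.NullShell

section Energy

variable {C : ConeData}

/-- the upper bound for the integral of the expansion -/
lemma flux_leG (hM : Smooth_Stmt) (hpos : ∀ x ∈ SS, 0 < ttr (C.χ 0) x ∧ 0 < tdet (C.χ 0) x)
    {s : ℝ} (hs : 0 ≤ s) :
    sint (fun x => areaEl (C.γ s) x * C.θ s x)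
      ≤ sint (fun x => areaEl (C.γ 0) x * C.θ 0 x) + 8 * Real.pi * s - 2 * ∫ l in (0 : ℝ)..s, sint (fun x => cd C (max l 0) x) := by
  obtain ⟨_, _, _, _, _, _, _, _, hcd⟩ := hM C
  have cZ := continuous_Z hM hpos
  set F : ℝ → ℝ := fun r => sint (fun x => areaEl (C.γ r) x * C.θ r x) with hF
  set Z : ℝ → ℝ := fun l => sint (fun x => cd C (max l 0) x) with hZ
  set G : ℝ → ℝ := fun r => 8 * Real.pi * r - F r - 2 * ∫ l in (0 : ℝ)..r, Z l with hG
  have hd : ∀ r, 0 ≤ r → HasDerivWithinAt G (sint (fun x => areaEl (C.γ r) x * C.ρ r x))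
      (Set.Ici 0) r := by
    intro r hr
    have h1 := C.crossFocusing r hr
    have h2 : HasDerivWithinAt (fun r => ∫ l in (0 : ℝ)..r, Z l) (Z r) (Set.Ici 0) r :=
      (intervalIntegral.integral_hasDerivAt_right (cZ.intervalIntegrable _ _)
        (cZ.stronglyMeasurableAtFilter _ _) cZ.continuousAt).hasDerivWithinAt
    have h3 : HasDerivWithinAt (fun r => 8 * Real.pi * r) (8 * Real.pi) (Set.Ici 0) r := by
      simpa using (hasDerivAt_id r).const_mul (8 * Real.pi) |>.hasDerivWithinAt
    have h4 : HasDerivWithinAt G _ (Set.Ici 0) r := (h3.sub h1).sub (h2.const_mul 2)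
    have e : sint (fun x => areaEl (C.γ r) x * normSq (C.γ r) (C.ζ r) x) = Z r := by
      rw [hZ]
      refine sint_congr fun x hx => ?_
      rw [hcd r hr x hx, max_eq_left hr]
    rw [e] at h4
    exact h4.congr_deriv (by ring)
  have hmono : MonotoneOn G (Set.Ici 0) := by
    refine monotoneOn_of_deriv_nonneg (convex_Ici 0) (fun r hr => (hd r hr).continuousWithinAt)
      ?_ ?_
    · intro r hr
      rw [interior_Ici] at hr
      exact ((hd r (le_of_lt hr)).hasDerivAt (Ici_mem_nhds hr)).differentiableAt.differentiableWithinAt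
    · intro r hr
      rw [interior_Ici] at hr
      rw [((hd r (le_of_lt hr)).hasDerivAt (Ici_mem_nhds hr)).deriv]
      exact sint_nonneg fun x hx => mul_nonneg (Real.sqrt_nonneg _) (C.energy r (le_of_lt hr) x hx)
  have h0 := hmono (Set.mem_Ici.2 le_rfl) (Set.mem_Ici.2 hs) hs
  simp only [hG, intervalIntegral.integral_same, mul_zero, zero_sub, sub_zero] at h0
  have h1 : F 0 = sint (fun x => areaEl (C.γ 0) x * C.θ 0 x) := rfl
  have h2 : F s = sint (fun x => areaEl (C.γ s) x * C.θ s x) := rfl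
  rw [← h1, ← h2]
  linarith

end Energy

/-- The lower bound for the energy, for any expansion of the first section. -/
theorem EnergyG (hM : Smooth_Stmt) (C : ConeData) (EB : ℝ)
    (hEB : Tendsto C.hawkingEnergy atTop (𝓝 EB)) (s₁ : ℝ) (hs₁ : 0 ≤ s₁) :
    sint (ttr (C.χ 0)) + 2 * ∫ l in (0 : ℝ)..s₁, sint (fun x => cd C l x) ≤
      16 * Real.pi * EB + sint (fun x => areaEl (C.γ 0) x * C.θ 0 x) := by
  set F0 : ℝ := sint (fun x => areaEl (C.γ 0) x * C.θ 0 x) with hF0
  have hM' := hM C
  obtain ⟨hN, hW, hNx, hWx, hA0, hPM, hAs, hAg, hcd⟩ := hM'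
  have hU := C.secondForm 0 le_rfl
  have hpos : ∀ x ∈ SS, 0 < ttr (C.χ 0) x ∧ 0 < tdet (C.χ 0) x := fun x hx =>
    plane_pos (hPM x hx)
  have cZ := continuous_Z hM hpos
  have hT := sm_mtr hU
  have hD := sm_mdet hU
  set Z : ℝ → ℝ := fun l => sint (fun x => cd C (max l 0) x) with hZ
  have eI : ∫ l in (0 : ℝ)..s₁, sint (fun x => cd C l x) = ∫ l in (0 : ℝ)..s₁, Z l := by
    apply intervalIntegral.integral_congr
    intro l hl
    rw [Set.uIcc_of_le hs₁] at hl
    simp only [hZ]
    rw [max_eq_left hl.1]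
  have hZ0 : ∀ l, 0 ≤ Z l := fun l => sint_nonneg fun x hx =>
    coneDens_nonneg (le_max_right _ _) (hpos x hx).1.le (hpos x hx).2.le
  rw [eI]
  set I : ℝ := ∫ l in (0 : ℝ)..s₁, Z l with hI
  set T : ℝ := sint (ttr (C.χ 0)) with hTd
  -- the area
  have hA : ∀ s, 0 ≤ s → C.area s = 4 * Real.pi * s ^ 2 + s * T + sint (tdet (C.χ 0)) := by
    intro s hs
    unfold ConeData.area
    rw [sint_congr (hAs s hs), sint_add ((sm_const (s ^ 2)).add (hT.const_mul s)) hD,
      sint_add (sm_const (s ^ 2)) (hT.const_mul s), sint_const, sint_const_mul]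
  -- the integral
  have hP : Tendsto (fun s => s * sint (fun x => ttr (C.χ 0) x * C.θ s x)) atTop (𝓝 (2 * T)) := by
    refine (tendsto_sint_expansion C hT).congr fun s => ?_
    rw [← sint_const_mul]
    exact sint_congr fun x _ => by ring
  have hR : Tendsto (fun s => sint (fun x => tdet (C.χ 0) x * C.θ s x)) atTop (𝓝 0) := by
    have h1 := (tendsto_sint_expansion C hD).mul tendsto_inv_atTop_zero
    rw [mul_zero] at h1
    refine h1.congr' ?_
    filter_upwards [eventually_gt_atTop 0] with s hs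
    rw [mul_comm, ← sint_const_mul]
    refine sint_congr fun x _ => ?_
    field_simp
  have hroot : Tendsto (fun s => Real.sqrt (C.area s / (16 * Real.pi)) / s) atTop
      (𝓝 (1 / 2)) := by
    have h1 : Tendsto (fun s : ℝ => 1 / 4 + T / (16 * Real.pi) * s⁻¹
        + sint (tdet (C.χ 0)) / (16 * Real.pi) * (s⁻¹ * s⁻¹)) atTop (𝓝 (1 / 4)) := by
      have h2 : Tendsto (fun s : ℝ => s⁻¹) atTop (𝓝 0) := tendsto_inv_atTop_zero
      have h3 := ((h2.const_mul (T / (16 * Real.pi))).const_add (1 / 4)).add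
        ((h2.mul h2).const_mul (sint (tdet (C.χ 0)) / (16 * Real.pi)))
      simpa using h3
    have h2 := (Real.continuous_sqrt.tendsto (1 / 4)).comp h1
    have e : Real.sqrt (1 / 4) = 1 / 2 := by
      rw [show (1 / 4 : ℝ) = (1 / 2) ^ 2 by norm_num]
      exact Real.sqrt_sq (by norm_num)
    rw [e] at h2
    refine h2.congr' ?_
    filter_upwards [eventually_gt_atTop 0] with s hs
    rw [hA s hs.le, Function.comp_apply]
    have e1 : (4 * Real.pi * s ^ 2 + s * T + sint (tdet (C.χ 0))) / (16 * Real.pi)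
        = (1 / 4 + T / (16 * Real.pi) * s⁻¹
        + sint (tdet (C.χ 0)) / (16 * Real.pi) * (s⁻¹ * s⁻¹)) * s ^ 2 := by
      have := Real.pi_pos
      field_simp
      ring
    rw [e1, Real.sqrt_mul' _ (sq_nonneg s), Real.sqrt_sq hs.le]
    field_simp
  -- the bound
  have hlow : Tendsto (fun s => Real.sqrt (C.area s / (16 * Real.pi)) / s
      * (1 / (16 * Real.pi) * (4 * I + s * sint (fun x => ttr (C.χ 0) x * C.θ s x)
        + 2 * sint (fun x => tdet (C.χ 0) x * C.θ s x) - 2 * F0))) atTop
      (𝓝 (1 / 2 * (1 / (16 * Real.pi) * (4 * I + 2 * T + 2 * 0 - 2 * F0)))) :=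
    hroot.mul ((((hP.const_add (4 * I)).add (hR.const_mul 2)).sub_const (2 * F0)).const_mul _)
  have hle : ∀ᶠ s in atTop, Real.sqrt (C.area s / (16 * Real.pi)) / s
      * (1 / (16 * Real.pi) * (4 * I + s * sint (fun x => ttr (C.χ 0) x * C.θ s x)
        + 2 * sint (fun x => tdet (C.χ 0) x * C.θ s x) - 2 * F0)) ≤ C.hawkingEnergy s := by
    filter_upwards [eventually_gt_atTop 0, eventually_ge_atTop s₁] with s hs hss
    have hF := flux_leG hM hpos hs.le
    have hθs := C.expansion_smooth s hs.le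
    have hI2 : I ≤ ∫ l in (0 : ℝ)..s, Z l := by
      rw [hI, ← intervalIntegral.integral_add_adjacent_intervals
        (cZ.intervalIntegrable 0 s₁) (cZ.intervalIntegrable s₁ s)]
      have := intervalIntegral.integral_nonneg hss (fun l _ => hZ0 l) (μ := volume)
      linarith
    have e1 : sint (fun x => areaEl (C.γ s) x * C.θ s x) = s ^ 2 * sint (C.θ s)
        + s * sint (fun x => ttr (C.χ 0) x * C.θ s x)
        + sint (fun x => tdet (C.χ 0) x * C.θ s x) := by
      rw [← sint_const_mul, ← sint_const_mul, ← sint_add (hθs.const_mul _)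
        ((hT.mul hθs).const_mul _), ← sint_add ((hθs.const_mul _).add
        ((hT.mul hθs).const_mul _)) (hD.mul hθs)]
      refine sint_congr fun x hx => ?_
      rw [hAs s hs.le x hx]
      ring
    have e2 : sint (fun x => areaEl (C.γ s) x * (gtr (C.γ s) (C.χ s) x * C.θ s x))
        = 2 * s * sint (C.θ s) + sint (fun x => ttr (C.χ 0) x * C.θ s x) := by
      rw [← sint_const_mul, ← sint_add (hθs.const_mul _) (hT.mul hθs)]
      refine sint_congr fun x hx => ?_
      rw [← mul_assoc, hAg s hs.le x hx]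
      ring
    unfold ConeData.hawkingEnergy
    rw [e2]
    rw [e1] at hF
    rw [div_mul_eq_mul_div, ← mul_div_assoc']
    apply mul_le_mul_of_nonneg_left _ (Real.sqrt_nonneg _)
    rw [div_le_iff₀ hs]
    set P := sint (fun x => ttr (C.χ 0) x * C.θ s x)
    set R := sint (fun x => tdet (C.χ 0) x * C.θ s x)
    set Q := sint (C.θ s)
    have hpi := Real.pi_pos
    have h5 : 1 / (16 * Real.pi) * (4 * I + s * P + 2 * R - 2 * F0) * (16 * Real.pi)
        ≤ (1 - 1 / (16 * Real.pi) * (2 * s * Q + P)) * s * (16 * Real.pi) := by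
      have e3 : 1 / (16 * Real.pi) * (4 * I + s * P + 2 * R - 2 * F0) * (16 * Real.pi)
          = 4 * I + s * P + 2 * R - 2 * F0 := by field_simp
      have e4 : (1 - 1 / (16 * Real.pi) * (2 * s * Q + P)) * s * (16 * Real.pi)
          = 16 * Real.pi * s - (2 * s ^ 2 * Q + s * P) := by field_simp
      rw [e3, e4]
      linarith
    exact le_of_mul_le_mul_right h5 (by positivity)
  have hfin := le_of_tendsto_of_tendsto hlow hEB hle
  have hpi := Real.pi_pos
  have e5 : 1 / 2 * (1 / (16 * Real.pi) * (4 * I + 2 * T + 2 * 0 - 2 * F0))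
      = (T + 2 * I - F0) / (16 * Real.pi) := by
    field_simp
    ring
  rw [e5, div_le_iff₀ (by positivity)] at hfin
  linarith

/-- The final theorem, without a condition on the expansion of the first section. -/
theorem ConeFinalG (hS : Solve_Stmt) (hSm : Smooth_Stmt)
    (hP : Pointwise_Stmt) (hL : Limit_Stmt) (hM : MasterG_Stmt)
    (hA : NullShell.Approx_Stmt) (C : ConeData) (E₀ : ℝ)
    (hlim : Tendsto C.hawkingEnergy atTop (𝓝 E₀)) :
    Real.sqrt (C.area 0 / (16 * Real.pi)) ≤
      E₀ + 1 / (16 * Real.pi) * sint (fun x => areaEl (C.γ 0) x * C.θ 0 x) := by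
  set EB : ℝ := E₀ + 1 / (16 * Real.pi) * sint (fun x => areaEl (C.γ 0) x * C.θ 0 x) with hEBd
  obtain ⟨hN, hW, hNx, hWx, harea, hplane, -, -, -⟩ := hSm C
  have hU : IsSymTensor (C.χ 0) := C.secondForm 0 le_rfl
  have hpos : IsPosDef (C.χ 0) := (hS C).1
  have hpi := Real.pi_pos
  set U := C.χ 0 with hUdef
  have ht : Sm (ttr U) := Sm.sum fun i _ => hU.smooth i i
  have htpos : ∀ x ∈ SS, 0 < ttr U x := fun x hx => coneFinal_trace_pos (hplane x hx)
  have hA0 : C.area 0 = sint (tdet U) := by
    unfold ConeData.area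
    exact sint_congr harea
  -- the energy is nonnegative
  have hEn : ∀ s, 0 ≤ s → sint (ttr (C.χ 0)) + 2 * ∫ l in (0 : ℝ)..s, sint (fun x => cd C l x) ≤
      16 * Real.pi * EB := by
    intro s hs
    refine (EnergyG hSm C E₀ hlim s hs).trans (le_of_eq ?_)
    rw [hEBd]
    field_simp
  have hEB : 0 ≤ EB := by
    have h1 := hEn 0 le_rfl
    rw [intervalIntegral.integral_same] at h1
    have h2 : 0 ≤ sint (ttr U) := sint_nonneg fun x hx => (htpos x hx).le
    have h3 : 0 ≤ 16 * Real.pi * EB := by linarith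
    exact nonneg_of_mul_nonneg_right h3 (by positivity)
  -- the main estimate
  have key : ∀ δ : ℝ, 0 < δ → sint (tdet U) ≤ 16 * Real.pi * EB ^ 2 + δ := by
    intro δ hδ
    obtain ⟨η, R, hη, hη0, hR, herr⟩ := hA (ttr U) ht htpos δ hδ
    have hne : ∀ y ∈ SS, η y ≠ 0 := fun y hy => (hη0 y hy).ne'
    set α : E → ℝ := fun y => -R * Real.log (η y) with hαdef
    have hα : Sm α := (hη.log hne).const_mul (-R)
    have hJ : sint (Jfun U α R) ≤ 16 * Real.pi * EB - sint (ttr U) := by
      refine hL U (Nfun C) (Wfun U) (Jfun U α R) _ hU hpos hN hW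
        (coneFinal_sm_Jfun hU hα hW R) ?_ ?_
      · intro s hs
        have h1 := hEn s hs
        have h2 : 2 * (∫ l in (0 : ℝ)..s, sint (fun x =>
            coneDens (fun i j => U i j x) (fun i => Nfun C i x) (fun i => Wfun U i x) l))
            = 2 * ∫ l in (0 : ℝ)..s, sint (fun x => cd C l x) := rfl
        rw [h2]
        linarith
      · intro x hx ε hε
        have hax : ∑ i, (- Lop i α x) * x i = 0 := by
          have := sum_coord_mul_Lop α x
          simp only [Fin.sum_univ_three]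
          linarith
        exact hP (fun i => x i) (fun i j => U i j x) (fun i => Nfun C i x)
          (fun i => Wfun U i x) (fun i => - Lop i α x) R (hplane x hx) (hNx x hx) (hWx x hx)
          hax hR ε hε
    have hmaster := hM U α R hU hα hR
    have herr2 : sint (fun x => (lap α x - gdot α α x / R - ttr U x / 2 + R) ^ 2) ≤ δ := by
      refine le_trans (le_of_eq (sint_congr fun x hx => ?_)) herr
      rw [hαdef, core_error hη hη0 hR hx]
      have := hne x hx
      congr 1
      field_simp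
      ring
    have h4 : R * (sint (ttr U) + sint (Jfun U α R)) ≤ R * (16 * Real.pi * EB) :=
      mul_le_mul_of_nonneg_left (by linarith) hR.le
    nlinarith [mul_nonneg hpi.le (sq_nonneg (R - 2 * EB))]
  have hfin : sint (tdet U) ≤ 16 * Real.pi * EB ^ 2 := le_of_forall_pos_le_add key
  rw [hA0]
  refine Real.sqrt_le_iff.2 ⟨hEB, ?_⟩
  rw [div_le_iff₀ (by positivity)]
  linarith


end Pool.Agent.NullCone
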