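import Pool.Agent.NullCone.Square
import Pool.Agent.NullShell.BasicB1

/-! # Passage to the limit (module NullCone_Limit, helper75) -/

open MeasureTheory Filter Topology
open scoped ContDiff

namespace Pool.Agent.NullCone

open Pool.Agent.NullShell

theorem limit_planeMat {U : Ten} (hU : IsSymTensor U) (hP : IsPosDef U) {x : E} (hx : x ∈ SS) :
    PlaneMat (fun i => x i) (fun i j => U i j x) where
  unit := by
    rw [Fin.sum_univ_three]
    exact sq_sum_eq_one hx
  symm := hU.symm x hx
  tangent := hU.tangent x hx
  pos := hP x hx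

/-- The density on the sphere, as a continuous function. -/
noncomputable def limG (U : Ten) (N W : Cov) (x : SS) (l : ℝ) : ℝ :=
  coneDens (fun i j => U i j x) (fun i => N i x) (fun i => W i x) (max l 0)

theorem limit_cont {U : Ten} {N W : Cov} (hU : IsSymTensor U) (hP : IsPosDef U)
    (hN : ∀ i, Sm (N i)) (hW : ∀ i, Sm (W i)) : Continuous (Function.uncurry (limG U N W)) := by
  have hu : ∀ i j, Continuous fun p : SS × ℝ => U i j (p.1 : E) := fun i j =>
    (hU.smooth i j).continuous_restrict.comp continuous_fst
  have hn : ∀ i, Continuous fun p : SS × ℝ => N i (p.1 : E) := fun i =>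
    (hN i).continuous_restrict.comp continuous_fst
  have hw : ∀ i, Continuous fun p : SS × ℝ => W i (p.1 : E) := fun i =>
    (hW i).continuous_restrict.comp continuous_fst
  have hl : Continuous fun p : SS × ℝ => max p.2 (0 : ℝ) := continuous_snd.max continuous_const
  have htr : Continuous fun p : SS × ℝ => mtr (fun i j => U i j (p.1 : E)) :=
    continuous_finsetSum _ fun i _ => hu i i
  have hdet : Continuous fun p : SS × ℝ => mdet (fun i j => U i j (p.1 : E)) := by
    unfold mdet
    exact continuous_const.mul ((htr.pow 2).sub (continuous_finsetSum _ fun i _ =>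
      continuous_finsetSum _ fun j _ => (hu i j).mul (hu j i)))
  unfold Function.uncurry limG coneDens
  refine Continuous.div ?_ ?_ ?_
  · refine continuous_finsetSum _ fun i _ => Continuous.pow ?_ 2
    refine ((hl.add htr).mul ((hn i).add (hl.mul (hw i)))).sub ?_
    exact continuous_finsetSum _ fun j _ => (hu i j).mul ((hn j).add (hl.mul (hw j)))
  · exact (((hl.pow 2).add (hl.mul htr)).add hdet).pow 3
  · intro p
    have h := limit_planeMat hU hP p.1.2
    have h1 := SquareAux.mtr_pos h
    have h2 := SquareAux.mdet_pos h
    have h3 : (0 : ℝ) ≤ max p.2 0 := le_max_right _ _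
    positivity

theorem limit_nonneg {U : Ten} {N W : Cov} (hU : IsSymTensor U) (hP : IsPosDef U) (x : SS)
    (l : ℝ) : 0 ≤ limG U N W x l := by
  unfold limG coneDens
  have h := limit_planeMat hU hP x.2
  have h1 := SquareAux.mtr_pos h
  have h2 := SquareAux.mdet_pos h
  have h3 : (0 : ℝ) ≤ max l 0 := le_max_right _ _
  positivity

theorem Limit : Limit_Stmt := by
  intro U N W J c hU hP hN hW hJ hle hlow
  have hg := limit_cont hU hP hN hW
  have hg0 := limit_nonneg (N := N) (W := W) hU hP
  set g := limG U N W with hgdef
  have hgx : ∀ x : SS, Continuous (g x) := fun x => hg.comp (Continuous.prodMk_right x)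
  -- the integrals
  let I : ℝ → SS → ℝ := fun s x => 2 * ∫ l in (0 : ℝ)..s, g x l
  have hIc : ∀ s, Continuous (I s) := fun s =>
    continuous_const.mul
      (intervalIntegral.continuous_parametric_intervalIntegral_of_continuous' hg 0 s)
  have hIeq : ∀ s, 0 ≤ s → ∀ x : SS, I s x = 2 * ∫ l in (0 : ℝ)..s,
      coneDens (fun i j => U i j x) (fun i => N i x) (fun i => W i x) l := by
    intro s hs x
    change 2 * _ = 2 * _
    congr 1
    refine intervalIntegral.integral_congr fun l hl => ?_
    rw [Set.uIcc_of_le hs] at hl
    change coneDens _ _ _ (max l 0) = _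
    rw [max_eq_left hl.1]
  have hI0 : ∀ s, 0 ≤ s → ∀ x, 0 ≤ I s x := fun s hs x =>
    mul_nonneg zero_le_two (intervalIntegral.integral_nonneg hs fun l _ => hg0 x l)
  have hIint : ∀ s, 0 ≤ s → ∫ x, I s x ∂sph ≤ c := by
    intro s hs
    refine le_trans (le_of_eq ?_) (hle s hs)
    rw [integral_const_mul]
    congr 1
    have h1 : ∀ l ∈ Set.uIcc 0 s, sint (fun x => coneDens (fun i j => U i j x) (fun i => N i x)
        (fun i => W i x) l) = ∫ x, g x l ∂sph := by
      intro l hl
      rw [Set.uIcc_of_le hs] at hl
      unfold sint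
      congr 1
      ext x
      change _ = coneDens _ _ _ (max l 0)
      rw [max_eq_left hl.1]
    rw [intervalIntegral.integral_congr h1, intervalIntegral.integral_of_le hs]
    have h2 : ∀ x : SS, ∫ l in (0 : ℝ)..s, g x l = ∫ l in Set.Ioc 0 s, g x l := fun x =>
      intervalIntegral.integral_of_le hs
    simp only [h2]
    refine integral_integral_swap ?_
    have h3 : IntegrableOn (Function.uncurry g) (Set.univ ×ˢ Set.Icc 0 s)
        (sph.prod (volume : Measure ℝ)) :=
      hg.continuousOn.integrableOn_compact (isCompact_univ.prod isCompact_Icc)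
    have h4 := h3.mono_set (Set.prod_mono_right (t₁ := Set.Ioc 0 s) Set.Ioc_subset_Icc_self)
    rw [IntegrableOn, ← Measure.prod_restrict, Measure.restrict_univ] at h4
    exact h4
  -- truncation
  have hJc : Continuous fun x : SS => J x := hJ.continuous_restrict
  have hlim : Tendsto (fun n : ℕ => ∫ x, min (I n x) (J x) ∂sph) atTop (𝓝 (∫ x : SS, J x ∂sph)) := by
    refine tendsto_integral_of_dominated_convergence (fun x : SS => |J x|) ?_ ?_ ?_ ?_
    · intro n
      exact ((hIc n).min hJc).aestronglyMeasurable
    · exact integrable_of_continuous hJc.abs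
    · intro n
      refine Eventually.of_forall fun x => ?_
      have h0 := hI0 n n.cast_nonneg x
      rw [Real.norm_eq_abs]
      rcases le_total (I n x) (J x) with h | h
      · rw [min_eq_left h, abs_of_nonneg h0]
        exact h.trans (le_abs_self _)
      · rw [min_eq_right h]
    · refine Eventually.of_forall fun x => ?_
      rw [Metric.tendsto_atTop]
      intro ε hε
      obtain ⟨s₀, hs₀, h⟩ := hlow x x.2 (ε / 2) (half_pos hε)
      obtain ⟨n₀, hn₀⟩ := exists_nat_ge s₀
      refine ⟨n₀, fun n hn => ?_⟩
      have h1 := h n (hn₀.trans (Nat.cast_le.2 hn))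
      rw [← hIeq n n.cast_nonneg x] at h1
      rw [Real.dist_eq, abs_lt]
      constructor
      · have : J x - ε / 2 ≤ min (I n x) (J x) := le_min h1 (by linarith)
        linarith
      · have : min (I n x) (J x) ≤ J x := min_le_right _ _
        linarith
  refine le_of_tendsto' hlim fun n => ?_
  refine le_trans ?_ (hIint n n.cast_nonneg)
  exact integral_mono (integrable_of_continuous ((hIc n).min hJc))
    (integrable_of_continuous (hIc n)) fun x => min_le_left _ _

end Pool.Agent.NullCone
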