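import Pool.Agent.NullCone.Stmts
import Pool.Agent.NullShell.Master
import Pool.Agent.NullShell.Bochner

/-! # The sum of squares for a general symmetric tensor -/

open MeasureTheory Filter Topology
open scoped ContDiff

namespace Pool.Agent.NullCone

open Pool.Agent.NullShell

theorem masterG_sm_ttr {U : Ten} (hU : IsSymTensor U) : Sm (ttr U) :=
  Sm.sum fun i _ => hU.smooth i i

theorem masterG_sm_tdet {U : Ten} (hU : IsSymTensor U) : Sm (tdet U) :=
  (((masterG_sm_ttr hU).pow 2).sub (Sm.sum fun i _ => Sm.sum fun j _ =>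
    (hU.smooth i j).mul (hU.smooth j i))).const_mul (1 / 2)

theorem masterG_sm_W {U : Ten} (hU : IsSymTensor U) (i : Fin 3) : Sm (Wfun U i) :=
  ((masterG_sm_ttr hU).lop i).sub (Sm.sum fun j _ => (hU.smooth j i).lop j)

/-- Integration by parts in the divergence term. -/
theorem masterG_div {U : Ten} (hU : IsSymTensor U) {α : E → ℝ} (ha : Sm α) :
    sint (fun x => ∑ i, (- Lop i α x) * Wfun U i x)
      = sint (fun x => ttr U x * lap α x - ∑ i, ∑ j, U i j x * hess α i j x) := by
  have ht := masterG_sm_ttr hU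
  have hUL : ∀ i j, Sm (fun x => Lop j (U j i) x * Lop i α x) := fun i j =>
    ((hU.smooth j i).lop j).mul (ha.lop i)
  have hUH : Sm (fun x => ∑ i, ∑ j, U i j x * hess α i j x) :=
    Sm.sum fun i _ => Sm.sum fun j _ => (hU.smooth i j).mul (ha.hess i j)
  have e1 : sint (fun x => ∑ i, (- Lop i α x) * Wfun U i x)
      = sint (fun x => (- gdot (ttr U) α x) + ∑ i, ∑ j, Lop j (U j i) x * Lop i α x) := by
    refine sint_congr fun x _ => ?_
    unfold Wfun gdot
    simp only [Fin.sum_univ_three]
    ring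
  rw [e1, sint_add (ht.gdot ha).neg (Sm.sum fun i _ => Sm.sum fun j _ => hUL i j), sint_neg,
    ← sint_green ht ha, sint_sub (ht.mul ha.lap) hUH, sub_eq_add_neg]
  congr 1
  rw [sint_finset_sum fun i _ => Sm.sum fun j _ => hUL i j]
  have e2 : ∀ i, sint (fun x => ∑ j, Lop j (U j i) x * Lop i α x)
      = - sint (fun x => ∑ j, U j i x * Lop j (Lop i α) x) := by
    intro i
    rw [sint_finset_sum fun j _ => hUL i j,
      sint_finset_sum fun j _ => (hU.smooth j i).mul ((ha.lop i).lop j),
      ← Finset.sum_neg_distrib]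
    exact Finset.sum_congr rfl fun j _ => sint_Lop_mul (hU.smooth j i) (ha.lop i) j
  rw [Finset.sum_congr rfl fun i _ => e2 i, Finset.sum_neg_distrib,
    ← sint_finset_sum fun i _ => Sm.sum fun j _ => (hU.smooth j i).mul ((ha.lop i).lop j)]
  congr 1
  refine sint_congr fun x hx => ?_
  have h0 := hU.tangent x hx 0
  have h1 := hU.tangent x hx 1
  have h2 := hU.tangent x hx 2
  unfold hess
  simp only [Fin.sum_univ_three] at h0 h1 h2 ⊢
  linear_combination (- xcr α 0 x) * h0 - xcr α 1 x * h1 - xcr α 2 x * h2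

/-- The pointwise identity behind the sum of squares. -/
theorem masterG_alg (c R t la G haa HA UU UH UA Ws : ℝ) (hcR : c * R = 1)
    (h2 : (1 / 2) * (2 * la - t + c * G) ^ 2
      ≤ 4 * haa + UU + c ^ 2 * G ^ 2 - 4 * UH + 4 * c * HA - 2 * c * UA) :
    R ^ 2 + (1 / 2) * (t ^ 2 - UU)
      ≤ (R * t + R * ((2 * c) * Ws - c ^ 2 * (UA + (t / 2) * G))
        + (la - c * G - t / 2 + R) ^ 2)
        + (-1) * ((((2 * (Ws - (t * la - UH))) + (2 * R) * la) + 2 * (la * la - G - haa))
          + (-c) * (la * G + 2 * HA)) := by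
  have hA : 0 ≤ (c * G) ^ 2 := sq_nonneg _
  have hfin : (R * t + R * ((2 * c) * Ws - c ^ 2 * (UA + (t / 2) * G))
        + (la - c * G - t / 2 + R) ^ 2)
        + (-1) * ((((2 * (Ws - (t * la - UH))) + (2 * R) * la) + 2 * (la * la - G - haa))
          + (-c) * (la * G + 2 * HA)) - (R ^ 2 + (1 / 2) * (t ^ 2 - UU))
      = 1 / 2 * ((4 * haa + UU + c ^ 2 * G ^ 2 - 4 * UH + 4 * c * HA - 2 * c * UA)
          - 1 / 2 * (2 * la - t + c * G) ^ 2) + 3 / 4 * (c * G) ^ 2 := by
    linear_combination (2 * Ws - c * (UA + (t / 2) * G) - 2 * G) * hcR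
  linarith

theorem MasterG (hB : Bochner_Stmt) : MasterG_Stmt := by
  intro U α R hU ha hR
  have hR0 : R ≠ 0 := hR.ne'
  have hH : HessContract_Stmt := HessContract
  set c : ℝ := 1 / R with hc
  have hcR : c * R = 1 := by rw [hc]; field_simp
  -- smoothness
  have ht := masterG_sm_ttr hU
  have hd := masterG_sm_tdet hU
  have hG := ha.gdot ha
  have hla := ha.lap
  have hhaa := ha.hdot ha
  have hHA : Sm (fun x => ∑ i, ∑ j, hess α i j x * Lop i α x * Lop j α x) :=
    Sm.sum fun i _ => Sm.sum fun j _ => ((ha.hess i j).mul (ha.lop i)).mul (ha.lop j)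
  have hUH : Sm (fun x => ∑ i, ∑ j, U i j x * hess α i j x) :=
    Sm.sum fun i _ => Sm.sum fun j _ => (hU.smooth i j).mul (ha.hess i j)
  have hUA : Sm (fun x => ∑ i, ∑ j, U i j x * (- Lop i α x) * (- Lop j α x)) :=
    Sm.sum fun i _ => Sm.sum fun j _ => ((hU.smooth i j).mul (ha.lop i).neg).mul (ha.lop j).neg
  have hWs : Sm (fun x => ∑ i, (- Lop i α x) * Wfun U i x) :=
    Sm.sum fun i _ => (ha.lop i).neg.mul (masterG_sm_W hU i)
  have hGG : Sm (fun x => ∑ i, (- Lop i α x) ^ 2) := Sm.sum fun i _ => (ha.lop i).neg.pow 2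
  have sJ : Sm (Jfun U α R) :=
    (hWs.const_mul (2 / R)).sub ((hUA.add ((ht.div (sm_const 2) fun _ _ => two_ne_zero).mul
      hGG)).const_mul (1 / R ^ 2))
  -- the functions with vanishing integral
  set z1 : E → ℝ := fun x => lap α x * lap α x - gdot α α x - hdot α α x with hz1
  set z4 : E → ℝ := fun x => lap α x * gdot α α x
    + 2 * (∑ i, ∑ j, hess α i j x * Lop i α x * Lop j α x) with hz4
  set z7 : E → ℝ := fun x => (∑ i, (- Lop i α x) * Wfun U i x)
    - (ttr U x * lap α x - ∑ i, ∑ j, U i j x * hess α i j x) with hz7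
  have sz1 : Sm z1 := ((hla.mul hla).sub hG).sub hhaa
  have sz4 : Sm z4 := (hla.mul hG).add (hHA.const_mul 2)
  have sz7 : Sm z7 := hWs.sub ((ht.mul hla).sub hUH)
  have iz1 : sint z1 = 0 := by
    have h1 : sint z1 = sint (fun x => lap α x * lap α x - gdot α α x) - sint (hdot α α) :=
      sint_sub ((hla.mul hla).sub hG) hhaa
    rw [h1, sint_sub (hla.mul hla) hG, hB α α ha ha]
    ring
  have iz4 : sint z4 = 0 := by
    have h1 : sint z4 = sint (fun x => lap α x * gdot α α x)
        + sint (fun x => 2 * (∑ i, ∑ j, hess α i j x * Lop i α x * Lop j α x)) :=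
      sint_add (hla.mul hG) (hHA.const_mul 2)
    rw [h1, sint_const_mul, hH α α ha ha]
    ring
  have iz7 : sint z7 = 0 := by
    have h1 : sint z7 = sint (fun x => ∑ i, (- Lop i α x) * Wfun U i x)
        - sint (fun x => ttr U x * lap α x - ∑ i, ∑ j, U i j x * hess α i j x) :=
      sint_sub hWs ((ht.mul hla).sub hUH)
    rw [h1, masterG_div hU ha]
    ring
  set Z : E → ℝ := fun x => (((2 * z7 x) + (2 * R) * lap α x) + 2 * z1 x) + (-c) * z4 x with hZ
  have sZ : Sm Z := (((sz7.const_mul 2).add (hla.const_mul (2 * R))).add (sz1.const_mul 2)).add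
    (sz4.const_mul (-c))
  have iZ : sint Z = 0 := by
    rw [hZ, sint_add (((sz7.const_mul 2).add (hla.const_mul (2 * R))).add (sz1.const_mul 2))
      (sz4.const_mul (-c)),
      sint_add ((sz7.const_mul 2).add (hla.const_mul (2 * R))) (sz1.const_mul 2),
      sint_add (sz7.const_mul 2) (hla.const_mul (2 * R)),
      sint_const_mul, sint_const_mul, sint_const_mul, sint_const_mul, iz1, iz4, iz7, sint_lap ha]
    ring
  -- the two sides
  set Q : E → ℝ := fun x => (lap α x - gdot α α x / R - ttr U x / 2 + R) ^ 2 with hQ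
  have sGR : Sm (fun x => gdot α α x / R) := hG.div (sm_const R) fun _ _ => hR0
  have sQ : Sm Q := (((hla.sub sGR).sub (ht.div (sm_const 2) fun _ _ => two_ne_zero)).add
    (sm_const R)).pow 2
  have sRt : Sm (fun x => R * ttr U x) := ht.const_mul R
  have sRJ : Sm (fun x => R * Jfun U α R x) := sJ.const_mul R
  have sL : Sm (fun x => R ^ 2 + tdet U x) := (sm_const (R ^ 2)).add hd
  have sM : Sm (fun x => R * ttr U x + R * Jfun U α R x + Q x) := (sRt.add sRJ).add sQ
  have sLZ : Sm (fun x => (R * ttr U x + R * Jfun U α R x + Q x) + (-1) * Z x) :=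
    sM.add (sZ.const_mul (-1))
  have key : ∀ x ∈ SS, R ^ 2 + tdet U x
      ≤ (R * ttr U x + R * Jfun U α R x + Q x) + (-1) * Z x := by
    intro x hx
    have h1 := master_alg (fun i j => hess α i j x) (fun i j => U i j x)
      (fun i => Lop i α x) c
    have h2 := master_alg2 (fun i j => 2 * hess α i j x - U i j x
      + c * (Lop i α x * Lop j α x)) (fun i => x i) (mem_SS_iff.1 hx) (by
        have e1 : ∀ i : Fin 3, ∑ j, (2 * hess α i j x - U i j x
            + c * (Lop i α x * Lop j α x)) * x j = 0 := by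
          intro i
          have e2 : ∑ j, (2 * hess α i j x - U i j x
            + c * (Lop i α x * Lop j α x)) * x j = 2 * (∑ j, hess α i j x * x j)
              - (∑ j, U i j x * x j) + c * Lop i α x * (x 0 * Lop 0 α x + x 1 * Lop 1 α x
                + x 2 * Lop 2 α x) := by
            simp only [Fin.sum_univ_three]
            ring
          rw [e2, hess_mul_coord ha hx, hU.tangent x hx i, sum_coord_mul_Lop]
          ring
        simp only [e1, zero_mul, Finset.sum_const_zero])
    have h3 : ∑ i, (2 * hess α i i x - U i i x + c * (Lop i α x * Lop i α x))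
        = 2 * lap α x - ttr U x + c * gdot α α x := by
      rw [← hess_trace ha hx]
      simp only [gdot, ttr, Fin.sum_univ_three]
      ring
    rw [h1, h3] at h2
    have e3 : ∑ i, ∑ j, hess α i j x * hess α i j x = hdot α α x := rfl
    have e6 : ∑ i, Lop i α x * Lop i α x = gdot α α x := rfl
    have e5 : ∑ i, ∑ j, hess α i j x * U i j x = ∑ i, ∑ j, U i j x * hess α i j x :=
      Finset.sum_congr rfl fun i _ => Finset.sum_congr rfl fun j _ => mul_comm _ _
    have e7 : ∑ i, ∑ j, U i j x * U j i x = ∑ i, ∑ j, U i j x * U i j x :=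
      Finset.sum_congr rfl fun i _ => Finset.sum_congr rfl fun j _ => by
        rw [hU.symm x hx j i]
    have e8 : ∑ i, ∑ j, U i j x * (- Lop i α x) * (- Lop j α x)
        = ∑ i, ∑ j, U i j x * Lop i α x * Lop j α x :=
      Finset.sum_congr rfl fun i _ => Finset.sum_congr rfl fun j _ => by ring
    have e9 : ∑ i, (- Lop i α x) ^ 2 = gdot α α x :=
      Finset.sum_congr rfl fun i _ => by ring
    rw [e3, e5, e6] at h2
    have hfin := masterG_alg c R (ttr U x) (lap α x) (gdot α α x) (hdot α α x)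
      (∑ i, ∑ j, hess α i j x * Lop i α x * Lop j α x) (∑ i, ∑ j, U i j x * U i j x)
      (∑ i, ∑ j, U i j x * hess α i j x) (∑ i, ∑ j, U i j x * Lop i α x * Lop j α x)
      (∑ i, (- Lop i α x) * Wfun U i x) hcR h2
    have e10 : tdet U x = (1 / 2) * (ttr U x ^ 2 - ∑ i, ∑ j, U i j x * U i j x) := by
      unfold tdet
      rw [e7]
    have e11 : Jfun U α R x = (2 * c) * (∑ i, (- Lop i α x) * Wfun U i x)
        - c ^ 2 * ((∑ i, ∑ j, U i j x * Lop i α x * Lop j α x)
          + (ttr U x / 2) * gdot α α x) := by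
      unfold Jfun
      rw [e8, e9, hc]
      field_simp
    have e12 : Q x = (lap α x - c * gdot α α x - ttr U x / 2 + R) ^ 2 := by
      rw [hQ, hc]
      ring
    rw [e10, e11, e12]
    exact hfin
  have h1 := sint_mono sL sLZ key
  rw [sint_add sM (sZ.const_mul (-1)), sint_const_mul, iZ, sint_add (sRt.add sRJ) sQ,
    sint_add sRt sRJ, sint_const_mul, sint_const_mul, sint_add (sm_const (R ^ 2)) hd,
    sint_const] at h1
  linarith

end Pool.Agent.NullCone
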