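import Pool.Agent.NullCone.Stmts

/-! # The bound at a point -/

open MeasureTheory Filter Topology
open scoped ContDiff

namespace Pool.Agent.NullCone

open Pool.Agent.NullShell

/-- A unit vector orthogonal to the unit vector `x`. -/
theorem exists_unit_orth (x : Fin 3 → ℝ) :
    ∃ e : Fin 3 → ℝ, ∑ i, e i ^ 2 = 1 ∧ ∑ i, e i * x i = 0 := by
  by_cases h : x 0 ^ 2 + x 1 ^ 2 = 0
  · have h0 : x 0 = 0 := by nlinarith [sq_nonneg (x 0), sq_nonneg (x 1)]
    refine ⟨![1, 0, 0], ?_, ?_⟩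
    · simp [Fin.sum_univ_three]
    · simp [Fin.sum_univ_three, h0]
  · have hp : 0 < x 0 ^ 2 + x 1 ^ 2 := lt_of_le_of_ne (by positivity) (Ne.symm h)
    set r := Real.sqrt (x 0 ^ 2 + x 1 ^ 2) with hr
    have hr2 : r ^ 2 = x 0 ^ 2 + x 1 ^ 2 := Real.sq_sqrt hp.le
    have hr0 : 0 < r := Real.sqrt_pos.mpr hp
    refine ⟨![x 1 / r, - x 0 / r, 0], ?_, ?_⟩
    · simp only [Fin.sum_univ_three, Matrix.cons_val_zero, Matrix.cons_val_one, Matrix.cons_val]
      field_simp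
      linarith
    · simp only [Fin.sum_univ_three, Matrix.cons_val_zero, Matrix.cons_val_one, Matrix.cons_val]
      field_simp
      ring

/-- The completeness relation for an orthonormal basis. -/
theorem complete_of_orthonormal (f g x : Fin 3 → ℝ) (hf : ∑ i, f i ^ 2 = 1)
    (hg : ∑ i, g i ^ 2 = 1) (hx : ∑ i, x i ^ 2 = 1) (hfg : ∑ i, f i * g i = 0)
    (hfx : ∑ i, f i * x i = 0) (hgx : ∑ i, g i * x i = 0) (i j : Fin 3) :
    f i * f j + g i * g j + x i * x j = if i = j then 1 else 0 := by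
  have h1 : (Matrix.of ![f, g, x]) * (Matrix.of ![f, g, x]).transpose
      = (1 : Matrix (Fin 3) (Fin 3) ℝ) := by
    simp only [Fin.sum_univ_three] at hf hg hx hfg hfx hgx
    ext a b
    fin_cases a <;> fin_cases b <;>
      simp [Matrix.mul_apply, Fin.sum_univ_three, Matrix.transpose_apply] <;> nlinarith
  have h2 := mul_eq_one_comm.mp h1
  have h3 := congrFun (congrFun h2 i) j
  simp only [Matrix.mul_apply, Fin.sum_univ_three, Matrix.transpose_apply, Matrix.of_apply,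
    Matrix.one_apply, Matrix.cons_val_zero, Matrix.cons_val_one, Matrix.cons_val] at h3
  exact h3

/-- An eigenbasis. -/
theorem exists_eigenbasis (x : Fin 3 → ℝ) (U : Fin 3 → Fin 3 → ℝ) (h : PlaneMat x U) :
    ∃ (f g : Fin 3 → ℝ) (u v : ℝ), 0 < u ∧ 0 < v ∧ ∑ i, f i ^ 2 = 1 ∧ ∑ i, g i ^ 2 = 1 ∧
      ∑ i, f i * g i = 0 ∧ ∑ i, f i * x i = 0 ∧ ∑ i, g i * x i = 0 ∧
      (∀ i j, f i * f j + g i * g j + x i * x j = if i = j then 1 else 0) ∧
      (∀ i j, U i j = u * (f i * f j) + v * (g i * g j)) := by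
  obtain ⟨e, he1, he2⟩ := exists_unit_orth x
  have hx := h.unit
  -- the second vector
  set d : Fin 3 → ℝ := ![x 1 * e 2 - x 2 * e 1, x 2 * e 0 - x 0 * e 2, x 0 * e 1 - x 1 * e 0] with hd
  have hd0 : d 0 = x 1 * e 2 - x 2 * e 1 := rfl
  have hd1 : d 1 = x 2 * e 0 - x 0 * e 2 := rfl
  have hd2 : d 2 = x 0 * e 1 - x 1 * e 0 := rfl
  have hdx : ∑ i, d i * x i = 0 := by
    simp only [Fin.sum_univ_three, hd0, hd1, hd2]; ring
  have hed : ∑ i, e i * d i = 0 := by
    simp only [Fin.sum_univ_three, hd0, hd1, hd2]; ring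
  have hdd : ∑ i, d i ^ 2 = 1 := by
    simp only [Fin.sum_univ_three] at hx he1 he2
    have hL : d 0 ^ 2 + d 1 ^ 2 + d 2 ^ 2 = (x 0 ^ 2 + x 1 ^ 2 + x 2 ^ 2) *
        (e 0 ^ 2 + e 1 ^ 2 + e 2 ^ 2) - (e 0 * x 0 + e 1 * x 1 + e 2 * x 2) ^ 2 := by
      rw [hd0, hd1, hd2]; ring
    simp only [Fin.sum_univ_three]
    rw [hL, hx, he1, he2]; ring
  clear_value d
  clear hd hd0 hd1 hd2
  -- the matrix
  set p : ℝ := ∑ i, ∑ j, U i j * e i * e j with hp
  set q : ℝ := ∑ i, ∑ j, U i j * e i * d j with hq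
  set r : ℝ := ∑ i, ∑ j, U i j * d i * d j with hr
  set z : ℂ := ⟨(p - r) / 2, q⟩ with hz
  set θ : ℝ := z.arg / 2 with hθ
  have hc2 : ‖z‖ * Real.cos (2 * θ) = (p - r) / 2 := by
    have := Complex.norm_mul_cos_arg z
    rw [hθ, mul_div_cancel₀ _ (by norm_num : (2 : ℝ) ≠ 0)]
    rw [this]
  have hs2 : ‖z‖ * Real.sin (2 * θ) = q := by
    have := Complex.norm_mul_sin_arg z
    rw [hθ, mul_div_cancel₀ _ (by norm_num : (2 : ℝ) ≠ 0)]
    rw [this]
  set c := Real.cos θ with hc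
  set s := Real.sin θ with hs
  have hcs : c ^ 2 + s ^ 2 = 1 := by rw [hc, hs]; exact Real.cos_sq_add_sin_sq θ
  have hrot : - (s * c) * (p - r) + (c ^ 2 - s ^ 2) * q = 0 := by
    rw [Real.cos_two_mul, ← hc] at hc2
    rw [Real.sin_two_mul, ← hc, ← hs] at hs2
    have : p - r = 2 * (‖z‖ * (2 * c ^ 2 - 1)) := by rw [hc2]; ring
    rw [this, ← hs2]
    have h1 : (1 : ℝ) = c ^ 2 + s ^ 2 := hcs.symm
    rw [show (2 * c ^ 2 - 1 : ℝ) = c ^ 2 - s ^ 2 by rw [h1]; ring]
    ring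
  have s10 : U 1 0 = U 0 1 := h.symm 1 0
  have s20 : U 2 0 = U 0 2 := h.symm 2 0
  have s21 : U 2 1 = U 1 2 := h.symm 2 1
  set f : Fin 3 → ℝ := fun i => c * e i + s * d i with hfdef
  set g : Fin 3 → ℝ := fun i => - s * e i + c * d i with hgdef
  have hff : ∑ i, f i ^ 2 = 1 := by
    have : ∑ i, f i ^ 2 = c ^ 2 * (∑ i, e i ^ 2) + 2 * (c * s) * (∑ i, e i * d i)
        + s ^ 2 * (∑ i, d i ^ 2) := by
      simp only [Fin.sum_univ_three, hfdef]; ring
    rw [this, he1, hed, hdd]; linarith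
  have hgg : ∑ i, g i ^ 2 = 1 := by
    have : ∑ i, g i ^ 2 = s ^ 2 * (∑ i, e i ^ 2) - 2 * (c * s) * (∑ i, e i * d i)
        + c ^ 2 * (∑ i, d i ^ 2) := by
      simp only [Fin.sum_univ_three, hgdef]; ring
    rw [this, he1, hed, hdd]; linarith
  have hfg : ∑ i, f i * g i = 0 := by
    have : ∑ i, f i * g i = - (c * s) * (∑ i, e i ^ 2) + (c ^ 2 - s ^ 2) * (∑ i, e i * d i)
        + (c * s) * (∑ i, d i ^ 2) := by
      simp only [Fin.sum_univ_three, hfdef, hgdef]; ring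
    rw [this, he1, hed, hdd]; ring
  have hfx : ∑ i, f i * x i = 0 := by
    have : ∑ i, f i * x i = c * (∑ i, e i * x i) + s * (∑ i, d i * x i) := by
      simp only [Fin.sum_univ_three, hfdef]; ring
    rw [this, he2, hdx]; ring
  have hgx : ∑ i, g i * x i = 0 := by
    have : ∑ i, g i * x i = - s * (∑ i, e i * x i) + c * (∑ i, d i * x i) := by
      simp only [Fin.sum_univ_three, hgdef]; ring
    rw [this, he2, hdx]; ring
  have hUfg : ∑ i, ∑ j, U i j * f i * g j = 0 := by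
    have : ∑ i, ∑ j, U i j * f i * g j = - (s * c) * (p - r) + (c ^ 2 - s ^ 2) * q := by
      rw [hp, hq, hr]
      simp only [Fin.sum_univ_three, hfdef, hgdef, s10, s20, s21]; ring
    rw [this, hrot]
  have hcomp := complete_of_orthonormal f g x hff hgg hx hfg hfx hgx
  have hfne : f ≠ 0 := by
    intro h0; rw [h0] at hff; simp at hff
  have hgne : g ≠ 0 := by
    intro h0; rw [h0] at hgg; simp at hgg
  have hu := h.pos f hfx hfne
  have hv := h.pos g hgx hgne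
  clear_value f g
  refine ⟨f, g, _, _, hu, hv, hff, hgg, hfg, hfx, hgx, hcomp, ?_⟩
  intro i j
  have hU : U i j = ∑ k, ∑ l, (f i * f k + g i * g k + x i * x k) * U k l *
      (f l * f j + g l * g j + x l * x j) := by
    simp [hcomp]
  rw [hU]
  have t0 := h.tangent 0
  have t1 := h.tangent 1
  have t2 := h.tangent 2
  simp only [Fin.sum_univ_three, s10, s20, s21] at hUfg t0 t1 t2 ⊢
  linear_combination (f i * g j + g i * f j) * hUfg
    + ((f i * f 0 + g i * g 0 + x i * x 0) * x j + x i * (f 0 * f j + g 0 * g j)) * t0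
    + ((f i * f 1 + g i * g 1 + x i * x 1) * x j + x i * (f 1 * f j + g 1 * g j)) * t1
    + ((f i * f 2 + g i * g 2 + x i * x 2) * x j + x i * (f 2 * f j + g 2 * g j)) * t2

/-- The scalar inequality. -/
theorem amgm (D w a R : ℝ) (hD : 0 < D) (hR : 0 < R) :
    (2 / R) * (a * w) - (1 / R ^ 2) * (D / 2 * a ^ 2) ≤ 2 * (w ^ 2 / D) := by
  have h : 2 * (w ^ 2 / D) - ((2 / R) * (a * w) - (1 / R ^ 2) * (D / 2 * a ^ 2))
      = (2 * w - D * a / R) ^ 2 / (2 * D) := by
    field_simp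
    ring
  have : 0 ≤ (2 * w - D * a / R) ^ 2 / (2 * D) := by positivity
  linarith

/-- Expansion in the eigenbasis. -/
theorem expand (f g x P : Fin 3 → ℝ) (hP : ∑ i, P i * x i = 0)
    (hcomp : ∀ i j, f i * f j + g i * g j + x i * x j = if i = j then 1 else 0) (i : Fin 3) :
    P i = (∑ j, P j * f j) * f i + (∑ j, P j * g j) * g i := by
  have h : P i = ∑ j, (f i * f j + g i * g j + x i * x j) * P j := by simp [hcomp]
  rw [h]
  simp only [Fin.sum_univ_three] at hP ⊢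
  linear_combination x i * hP

/-- The density in the eigenbasis. -/
theorem coneDens_eq (x f g : Fin 3 → ℝ) (u v : ℝ) (U : Fin 3 → Fin 3 → ℝ) (N W : Fin 3 → ℝ)
    (hu : 0 < u) (hv : 0 < v) (hff : ∑ i, f i ^ 2 = 1) (hgg : ∑ i, g i ^ 2 = 1)
    (hfg : ∑ i, f i * g i = 0)
    (hcomp : ∀ i j, f i * f j + g i * g j + x i * x j = if i = j then 1 else 0)
    (hU : ∀ i j, U i j = u * (f i * f j) + v * (g i * g j))
    (hN : ∑ i, N i * x i = 0) (hW : ∑ i, W i * x i = 0) (l : ℝ) (hl : 0 ≤ l) :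
    coneDens U N W l =
      ((∑ j, N j * f j) + l * (∑ j, W j * f j)) ^ 2 / ((l + u) ^ 3 * (l + v)) +
      ((∑ j, N j * g j) + l * (∑ j, W j * g j)) ^ 2 / ((l + v) ^ 3 * (l + u)) := by
  have htr : mtr U = u + v := by
    have : mtr U = u * (∑ i, f i ^ 2) + v * (∑ i, g i ^ 2) := by
      simp only [mtr, Fin.sum_univ_three, hU]; ring
    rw [this, hff, hgg]; ring
  have hdet : mdet U = u * v := by
    have : ∑ i, ∑ j, U i j * U j i = u ^ 2 * (∑ i, f i ^ 2) ^ 2 + 2 * (u * v) *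
        (∑ i, f i * g i) ^ 2 + v ^ 2 * (∑ i, g i ^ 2) ^ 2 := by
      simp only [Fin.sum_univ_three, hU]; ring
    rw [mdet, this, htr, hff, hgg, hfg]; ring
  set n1 := ∑ j, N j * f j with hn1
  set n2 := ∑ j, N j * g j with hn2
  set w1 := ∑ j, W j * f j with hw1
  set w2 := ∑ j, W j * g j with hw2
  have hNe : ∀ i, N i = n1 * f i + n2 * g i := expand f g x N hN hcomp
  have hWe : ∀ i, W i = w1 * f i + w2 * g i := expand f g x W hW hcomp
  clear_value n1 n2 w1 w2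
  have hnum : ∑ i, ((l + mtr U) * (N i + l * W i) - ∑ j, U i j * (N j + l * W j)) ^ 2
      = (l + v) ^ 2 * (n1 + l * w1) ^ 2 + (l + u) ^ 2 * (n2 + l * w2) ^ 2 := by
    have hin : ∀ i, (l + mtr U) * (N i + l * W i) - ∑ j, U i j * (N j + l * W j)
        = (l + v) * (n1 + l * w1) * f i + (l + u) * (n2 + l * w2) * g i := by
      intro i
      have : ∑ j, U i j * (N j + l * W j) = u * f i * ((n1 + l * w1) * (∑ j, f j ^ 2)
          + (n2 + l * w2) * (∑ j, f j * g j)) + v * g i * ((n1 + l * w1) * (∑ j, f j * g j)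
          + (n2 + l * w2) * (∑ j, g j ^ 2)) := by
        simp only [Fin.sum_univ_three, hU, hNe, hWe]; ring
      rw [this, hff, hgg, hfg, htr, hNe, hWe]; ring
    have : ∑ i, ((l + mtr U) * (N i + l * W i) - ∑ j, U i j * (N j + l * W j)) ^ 2
        = (l + v) ^ 2 * (n1 + l * w1) ^ 2 * (∑ i, f i ^ 2)
          + 2 * ((l + v) * (n1 + l * w1) * ((l + u) * (n2 + l * w2))) * (∑ i, f i * g i)
          + (l + u) ^ 2 * (n2 + l * w2) ^ 2 * (∑ i, g i ^ 2) := by
      rw [Finset.sum_congr rfl (fun i _ => by rw [hin i])]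
      simp only [Fin.sum_univ_three]; ring
    rw [this, hff, hgg, hfg]; ring
  have h1 : 0 < l + u := by linarith
  have h2 : 0 < l + v := by linarith
  rw [coneDens, hnum, htr, hdet]
  have hden : l ^ 2 + l * (u + v) + u * v = (l + u) * (l + v) := by ring
  rw [hden]
  field_simp

/-- The integrands are integrable. -/
theorem integrable_term (u v n w s : ℝ) (hu : 0 < u) (hv : 0 < v) (hs : 0 ≤ s) :
    IntervalIntegrable (fun l : ℝ => (n + l * w) ^ 2 / ((l + u) ^ 3 * (l + v))) volume 0 s := by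
  apply ContinuousOn.intervalIntegrable
  rw [Set.uIcc_of_le hs]
  apply ContinuousOn.div
  · fun_prop
  · fun_prop
  · intro l hl
    have h1 : 0 < l + u := by linarith [hl.1]
    have h2 : 0 < l + v := by linarith [hl.1]
    positivity

/-- **The bound at a point.** -/
theorem Pointwise (hE : Scalar_Stmt) : Pointwise_Stmt := by
  intro x U N W a R hPM hN hW ha hR ε hε
  obtain ⟨f, g, u, v, hu, hv, hff, hgg, hfg, hfx, hgx, hcomp, hU⟩ := exists_eigenbasis x U hPM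
  set n1 := ∑ j, N j * f j with hn1
  set n2 := ∑ j, N j * g j with hn2
  set w1 := ∑ j, W j * f j with hw1
  set w2 := ∑ j, W j * g j with hw2
  obtain ⟨s1, hs1, hb1⟩ := hE u v n1 w1 hu hv (ε / 4) (by linarith)
  obtain ⟨s2, hs2, hb2⟩ := hE v u n2 w2 hv hu (ε / 4) (by linarith)
  refine ⟨max s1 s2, le_max_of_le_left hs1, fun s hs => ?_⟩
  have hss1 := hb1 s (le_trans (le_max_left _ _) hs)
  have hss2 := hb2 s (le_trans (le_max_right _ _) hs)
  have hs0 : 0 ≤ s := le_trans (le_max_of_le_left hs1) hs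
  have hint : ∫ l in (0 : ℝ)..s, coneDens U N W l
      = (∫ l in (0 : ℝ)..s, (n1 + l * w1) ^ 2 / ((l + u) ^ 3 * (l + v)))
        + ∫ l in (0 : ℝ)..s, (n2 + l * w2) ^ 2 / ((l + v) ^ 3 * (l + u)) := by
    rw [← intervalIntegral.integral_add (integrable_term u v n1 w1 s hu hv hs0)
      (integrable_term v u n2 w2 s hv hu hs0)]
    apply intervalIntegral.integral_congr
    intro l hl
    rw [Set.uIcc_of_le hs0] at hl
    exact coneDens_eq x f g u v U N W hu hv hff hgg hfg hcomp hU hN hW l hl.1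
  rw [hint]
  have htr : mtr U = u + v := by
    have : mtr U = u * (∑ i, f i ^ 2) + v * (∑ i, g i ^ 2) := by
      simp only [mtr, Fin.sum_univ_three, hU]; ring
    rw [this, hff, hgg]; ring
  have hWe : ∀ i, W i = w1 * f i + w2 * g i := expand f g x W hW hcomp
  set a1 := ∑ j, a j * f j with ha1
  set a2 := ∑ j, a j * g j with ha2
  have hae : ∀ i, a i = a1 * f i + a2 * g i := expand f g x a ha hcomp
  clear_value a1 a2 w1 w2 n1 n2
  have haW : ∑ i, a i * W i = a1 * w1 + a2 * w2 := by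
    have : ∑ i, a i * W i = a1 * w1 * (∑ i, f i ^ 2) + (a1 * w2 + a2 * w1) * (∑ i, f i * g i)
        + a2 * w2 * (∑ i, g i ^ 2) := by
      simp only [Fin.sum_univ_three, hae, hWe]; ring
    rw [this, hff, hgg, hfg]; ring
  have haa : ∑ i, a i ^ 2 = a1 ^ 2 + a2 ^ 2 := by
    have : ∑ i, a i ^ 2 = a1 ^ 2 * (∑ i, f i ^ 2) + 2 * (a1 * a2) * (∑ i, f i * g i)
        + a2 ^ 2 * (∑ i, g i ^ 2) := by
      simp only [Fin.sum_univ_three, hae]; ring
    rw [this, hff, hgg, hfg]; ring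
  have hUaa : ∑ i, ∑ j, U i j * a i * a j = u * a1 ^ 2 + v * a2 ^ 2 := by
    have : ∑ i, ∑ j, U i j * a i * a j = u * (a1 * (∑ i, f i ^ 2) + a2 * (∑ i, f i * g i)) ^ 2
        + v * (a1 * (∑ i, f i * g i) + a2 * (∑ i, g i ^ 2)) ^ 2 := by
      simp only [Fin.sum_univ_three, hae, hU]; ring
    rw [this, hff, hgg, hfg]; ring
  have k1 := amgm (3 * u + v) w1 a1 R (by positivity) hR
  have k2 := amgm (3 * v + u) w2 a2 R (by positivity) hR
  rw [haW, haa, hUaa, htr]
  have e : (2 / R) * (a1 * w1 + a2 * w2)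
      - (1 / R ^ 2) * ((u * a1 ^ 2 + v * a2 ^ 2) + ((u + v) / 2) * (a1 ^ 2 + a2 ^ 2))
      = ((2 / R) * (a1 * w1) - (1 / R ^ 2) * ((3 * u + v) / 2 * a1 ^ 2))
        + ((2 / R) * (a2 * w2) - (1 / R ^ 2) * ((3 * v + u) / 2 * a2 ^ 2)) := by ring
  rw [e]
  linarith

end Pool.Agent.NullCone
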