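import Pool.Agent.NullCone.Stmts

/-! # The one dimensional integral -/

open MeasureTheory Filter Topology

namespace Pool.Agent.NullCone

/-- The primitive of the lower bound. -/
noncomputable def scF (u v n w c l : ℝ) : ℝ :=
  2 * c * (n * (-(2 * l * u / (l + u) ^ 3)) + w * (-(2 * l ^ 2 * u / (l + u) ^ 3) +
    l ^ 2 / (l + u) ^ 2)) - c ^ 2 * (4 * u ^ 2 * (-(4 / (l + u)) -
    (2 * v - 8 * u) / (l + u) ^ 2 - (7 * u ^ 2 - 4 * u * v) / (l + u) ^ 3 -
    9 * u ^ 2 * (v - u) / (4 * (l + u) ^ 4)))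

/-- The lower bound for the integrand. -/
noncomputable def scf (u v n w c l : ℝ) : ℝ :=
  2 * c * (2 * u * (2 * l - u) / (l + u) ^ 4) * (n + l * w) -
    c ^ 2 * (2 * u * (2 * l - u) / (l + u) ^ 4) ^ 2 * ((l + u) ^ 3 * (l + v))

theorem hasDerivAt_scF (u v n w c l : ℝ) (hl : 0 < l + u) :
    HasDerivAt (scF u v n w c) (scf u v n w c l) l := by
  have h0 : l + u ≠ 0 := hl.ne'
  have hlu : HasDerivAt (fun l : ℝ => l + u) 1 l := (hasDerivAt_id l).add_const u
  have hl1 : HasDerivAt (fun l : ℝ => l) 1 l := hasDerivAt_id l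
  have h1 : HasDerivAt (fun l : ℝ => 2 * l * u / (l + u) ^ 3)
      (2 * u * (u - 2 * l) / (l + u) ^ 4) l := by
    have := ((hl1.const_mul 2).mul_const u).div (hlu.pow 3) (pow_ne_zero 3 h0)
    refine this.congr_deriv ?_
    simp only [Pi.pow_apply]
    push_cast
    field_simp
    ring
  have h2 : HasDerivAt (fun l : ℝ => 2 * l ^ 2 * u / (l + u) ^ 3)
      ((4 * l * u * (l + u) - 6 * l ^ 2 * u) / (l + u) ^ 4) l := by
    have := (((hl1.pow 2).const_mul 2).mul_const u).div (hlu.pow 3) (pow_ne_zero 3 h0)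
    refine this.congr_deriv ?_
    simp only [Pi.pow_apply]
    push_cast
    field_simp
    ring
  have h3 : HasDerivAt (fun l : ℝ => l ^ 2 / (l + u) ^ 2) (2 * l * u / (l + u) ^ 3) l := by
    have := (hl1.pow 2).div (hlu.pow 2) (pow_ne_zero 2 h0)
    refine this.congr_deriv ?_
    simp only [Pi.pow_apply]
    push_cast
    field_simp
    ring
  have h4 : HasDerivAt (fun l : ℝ => 4 / (l + u)) (-(4 / (l + u) ^ 2)) l := by
    have := (hasDerivAt_const l (4 : ℝ)).div hlu h0
    refine this.congr_deriv ?_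
    field_simp
    ring
  have h5 : HasDerivAt (fun l : ℝ => (2 * v - 8 * u) / (l + u) ^ 2)
      (-(2 * (2 * v - 8 * u) / (l + u) ^ 3)) l := by
    have := (hasDerivAt_const l (2 * v - 8 * u)).div (hlu.pow 2) (pow_ne_zero 2 h0)
    refine this.congr_deriv ?_
    simp only [Pi.pow_apply]
    push_cast
    field_simp
    ring
  have h6 : HasDerivAt (fun l : ℝ => (7 * u ^ 2 - 4 * u * v) / (l + u) ^ 3)
      (-(3 * (7 * u ^ 2 - 4 * u * v) / (l + u) ^ 4)) l := by
    have := (hasDerivAt_const l (7 * u ^ 2 - 4 * u * v)).div (hlu.pow 3) (pow_ne_zero 3 h0)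
    refine this.congr_deriv ?_
    simp only [Pi.pow_apply]
    push_cast
    field_simp
    ring
  have h7 : HasDerivAt (fun l : ℝ => 9 * u ^ 2 * (v - u) / (4 * (l + u) ^ 4))
      (-(9 * u ^ 2 * (v - u) / (l + u) ^ 5)) l := by
    have := (hasDerivAt_const l (9 * u ^ 2 * (v - u))).div ((hlu.pow 4).const_mul 4)
      (mul_ne_zero (by norm_num) (pow_ne_zero 4 h0))
    refine this.congr_deriv ?_
    simp only [Pi.pow_apply]
    push_cast
    field_simp
    ring
  have h8 := (((h1.neg.const_mul n).add ((h2.neg.add h3).const_mul w)).const_mul (2 * c)).sub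
    (((((h4.neg.sub h5).sub h6).sub h7).const_mul (4 * u ^ 2)).const_mul (c ^ 2))
  refine h8.congr_deriv ?_
  unfold scf
  field_simp
  ring

theorem scF_zero (u v n w c : ℝ) (hu : 0 < u) : scF u v n w c 0 = c ^ 2 * (3 * u + v) := by
  unfold scF
  have : u ≠ 0 := hu.ne'
  field_simp
  ring

theorem tendsto_scF (u v n w c : ℝ) (hu : 0 < u) :
    Tendsto (scF u v n w c) atTop (𝓝 (2 * c * w)) := by
  have hlu : Tendsto (fun l : ℝ => l + u) atTop atTop := tendsto_atTop_add_const_right _ _ tendsto_id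
  have hinv : Tendsto (fun l : ℝ => (l + u)⁻¹) atTop (𝓝 0) := hlu.inv_tendsto_atTop
  have key : ∀ᶠ l in atTop, scF u v n w c l =
      2 * c * (n * (-(2 * u * (1 - u * (l + u)⁻¹) * (l + u)⁻¹ ^ 2)) +
        w * (-(2 * u * (1 - u * (l + u)⁻¹) ^ 2 * (l + u)⁻¹) + (1 - u * (l + u)⁻¹) ^ 2)) -
      c ^ 2 * (4 * u ^ 2 * (-(4 * (l + u)⁻¹) - (2 * v - 8 * u) * (l + u)⁻¹ ^ 2 -
        (7 * u ^ 2 - 4 * u * v) * (l + u)⁻¹ ^ 3 -
        9 * u ^ 2 * (v - u) / 4 * (l + u)⁻¹ ^ 4)) := by
    filter_upwards [eventually_gt_atTop 0] with l hl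
    have h0 : l + u ≠ 0 := by positivity
    unfold scF
    field_simp
    ring
  refine Tendsto.congr' (EventuallyEq.symm key) ?_
  have hcont : Continuous fun t : ℝ =>
      2 * c * (n * (-(2 * u * (1 - u * t) * t ^ 2)) +
        w * (-(2 * u * (1 - u * t) ^ 2 * t) + (1 - u * t) ^ 2)) -
      c ^ 2 * (4 * u ^ 2 * (-(4 * t) - (2 * v - 8 * u) * t ^ 2 -
        (7 * u ^ 2 - 4 * u * v) * t ^ 3 - 9 * u ^ 2 * (v - u) / 4 * t ^ 4)) := by
    fun_prop
  have h := (hcont.tendsto 0).comp hinv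
  simp only [Function.comp_def] at h
  convert h using 2
  ring

theorem Scalar : Scalar_Stmt := by
  intro u v n w hu hv ε hε
  set c := w / (3 * u + v) with hc
  have h3 : 0 < 3 * u + v := by positivity
  have hlim : Tendsto (fun s => scF u v n w c s - scF u v n w c 0) atTop
      (𝓝 (w ^ 2 / (3 * u + v))) := by
    have := (tendsto_scF u v n w c hu).sub_const (scF u v n w c 0)
    have e : 2 * c * w - scF u v n w c 0 = w ^ 2 / (3 * u + v) := by
      rw [scF_zero u v n w c hu, hc]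
      field_simp
      ring
    rwa [e] at this
  have hev := (hlim.eventually (lt_mem_nhds (sub_lt_self _ hε))).and (eventually_ge_atTop 0)
  obtain ⟨s₀, hs₀⟩ := eventually_atTop.1 hev
  refine ⟨max s₀ 0, le_max_right _ _, fun s hs => ?_⟩
  obtain ⟨h1, h2⟩ := hs₀ s ((le_max_left _ _).trans hs)
  refine h1.le.trans ?_
  have hpos : ∀ l ∈ Set.uIcc 0 s, 0 ≤ l := fun l hl => by
    rw [Set.uIcc_of_le h2] at hl
    exact hl.1
  have hcont1 : ContinuousOn (scf u v n w c) (Set.uIcc 0 s) := by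
    unfold scf
    have : ∀ l ∈ Set.uIcc 0 s, (l + u) ^ 4 ≠ 0 := fun l hl => by
      have := hpos l hl
      positivity
    fun_prop (disch := assumption)
  have hcont2 : ContinuousOn (fun l => (n + l * w) ^ 2 / ((l + u) ^ 3 * (l + v)))
      (Set.uIcc 0 s) := by
    have : ∀ l ∈ Set.uIcc 0 s, (l + u) ^ 3 * (l + v) ≠ 0 := fun l hl => by
      have := hpos l hl
      positivity
    fun_prop (disch := assumption)
  have hint : ∫ l in (0 : ℝ)..s, scf u v n w c l = scF u v n w c s - scF u v n w c 0 :=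
    intervalIntegral.integral_eq_sub_of_hasDerivAt
      (fun l hl => hasDerivAt_scF u v n w c l (by have := hpos l hl; positivity))
      hcont1.intervalIntegrable
  rw [← hint]
  refine intervalIntegral.integral_mono_on h2 hcont1.intervalIntegrable
    hcont2.intervalIntegrable fun l hl => ?_
  have hl0 : 0 ≤ l := hl.1
  have hp : 0 < (l + u) ^ 3 * (l + v) := by positivity
  rw [le_div_iff₀ hp]
  unfold scf
  set b := 2 * u * (2 * l - u) / (l + u) ^ 4
  set P := (l + u) ^ 3 * (l + v)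
  nlinarith [sq_nonneg ((n + l * w) - c * b * P)]

end Pool.Agent.NullCone
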