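import Pool.Agent.NullCone.Stmts

/-! # The optical equation -/

open Filter Topology

namespace Pool.Agent.NullCone

open Pool.Agent.NullShell

/-! ## Scalar lemmas -/

theorem solve_const {f : ℝ → ℝ} (h : ∀ s, 0 ≤ s → HasDerivWithinAt f 0 (Set.Ici 0) s) :
    ∀ s, 0 ≤ s → f s = f 0 := by
  intro s hs
  have h1 := Convex.norm_image_sub_le_of_norm_hasDerivWithin_le (f := f) (f' := fun _ => (0 : ℝ))
    (s := Set.Ici (0 : ℝ)) (C := 0) (x := 0) (y := s) (fun x hx => h x hx) (fun x _ => by simp)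
    (convex_Ici 0) (Set.mem_Ici.2 le_rfl) (Set.mem_Ici.2 hs)
  have h2 : ‖f s - f 0‖ ≤ 0 := by simpa using h1
  have h3 := norm_le_zero_iff.1 h2
  linarith

theorem solve_affine {f : ℝ → ℝ} {k : ℝ}
    (h : ∀ s, 0 ≤ s → HasDerivWithinAt f k (Set.Ici 0) s) :
    ∀ s, 0 ≤ s → f s = f 0 + k * s := by
  intro s hs
  have h1 := solve_const (f := fun r => f r - k * r) (fun r hr => by
    have h2 := (h r hr).sub ((hasDerivWithinAt_id r (Set.Ici 0)).const_mul k)
    have h3 : k - k * 1 = 0 := by ring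
    rw [h3] at h2
    exact h2) s hs
  simp only [mul_zero, sub_zero] at h1
  linarith

theorem solve_quad {f : ℝ → ℝ} {k l : ℝ}
    (h : ∀ s, 0 ≤ s → HasDerivWithinAt f (2 * (l + k * s)) (Set.Ici 0) s) :
    ∀ s, 0 ≤ s → f s = f 0 + 2 * l * s + k * s ^ 2 := by
  intro s hs
  have h1 := solve_const (f := fun r => f r - (2 * l * r + k * r ^ 2)) (fun r hr => by
    have h2 := (h r hr).sub (((hasDerivWithinAt_id r (Set.Ici 0)).const_mul (2 * l)).add
      (((hasDerivWithinAt_id r (Set.Ici 0)).pow 2).const_mul k))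
    have h3 : 2 * (l + k * r) - (2 * l * 1 + k * (((2 : ℕ) : ℝ) * (id r) ^ (2 - 1) * 1)) = 0 := by
      simp; ring
    rw [h3] at h2
    exact h2) s hs
  linarith [h1]

theorem solve_lim {f : ℝ → ℝ} {a l k c : ℝ} (h : ∀ s, 0 ≤ s → f s = a + 2 * l * s + k * s ^ 2)
    (hc : Tendsto (fun s => f s / s ^ 2) atTop (𝓝 c)) : k = c := by
  have h1 : Tendsto (fun s : ℝ => a * (s⁻¹ * s⁻¹) + 2 * l * s⁻¹ + k) atTop
      (𝓝 (a * (0 * 0) + 2 * l * 0 + k)) := by
    have h0 := tendsto_inv_atTop_zero (𝕜 := ℝ)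
    exact (((h0.mul h0).const_mul a).add (h0.const_mul (2 * l))).add_const k
  have h2 : (fun s : ℝ => f s / s ^ 2) =ᶠ[atTop] fun s => a * (s⁻¹ * s⁻¹) + 2 * l * s⁻¹ + k := by
    filter_upwards [eventually_gt_atTop 0] with s hs
    rw [h s hs.le]
    field_simp
  have h3 := tendsto_nhds_unique (hc.congr' h2) h1
  rw [h3]; ring

/-! ## The optical equation for 2 × 2 matrices -/

theorem solve_two (g1 g2 g3 c1 c2 c3 : ℝ → ℝ)
    (hD : ∀ s, 0 ≤ s → 0 < g1 s * g3 s - g2 s ^ 2)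
    (d1 : ∀ s, 0 ≤ s → HasDerivWithinAt g1 (2 * c1 s) (Set.Ici 0) s)
    (d2 : ∀ s, 0 ≤ s → HasDerivWithinAt g2 (2 * c2 s) (Set.Ici 0) s)
    (d3 : ∀ s, 0 ≤ s → HasDerivWithinAt g3 (2 * c3 s) (Set.Ici 0) s)
    (e1 : ∀ s, 0 ≤ s → HasDerivWithinAt c1
      ((c1 s ^ 2 * g3 s - 2 * c1 s * c2 s * g2 s + c2 s ^ 2 * g1 s) / (g1 s * g3 s - g2 s ^ 2))
      (Set.Ici 0) s)
    (e2 : ∀ s, 0 ≤ s → HasDerivWithinAt c2
      ((c1 s * c2 s * g3 s - (c1 s * c3 s + c2 s ^ 2) * g2 s + c2 s * c3 s * g1 s) /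
        (g1 s * g3 s - g2 s ^ 2)) (Set.Ici 0) s)
    (e3 : ∀ s, 0 ≤ s → HasDerivWithinAt c3
      ((c2 s ^ 2 * g3 s - 2 * c2 s * c3 s * g2 s + c3 s ^ 2 * g1 s) / (g1 s * g3 s - g2 s ^ 2))
      (Set.Ici 0) s)
    (a1 : Tendsto (fun s => g1 s / s ^ 2) atTop (𝓝 1))
    (a2 : Tendsto (fun s => g2 s / s ^ 2) atTop (𝓝 0))
    (a3 : Tendsto (fun s => g3 s / s ^ 2) atTop (𝓝 1)) :
    (∀ s, 0 ≤ s → c1 s = s + c1 0 ∧ c2 s = c2 0 ∧ c3 s = s + c3 0 ∧
      g1 s = c1 s ^ 2 + c2 s ^ 2 ∧ g2 s = c2 s * (c1 s + c3 s) ∧ g3 s = c2 s ^ 2 + c3 s ^ 2) ∧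
    0 < c1 0 ∧ 0 < c3 0 ∧ 0 < c1 0 * c3 0 - c2 0 ^ 2 := by
  -- derivative of the determinant
  have dD : ∀ s, 0 ≤ s → HasDerivWithinAt (fun r => g1 r * g3 r - g2 r ^ 2)
      (2 * c1 s * g3 s + g1 s * (2 * c3 s) - 2 * g2 s * (2 * c2 s)) (Set.Ici 0) s := by
    intro s hs
    refine (((d1 s hs).fun_mul (d3 s hs)).fun_sub ((d2 s hs).fun_pow 2)).congr_deriv ?_
    simp
  -- first numerator
  have k1 : ∀ s, 0 ≤ s → HasDerivWithinAt (fun s =>
      (c1 s ^ 2 * g3 s - 2 * c1 s * c2 s * g2 s + c2 s ^ 2 * g1 s) / (g1 s * g3 s - g2 s ^ 2))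
      0 (Set.Ici 0) s := by
    intro s hs
    have hd := (hD s hs).ne'
    refine ((((((e1 s hs).fun_pow 2).fun_mul (d3 s hs)).fun_sub
      ((((e1 s hs).const_mul 2).fun_mul (e2 s hs)).fun_mul (d2 s hs))).fun_add
      (((e2 s hs).fun_pow 2).fun_mul (d1 s hs))).fun_div (dD s hs) hd).congr_deriv ?_
    have y1 := div_mul_cancel₀ (c1 s ^ 2 * g3 s - 2 * c1 s * c2 s * g2 s + c2 s ^ 2 * g1 s) hd
    have y2 := div_mul_cancel₀
      (c1 s * c2 s * g3 s - (c1 s * c3 s + c2 s ^ 2) * g2 s + c2 s * c3 s * g1 s) hd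
    have y3 := div_mul_cancel₀ (c2 s ^ 2 * g3 s - 2 * c2 s * c3 s * g2 s + c3 s ^ 2 * g1 s) hd
    generalize (c1 s ^ 2 * g3 s - 2 * c1 s * c2 s * g2 s + c2 s ^ 2 * g1 s) /
      (g1 s * g3 s - g2 s ^ 2) = z1 at *
    generalize (c1 s * c2 s * g3 s - (c1 s * c3 s + c2 s ^ 2) * g2 s + c2 s * c3 s * g1 s) /
      (g1 s * g3 s - g2 s ^ 2) = z2 at *
    generalize (c2 s ^ 2 * g3 s - 2 * c2 s * c3 s * g2 s + c3 s ^ 2 * g1 s) /
      (g1 s * g3 s - g2 s ^ 2) = z3 at *
    rw [div_eq_zero_iff]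
    left
    simp only [Nat.cast_ofNat, Nat.add_one_sub_one, pow_one]
    linear_combination (2 * c1 s * g3 s - 2 * c2 s * g2 s) * y1 +
      (2 * c2 s * g1 s - 2 * c1 s * g2 s) * y2
  have k2 : ∀ s, 0 ≤ s → HasDerivWithinAt (fun s =>
      (c1 s * c2 s * g3 s - (c1 s * c3 s + c2 s ^ 2) * g2 s + c2 s * c3 s * g1 s) /
        (g1 s * g3 s - g2 s ^ 2))
      0 (Set.Ici 0) s := by
    intro s hs
    have hd := (hD s hs).ne'
    refine ((((((e1 s hs).fun_mul (e2 s hs)).fun_mul (d3 s hs)).fun_sub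
      ((((e1 s hs).fun_mul (e3 s hs)).fun_add ((e2 s hs).fun_pow 2)).fun_mul (d2 s hs))).fun_add
      (((e2 s hs).fun_mul (e3 s hs)).fun_mul (d1 s hs))).fun_div (dD s hs) hd).congr_deriv ?_
    have y1 := div_mul_cancel₀ (c1 s ^ 2 * g3 s - 2 * c1 s * c2 s * g2 s + c2 s ^ 2 * g1 s) hd
    have y2 := div_mul_cancel₀
      (c1 s * c2 s * g3 s - (c1 s * c3 s + c2 s ^ 2) * g2 s + c2 s * c3 s * g1 s) hd
    have y3 := div_mul_cancel₀ (c2 s ^ 2 * g3 s - 2 * c2 s * c3 s * g2 s + c3 s ^ 2 * g1 s) hd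
    generalize (c1 s ^ 2 * g3 s - 2 * c1 s * c2 s * g2 s + c2 s ^ 2 * g1 s) /
      (g1 s * g3 s - g2 s ^ 2) = z1 at *
    generalize (c1 s * c2 s * g3 s - (c1 s * c3 s + c2 s ^ 2) * g2 s + c2 s * c3 s * g1 s) /
      (g1 s * g3 s - g2 s ^ 2) = z2 at *
    generalize (c2 s ^ 2 * g3 s - 2 * c2 s * c3 s * g2 s + c3 s ^ 2 * g1 s) /
      (g1 s * g3 s - g2 s ^ 2) = z3 at *
    rw [div_eq_zero_iff]
    left
    simp only [Nat.cast_ofNat, Nat.add_one_sub_one, pow_one]
    linear_combination (c2 s * g3 s - c3 s * g2 s) * y1 +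
      (c1 s * g3 s - 2 * c2 s * g2 s + c3 s * g1 s) * y2 + (c2 s * g1 s - c1 s * g2 s) * y3
  have k3 : ∀ s, 0 ≤ s → HasDerivWithinAt (fun s =>
      (c2 s ^ 2 * g3 s - 2 * c2 s * c3 s * g2 s + c3 s ^ 2 * g1 s) / (g1 s * g3 s - g2 s ^ 2))
      0 (Set.Ici 0) s := by
    intro s hs
    have hd := (hD s hs).ne'
    refine ((((((e2 s hs).fun_pow 2).fun_mul (d3 s hs)).fun_sub
      ((((e2 s hs).const_mul 2).fun_mul (e3 s hs)).fun_mul (d2 s hs))).fun_add
      (((e3 s hs).fun_pow 2).fun_mul (d1 s hs))).fun_div (dD s hs) hd).congr_deriv ?_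
    have y1 := div_mul_cancel₀ (c1 s ^ 2 * g3 s - 2 * c1 s * c2 s * g2 s + c2 s ^ 2 * g1 s) hd
    have y2 := div_mul_cancel₀
      (c1 s * c2 s * g3 s - (c1 s * c3 s + c2 s ^ 2) * g2 s + c2 s * c3 s * g1 s) hd
    have y3 := div_mul_cancel₀ (c2 s ^ 2 * g3 s - 2 * c2 s * c3 s * g2 s + c3 s ^ 2 * g1 s) hd
    generalize (c1 s ^ 2 * g3 s - 2 * c1 s * c2 s * g2 s + c2 s ^ 2 * g1 s) /
      (g1 s * g3 s - g2 s ^ 2) = z1 at *
    generalize (c1 s * c2 s * g3 s - (c1 s * c3 s + c2 s ^ 2) * g2 s + c2 s * c3 s * g1 s) /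
      (g1 s * g3 s - g2 s ^ 2) = z2 at *
    generalize (c2 s ^ 2 * g3 s - 2 * c2 s * c3 s * g2 s + c3 s ^ 2 * g1 s) /
      (g1 s * g3 s - g2 s ^ 2) = z3 at *
    rw [div_eq_zero_iff]
    left
    simp only [Nat.cast_ofNat, Nat.add_one_sub_one, pow_one]
    linear_combination (2 * c2 s * g3 s - 2 * c3 s * g2 s) * y2 +
      (2 * c3 s * g1 s - 2 * c2 s * g2 s) * y3
  have q1 := solve_const k1
  have q2 := solve_const k2
  have q3 := solve_const k3
  generalize (c1 0 ^ 2 * g3 0 - 2 * c1 0 * c2 0 * g2 0 + c2 0 ^ 2 * g1 0) /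
    (g1 0 * g3 0 - g2 0 ^ 2) = m1 at q1
  generalize (c1 0 * c2 0 * g3 0 - (c1 0 * c3 0 + c2 0 ^ 2) * g2 0 + c2 0 * c3 0 * g1 0) /
        (g1 0 * g3 0 - g2 0 ^ 2) = m2 at q2
  generalize (c2 0 ^ 2 * g3 0 - 2 * c2 0 * c3 0 * g2 0 + c3 0 ^ 2 * g1 0) /
    (g1 0 * g3 0 - g2 0 ^ 2) = m3 at q3
  have l1 := solve_affine (f := c1) (k := m1) (fun s hs => by rw [← q1 s hs]; exact e1 s hs)
  have l2 := solve_affine (f := c2) (k := m2) (fun s hs => by rw [← q2 s hs]; exact e2 s hs)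
  have l3 := solve_affine (f := c3) (k := m3) (fun s hs => by rw [← q3 s hs]; exact e3 s hs)
  have n1 := solve_quad (f := g1) (k := m1) (l := c1 0) (fun s hs => by
    rw [← l1 s hs]; exact d1 s hs)
  have n2 := solve_quad (f := g2) (k := m2) (l := c2 0) (fun s hs => by
    rw [← l2 s hs]; exact d2 s hs)
  have n3 := solve_quad (f := g3) (k := m3) (l := c3 0) (fun s hs => by
    rw [← l3 s hs]; exact d3 s hs)
  have p1 : m1 = 1 := solve_lim n1 a1
  have p2 : m2 = 0 := solve_lim n2 a2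
  have p3 : m3 = 1 := solve_lim n3 a3
  subst p1 p2 p3
  -- algebra
  have alg : ∀ s, 0 ≤ s → (c1 s * c3 s - c2 s ^ 2) ^ 2 = g1 s * g3 s - g2 s ^ 2 ∧
      g1 s = c1 s ^ 2 + c2 s ^ 2 ∧ g2 s = c2 s * (c1 s + c3 s) ∧
      g3 s = c2 s ^ 2 + c3 s ^ 2 := by
    intro s hs
    have hd := (hD s hs).ne'
    have r1 := q1 s hs
    have r2 := q2 s hs
    have r3 := q3 s hs
    rw [div_eq_iff hd] at r1 r2 r3
    rw [one_mul] at r1 r3
    rw [zero_mul] at r2
    generalize c1 s = a at *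
    generalize c2 s = b at *
    generalize c3 s = c at *
    generalize g1 s = p at *
    generalize g2 s = q at *
    generalize g3 s = r at *
    have h1 : (a * c - b ^ 2) ^ 2 = p * r - q ^ 2 := by
      have : (p * r - q ^ 2) * ((a * c - b ^ 2) ^ 2 - (p * r - q ^ 2)) = 0 := by
        have hx : (a ^ 2 * r - 2 * a * b * q + b ^ 2 * p) *
          (b ^ 2 * r - 2 * b * c * q + c ^ 2 * p) -
          (a * b * r - (a * c + b ^ 2) * q + b * c * p) ^ 2 =
          (p * r - q ^ 2) * (a * c - b ^ 2) ^ 2 := by ring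
        rw [r1, r2, r3] at hx
        linear_combination -hx
      rcases mul_eq_zero.1 this with h | h
      · exact absurd h hd
      · linarith
    refine ⟨h1, ?_, ?_, ?_⟩
    · have : (p * r - q ^ 2) * (p - (a ^ 2 + b ^ 2)) = 0 := by
        rw [← h1]
        have hx : b ^ 2 * (a ^ 2 * r - 2 * a * b * q + b ^ 2 * p) -
          2 * a * b * (a * b * r - (a * c + b ^ 2) * q + b * c * p) +
          a ^ 2 * (b ^ 2 * r - 2 * b * c * q + c ^ 2 * p) = (a * c - b ^ 2) ^ 2 * p := by ring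
        rw [r1, r2, r3, ← h1] at hx
        linear_combination -hx
      rcases mul_eq_zero.1 this with h | h
      · exact absurd h hd
      · linarith
    · have : (p * r - q ^ 2) * (q - b * (a + c)) = 0 := by
        rw [← h1]
        have hx : (b * c) * (a ^ 2 * r - 2 * a * b * q + b ^ 2 * p) -
          (a * c + b ^ 2) * (a * b * r - (a * c + b ^ 2) * q + b * c * p) +
          a * b * (b ^ 2 * r - 2 * b * c * q + c ^ 2 * p) = (a * c - b ^ 2) ^ 2 * q := by ring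
        rw [r1, r2, r3, ← h1] at hx
        linear_combination -hx
      rcases mul_eq_zero.1 this with h | h
      · exact absurd h hd
      · linarith
    · have : (p * r - q ^ 2) * (r - (b ^ 2 + c ^ 2)) = 0 := by
        rw [← h1]
        have hx : c ^ 2 * (a ^ 2 * r - 2 * a * b * q + b ^ 2 * p) -
          2 * b * c * (a * b * r - (a * c + b ^ 2) * q + b * c * p) +
          b ^ 2 * (b ^ 2 * r - 2 * b * c * q + c ^ 2 * p) = (a * c - b ^ 2) ^ 2 * r := by ring
        rw [r1, r2, r3, ← h1] at hx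
        linear_combination -hx
      rcases mul_eq_zero.1 this with h | h
      · exact absurd h hd
      · linarith
  have key : 0 < c1 0 + c3 0 ∧ 0 < c1 0 * c3 0 - c2 0 ^ 2 := by
    set a := c1 0
    set b := c2 0
    set c := c3 0
    set t := Real.sqrt ((a - c) ^ 2 + 4 * b ^ 2) with ht
    have ht0 : 0 ≤ t := Real.sqrt_nonneg _
    have ht2 : t ^ 2 = (a - c) ^ 2 + 4 * b ^ 2 := Real.sq_sqrt (by positivity)
    have hl : t < a + c := by
      by_contra hcon
      have hs : 0 ≤ (t - (a + c)) / 2 := by linarith [not_lt.1 hcon]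
      have h1 := (alg _ hs).1
      have h2 := hD _ hs
      rw [← h1, l1 _ hs, l2 _ hs, l3 _ hs] at h2
      have h3 : (c1 0 + 1 * ((t - (a + c)) / 2)) * (c3 0 + 1 * ((t - (a + c)) / 2)) -
        (c2 0 + 0 * ((t - (a + c)) / 2)) ^ 2 = 0 := by
        change (a + 1 * ((t - (a + c)) / 2)) * (c + 1 * ((t - (a + c)) / 2)) -
          (b + 0 * ((t - (a + c)) / 2)) ^ 2 = 0
        linear_combination (1 / 4) * ht2
      rw [h3] at h2
      norm_num at h2
    constructor
    · linarith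
    · nlinarith
  refine ⟨fun s hs => ⟨?_, ?_, ?_, (alg s hs).2⟩, ?_, ?_, key.2⟩
  · rw [l1 s hs]; ring
  · rw [l2 s hs]; ring
  · rw [l3 s hs]; ring
  · by_contra hcon
    have h1 := not_lt.1 hcon
    have h2 : 0 < c3 0 := by linarith [key.1]
    nlinarith [key.2, mul_nonneg_of_nonpos_of_nonpos h1 (neg_nonpos.2 h2.le), sq_nonneg (c2 0)]
  · by_contra hcon
    have h1 := not_lt.1 hcon
    have h2 : 0 < c1 0 := by linarith [key.1]
    nlinarith [key.2, mul_nonneg_of_nonpos_of_nonpos h1 (neg_nonpos.2 h2.le), sq_nonneg (c2 0)]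

/-! ## Frames -/

theorem solve_frame (x : Fin 3 → ℝ) (hx : ∑ i, x i ^ 2 = 1) :
    ∃ H : Matrix (Fin 3) (Fin 2) ℝ, H.transpose * H = 1 ∧
      (∀ i j, (H * H.transpose) i j = (if i = j then 1 else 0) - x i * x j) := by
  rw [Fin.sum_univ_three] at hx
  -- a unit vector orthogonal to `x`
  obtain ⟨e, he, hex⟩ : ∃ e : Fin 3 → ℝ, e 0 ^ 2 + e 1 ^ 2 + e 2 ^ 2 = 1 ∧
      e 0 * x 0 + e 1 * x 1 + e 2 * x 2 = 0 := by
    by_cases h : x 0 ^ 2 + x 1 ^ 2 = 0
    · have h0 : x 0 = 0 := by nlinarith [sq_nonneg (x 0), sq_nonneg (x 1)]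
      have h1 : x 1 = 0 := by nlinarith [sq_nonneg (x 0), sq_nonneg (x 1)]
      exact ⟨![1, 0, 0], by simp, by simp [h0]⟩
    · have h2 : 0 < x 0 ^ 2 + x 1 ^ 2 := lt_of_le_of_ne (by positivity) (Ne.symm h)
      set r := Real.sqrt (x 0 ^ 2 + x 1 ^ 2) with hr
      have hr0 : 0 < r := Real.sqrt_pos.2 h2
      have hr2 : r ^ 2 = x 0 ^ 2 + x 1 ^ 2 := Real.sq_sqrt h2.le
      refine ⟨![-x 1 / r, x 0 / r, 0], ?_, ?_⟩
      · simp only [Matrix.cons_val_zero, Matrix.cons_val_one, Matrix.cons_val]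
        field_simp
        linarith
      · simp only [Matrix.cons_val_zero, Matrix.cons_val_one, Matrix.cons_val]
        ring
  set f : Fin 3 → ℝ := ![x 1 * e 2 - x 2 * e 1, x 2 * e 0 - x 0 * e 2, x 0 * e 1 - x 1 * e 0]
    with hf
  have f0 : f 0 = x 1 * e 2 - x 2 * e 1 := rfl
  have f1 : f 1 = x 2 * e 0 - x 0 * e 2 := rfl
  have f2 : f 2 = x 0 * e 1 - x 1 * e 0 := rfl
  -- the orthogonal matrix with rows `x`, `e`, `f`
  obtain ⟨M, M0, M1, M2⟩ : ∃ M : Matrix (Fin 3) (Fin 3) ℝ, (∀ j, M 0 j = x j) ∧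
      (∀ j, M 1 j = e j) ∧ (∀ j, M 2 j = f j) :=
    ⟨Matrix.of ![x, e, f], fun _ => rfl, fun _ => rfl, fun _ => rfl⟩
  have hMM : M * M.transpose = 1 := by
    ext i j
    rw [Matrix.mul_apply, Fin.sum_univ_three]
    simp only [Matrix.transpose_apply]
    fin_cases i <;> fin_cases j <;>
      simp [M0, M1, M2, f0, f1, f2] <;>
      first
        | linear_combination hx
        | linear_combination he
        | linear_combination hex
        | ring1
        | linear_combination (x 0 ^ 2 + x 1 ^ 2 + x 2 ^ 2) * he + hx -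
            (e 0 * x 0 + e 1 * x 1 + e 2 * x 2) * hex
  have hMM' : M.transpose * M = 1 := mul_eq_one_comm.1 hMM
  refine ⟨Matrix.of fun i a => ![e i, f i] a, ?_, fun i j => ?_⟩
  · ext a b
    have h11 := congrFun (congrFun hMM 1) 1
    have h12 := congrFun (congrFun hMM 1) 2
    have h21 := congrFun (congrFun hMM 2) 1
    have h22 := congrFun (congrFun hMM 2) 2
    rw [Matrix.mul_apply, Fin.sum_univ_three] at h11 h12 h21 h22
    simp only [Matrix.transpose_apply, M1, M2] at h11 h12 h21 h22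
    fin_cases a <;> fin_cases b <;>
      simp [Matrix.mul_apply, Fin.sum_univ_three] <;>
      simp at h11 h12 h21 h22 <;> assumption
  · have h := congrFun (congrFun hMM' i) j
    rw [Matrix.mul_apply, Fin.sum_univ_three] at h
    simp only [Matrix.transpose_apply, M0, M1, M2, Matrix.one_apply] at h
    simp [Matrix.mul_apply, Fin.sum_univ_two]
    linarith

/-! ## Tensors at a point -/

open Matrix in
theorem solve_repr {H : Matrix (Fin 3) (Fin 2) ℝ} {x : Fin 3 → ℝ}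
    (hP : ∀ i j, (H * Hᵀ) i j = (if i = j then 1 else 0) - x i * x j)
    (A : Matrix (Fin 3) (Fin 3) ℝ) (hs : ∀ i j, A i j = A j i)
    (ht : ∀ i, ∑ j, A i j * x j = 0) : A = H * (Hᵀ * A * H) * Hᵀ := by
  have h1 : H * Hᵀ * A = A := by
    ext i j
    rw [Matrix.mul_apply]
    have h2 : ∀ k, (H * Hᵀ) i k * A k j = (if i = k then A k j else 0) - x i * (A j k * x k) := by
      intro k
      rw [hP, hs k j]
      split_ifs <;> ring
    rw [Finset.sum_congr rfl fun k _ => h2 k, Finset.sum_sub_distrib, ← Finset.mul_sum, ht]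
    simp
  have h2 : A * (H * Hᵀ) = A := by
    ext i j
    rw [Matrix.mul_apply]
    have h2 : ∀ k, A i k * (H * Hᵀ) k j = (if k = j then A i k else 0) - x j * (A i k * x k) := by
      intro k
      rw [hP]
      split_ifs <;> ring
    rw [Finset.sum_congr rfl fun k _ => h2 k, Finset.sum_sub_distrib, ← Finset.mul_sum, ht]
    simp
  calc A = (H * Hᵀ * A) * (H * Hᵀ) := by rw [h1, h2]
    _ = H * (Hᵀ * A * H) * Hᵀ := by simp only [Matrix.mul_assoc]

open Matrix in
theorem solve_deriv {A : ℝ → Matrix (Fin 3) (Fin 3) ℝ} {B : Matrix (Fin 3) (Fin 3) ℝ}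
    {S : Set ℝ} {s : ℝ} (h : ∀ i j, HasDerivWithinAt (fun r => A r i j) (B i j) S s)
    (H : Matrix (Fin 3) (Fin 2) ℝ) (a b : Fin 2) :
    HasDerivWithinAt (fun r => (Hᵀ * A r * H) a b) ((Hᵀ * B * H) a b) S s := by
  simp only [Matrix.mul_apply]
  exact HasDerivWithinAt.fun_sum fun j _ =>
    (HasDerivWithinAt.fun_sum fun i _ => (h i j).const_mul _).mul_const _

open Matrix in
theorem solve_tendsto {A : ℝ → Matrix (Fin 3) (Fin 3) ℝ} {B : Matrix (Fin 3) (Fin 3) ℝ}
    (h : ∀ i j, Tendsto (fun r => A r i j / r ^ 2) atTop (𝓝 (B i j)))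
    (H : Matrix (Fin 3) (Fin 2) ℝ) (a b : Fin 2) :
    Tendsto (fun r => (Hᵀ * A r * H) a b / r ^ 2) atTop (𝓝 ((Hᵀ * B * H) a b)) := by
  have h1 : (fun r => (Hᵀ * A r * H) a b / r ^ 2) =
      fun r => ∑ j, (∑ i, Hᵀ a i * (A r i j / r ^ 2)) * H j b := by
    funext r
    simp only [Matrix.mul_apply, Finset.sum_div]
    refine Finset.sum_congr rfl fun j _ => ?_
    rw [mul_comm, mul_div_assoc, Finset.sum_div, mul_comm]
    refine congrArg (· * H j b) (Finset.sum_congr rfl fun i _ => ?_)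
    ring
  rw [h1]
  simp only [Matrix.mul_apply]
  exact tendsto_finsetSum _ fun j _ => (tendsto_finsetSum _ fun i _ => (h i j).const_mul _).mul_const _

open Matrix in
/-- trace and determinant on the plane in the frame -/
theorem solve_trdet {H : Matrix (Fin 3) (Fin 2) ℝ} (hH : Hᵀ * H = 1) (T : Ten) (x : E)
    (G : Matrix (Fin 2) (Fin 2) ℝ) (hT : (Matrix.of fun i j => T i j x) = H * G * Hᵀ) :
    ttr T x = G 0 0 + G 1 1 ∧ tdet T x = G 0 0 * G 1 1 - G 0 1 * G 1 0 := by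
  have h1 : ttr T x = G 0 0 + G 1 1 := by
    have : ttr T x = Matrix.trace (Matrix.of fun i j => T i j x) := rfl
    rw [this, hT, Matrix.trace_mul_comm, ← Matrix.mul_assoc, hH, Matrix.one_mul,
      Matrix.trace_fin_two]
  have h2 : ∑ i, ∑ j, T i j x * T j i x =
      G 0 0 ^ 2 + 2 * (G 0 1 * G 1 0) + G 1 1 ^ 2 := by
    have : ∑ i, ∑ j, T i j x * T j i x =
      Matrix.trace ((Matrix.of fun i j => T i j x) * (Matrix.of fun i j => T i j x)) := by
      simp only [Matrix.trace, Matrix.diag, Matrix.mul_apply, Matrix.of_apply]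
    rw [this, hT]
    have h3 : H * G * Hᵀ * (H * G * Hᵀ) = H * (G * G * Hᵀ) := by
      calc H * G * Hᵀ * (H * G * Hᵀ) = H * (G * ((Hᵀ * H) * G) * Hᵀ) := by
            simp only [Matrix.mul_assoc]
        _ = _ := by rw [hH, Matrix.one_mul]
    rw [h3, Matrix.trace_mul_comm, Matrix.mul_assoc, hH, Matrix.mul_one, Matrix.trace_fin_two]
    simp only [Matrix.mul_apply, Fin.sum_univ_two]
    ring
  refine ⟨h1, ?_⟩
  rw [tdet, h1, h2]
  ring

open Matrix in
/-- everything at one point -/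
theorem solve_point (C : ConeData) (x : E) (hx : x ∈ SS) :
    (∀ v : Fin 3 → ℝ, ∑ i, v i * x i = 0 → v ≠ 0 → 0 < ∑ i, ∑ j, C.χ 0 i j x * v i * v j) ∧
    ∀ s, 0 ≤ s → (∀ i j, C.χ s i j x = s * roundM i j x + C.χ 0 i j x) ∧
      (∀ i j, C.γ s i j x = ∑ k, C.χ s i k x * C.χ s k j x) := by
  have hx1 : ∑ i, x i ^ 2 = 1 := by
    have h1 : ‖x‖ = 1 := by simpa using hx
    have h2 := EuclideanSpace.real_norm_sq_eq x
    rw [h1] at h2
    simpa using h2.symm
  obtain ⟨H, hH, hP⟩ := solve_frame (fun i => x i) hx1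
  -- the plane
  have hHx : ∀ a, ∑ i, H i a * x i = 0 := by
    intro a
    have h1 : ∀ i, ∑ j, (H * Hᵀ) i j * x j = 0 := by
      intro i
      have h2 : ∀ j, (H * Hᵀ) i j * x j = (if i = j then x j else 0) - x i * (x j ^ 2) := by
        intro j
        rw [hP]
        split_ifs <;> ring
      rw [Finset.sum_congr rfl fun j _ => h2 j, Finset.sum_sub_distrib, ← Finset.mul_sum, hx1]
      simp
    have h3 : (Hᵀ * (H * Hᵀ)) = Hᵀ := by rw [← Matrix.mul_assoc, hH, Matrix.one_mul]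
    have h4 : ∀ i, H i a = ∑ k, H k a * (H * Hᵀ) k i := by
      intro i
      have := congrFun (congrFun h3 a) i
      rw [Matrix.mul_apply] at this
      simpa [Matrix.transpose_apply] using this.symm
    calc ∑ i, H i a * x i = ∑ i, ∑ k, H k a * ((H * Hᵀ) k i * x i) := by
          refine Finset.sum_congr rfl fun i _ => ?_
          conv_lhs => rw [h4 i]
          rw [Finset.sum_mul]
          exact Finset.sum_congr rfl fun k _ => by ring
      _ = ∑ k, H k a * ∑ i, (H * Hᵀ) k i * x i := by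
          rw [Finset.sum_comm]
          exact Finset.sum_congr rfl fun k _ => by rw [Finset.mul_sum]
      _ = 0 := by simp [h1]
  -- matrices
  obtain ⟨A, hA⟩ : ∃ A : ℝ → Matrix (Fin 3) (Fin 3) ℝ, ∀ s i j, A s i j = C.γ s i j x :=
    ⟨fun s => Matrix.of fun i j => C.γ s i j x, fun _ _ _ => rfl⟩
  obtain ⟨B, hB⟩ : ∃ B : ℝ → Matrix (Fin 3) (Fin 3) ℝ, ∀ s i j, B s i j = C.χ s i j x :=
    ⟨fun s => Matrix.of fun i j => C.χ s i j x, fun _ _ _ => rfl⟩
  obtain ⟨G, hG⟩ : ∃ G : ℝ → Matrix (Fin 2) (Fin 2) ℝ, ∀ s, G s = Hᵀ * A s * H :=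
    ⟨fun s => Hᵀ * A s * H, fun _ => rfl⟩
  obtain ⟨X, hX⟩ : ∃ X : ℝ → Matrix (Fin 2) (Fin 2) ℝ, ∀ s, X s = Hᵀ * B s * H :=
    ⟨fun s => Hᵀ * B s * H, fun _ => rfl⟩
  have rA : ∀ s, 0 ≤ s → A s = H * G s * Hᵀ := by
    intro s hs
    rw [hG]
    refine solve_repr hP _ (fun i j => ?_) (fun i => ?_)
    · rw [hA, hA]; exact (C.metric s hs).symm x hx i j
    · simp only [hA]; exact (C.metric s hs).tangent x hx i
  have rB : ∀ s, 0 ≤ s → B s = H * X s * Hᵀ := by
    intro s hs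
    rw [hX]
    refine solve_repr hP _ (fun i j => ?_) (fun i => ?_)
    · rw [hB, hB]; exact (C.secondForm s hs).symm x hx i j
    · simp only [hB]; exact (C.secondForm s hs).tangent x hx i
  have sG : ∀ s, 0 ≤ s → G s 1 0 = G s 0 1 := by
    intro s hs
    have h1 : (A s)ᵀ = A s := by
      ext i j
      rw [Matrix.transpose_apply, hA, hA]
      exact (C.metric s hs).symm x hx j i
    have h2 : (G s)ᵀ = G s := by
      rw [hG, Matrix.transpose_mul, Matrix.transpose_mul, h1, Matrix.transpose_transpose,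
        Matrix.mul_assoc]
    exact congrFun (congrFun h2 0) 1
  have sX : ∀ s, 0 ≤ s → X s 1 0 = X s 0 1 := by
    intro s hs
    have h1 : (B s)ᵀ = B s := by
      ext i j
      rw [Matrix.transpose_apply, hB, hB]
      exact (C.secondForm s hs).symm x hx j i
    have h2 : (X s)ᵀ = X s := by
      rw [hX, Matrix.transpose_mul, Matrix.transpose_mul, h1, Matrix.transpose_transpose,
        Matrix.mul_assoc]
    exact congrFun (congrFun h2 0) 1
  have tr : ∀ s, 0 ≤ s → ttr (C.γ s) x = G s 0 0 + G s 1 1 ∧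
      tdet (C.γ s) x = G s 0 0 * G s 1 1 - G s 0 1 * G s 1 0 := by
    intro s hs
    refine solve_trdet hH (C.γ s) x (G s) ?_
    rw [← rA s hs]
    ext i j
    exact (hA s i j).symm
  -- positivity
  have quad : ∀ (T : Matrix (Fin 3) (Fin 3) ℝ) (w : Fin 2 → ℝ),
      ∑ i, ∑ j, T i j * (∑ a, H i a * w a) * (∑ a, H j a * w a) =
      (Hᵀ * T * H) 0 0 * w 0 ^ 2 + ((Hᵀ * T * H) 0 1 + (Hᵀ * T * H) 1 0) * w 0 * w 1 +
        (Hᵀ * T * H) 1 1 * w 1 ^ 2 := by
    intro T w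
    simp only [Matrix.mul_apply, Matrix.transpose_apply, Fin.sum_univ_two, Fin.sum_univ_three]
    ring
  have hne : ∀ w : Fin 2 → ℝ, w ≠ 0 → (fun i => ∑ a, H i a * w a) ≠ 0 := by
    intro w hw h0
    apply hw
    have h1 : Hᵀ.mulVec (H.mulVec w) = w := by
      rw [Matrix.mulVec_mulVec, hH, Matrix.one_mulVec]
    have h2 : H.mulVec w = 0 := by
      funext i
      exact congrFun h0 i
    rw [h2, Matrix.mulVec_zero] at h1
    exact h1.symm
  have htan : ∀ w : Fin 2 → ℝ, ∑ i, (∑ a, H i a * w a) * x i = 0 := by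
    intro w
    have h0 := hHx 0
    have h1 := hHx 1
    simp only [Fin.sum_univ_two, Fin.sum_univ_three] at h0 h1 ⊢
    linear_combination w 0 * h0 + w 1 * h1
  have posG : ∀ s, 0 ≤ s → ∀ w : Fin 2 → ℝ, w ≠ 0 →
      0 < G s 0 0 * w 0 ^ 2 + 2 * G s 0 1 * w 0 * w 1 + G s 1 1 * w 1 ^ 2 := by
    intro s hs w hw
    have h1 := C.posDef s hs x hx (fun i => ∑ a, H i a * w a) (htan w) (hne w hw)
    have h2 := quad (A s) w
    simp only [hA] at h2
    rw [h2, ← hG, sG s hs] at h1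
    linarith
  have hD : ∀ s, 0 ≤ s → 0 < G s 0 0 * G s 1 1 - G s 0 1 ^ 2 := by
    intro s hs
    have h1 := posG s hs ![1, 0] (fun h => by simpa using congrFun h 0)
    simp at h1
    have h2 := posG s hs ![-G s 0 1, G s 0 0] (fun h => by
      have := congrFun h 1
      simp at this
      exact h1.ne' this)
    simp at h2
    have h3 : 0 < G s 0 0 * (G s 0 0 * G s 1 1 - G s 0 1 ^ 2) := by nlinarith
    exact (mul_pos_iff_of_pos_left h1).1 h3
  -- derivatives
  have dG : ∀ a b s, 0 ≤ s → HasDerivWithinAt (fun r => G r a b) (2 * X s a b) (Set.Ici 0) s := by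
    intro a b s hs
    have h1 := solve_deriv (A := A) (B := (2 : ℝ) • B s) (S := Set.Ici 0) (s := s) (fun i j => by
      simp only [hA, Matrix.smul_apply, hB, smul_eq_mul]
      exact C.variation s hs x hx i j) H a b
    simp only [← hG] at h1
    refine h1.congr_deriv ?_
    rw [hX, Matrix.mul_smul, Matrix.smul_mul, Matrix.smul_apply, smul_eq_mul]
  -- the inverse
  have inv : ∀ s, 0 ≤ s → (Matrix.of fun i j => tinv (C.γ s) i j x) =
      (G s 0 0 * G s 1 1 - G s 0 1 ^ 2)⁻¹ • (H * ((G s 0 0 + G s 1 1) • (1 : Matrix (Fin 2) (Fin 2) ℝ) - G s) *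
        Hᵀ) := by
    intro s hs
    ext i j
    rw [Matrix.mul_sub, Matrix.sub_mul, Matrix.mul_smul, Matrix.smul_mul, Matrix.mul_one,
      ← rA s hs]
    simp only [Matrix.of_apply, Matrix.smul_apply, Matrix.sub_apply, hP, smul_eq_mul, tinv,
      roundM, (tr s hs).1, (tr s hs).2, hA, sG s hs]
    rw [div_eq_inv_mul, pow_two]
  have dX : ∀ a b s, 0 ≤ s → HasDerivWithinAt (fun r => X r a b)
      ((G s 0 0 * G s 1 1 - G s 0 1 ^ 2)⁻¹ *
        (X s * ((G s 0 0 + G s 1 1) • (1 : Matrix (Fin 2) (Fin 2) ℝ) - G s) * X s) a b) (Set.Ici 0) s := by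
    intro a b s hs
    have h1 := solve_deriv (A := B)
      (B := B s * (Matrix.of fun i j => tinv (C.γ s) i j x) * B s) (S := Set.Ici 0) (s := s)
      (fun i j => by
        simp only [hB]
        refine (C.optical s hs x hx i j).congr_deriv ?_
        simp only [Matrix.mul_apply, Matrix.of_apply, hB, Finset.sum_mul]
        rw [Finset.sum_comm]) H a b
    simp only [← hX] at h1
    refine h1.congr_deriv ?_
    rw [inv s hs, rB s hs]
    have h2 : Hᵀ * (H * X s * Hᵀ * ((G s 0 0 * G s 1 1 - G s 0 1 ^ 2)⁻¹ •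
        (H * ((G s 0 0 + G s 1 1) • (1 : Matrix (Fin 2) (Fin 2) ℝ) - G s) * Hᵀ)) * (H * X s * Hᵀ)) * H =
        (G s 0 0 * G s 1 1 - G s 0 1 ^ 2)⁻¹ •
          ((Hᵀ * H) * X s * (Hᵀ * H) * ((G s 0 0 + G s 1 1) • (1 : Matrix (Fin 2) (Fin 2) ℝ) - G s) *
            (Hᵀ * H) * X s * (Hᵀ * H)) := by
      simp only [Matrix.mul_smul, Matrix.smul_mul, Matrix.mul_assoc]
    rw [h2, hH]
    simp only [Matrix.one_mul, Matrix.mul_one, Matrix.smul_apply, smul_eq_mul]
  -- asymptotics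
  have aG : ∀ a b, Tendsto (fun s => G s a b / s ^ 2) atTop (𝓝 ((1 : Matrix (Fin 2) (Fin 2) ℝ) a b)) := by
    intro a b
    have h1 := solve_tendsto (A := A) (B := H * Hᵀ) (fun i j => by
      simp only [hA, hP]
      exact C.asymptotic_metric x hx i j) H a b
    simp only [← hG] at h1
    have h2 : Hᵀ * (H * Hᵀ) * H = (Hᵀ * H) * (Hᵀ * H) := by simp only [Matrix.mul_assoc]
    rw [h2, hH, Matrix.one_mul] at h1
    exact h1
  have main := solve_two (fun s => G s 0 0) (fun s => G s 0 1) (fun s => G s 1 1)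
    (fun s => X s 0 0) (fun s => X s 0 1) (fun s => X s 1 1) hD (dG 0 0) (dG 0 1) (dG 1 1)
    (fun s hs => (dX 0 0 s hs).congr_deriv (by
      simp only [Matrix.mul_apply, Fin.sum_univ_two, Matrix.sub_apply, Matrix.smul_apply,
        Matrix.one_apply, sG s hs, sX s hs, smul_eq_mul, div_eq_inv_mul]
      simp
      left
      ring))
    (fun s hs => (dX 0 1 s hs).congr_deriv (by
      simp only [Matrix.mul_apply, Fin.sum_univ_two, Matrix.sub_apply, Matrix.smul_apply,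
        Matrix.one_apply, sG s hs, sX s hs, smul_eq_mul, div_eq_inv_mul]
      simp
      left
      ring))
    (fun s hs => (dX 1 1 s hs).congr_deriv (by
      simp only [Matrix.mul_apply, Fin.sum_univ_two, Matrix.sub_apply, Matrix.smul_apply,
        Matrix.one_apply, sG s hs, sX s hs, smul_eq_mul, div_eq_inv_mul]
      simp
      left
      ring))
    (aG 0 0) (aG 0 1) (aG 1 1)
  obtain ⟨m1, m2, m3, m4⟩ := main
  refine ⟨fun v hv hv0 => ?_, fun s hs => ?_⟩
  · -- positivity of `U`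
    have h1 : v = fun i => ∑ a, H i a * (Hᵀ.mulVec v) a := by
      have h2 : H.mulVec (Hᵀ.mulVec v) = v := by
        rw [Matrix.mulVec_mulVec]
        funext i
        rw [Matrix.mulVec, dotProduct]
        have h3 : ∀ j, (H * Hᵀ) i j * v j = (if i = j then v j else 0) - x i * (v j * x j) := by
          intro j
          rw [hP]
          split_ifs <;> ring
        rw [Finset.sum_congr rfl fun j _ => h3 j, Finset.sum_sub_distrib, ← Finset.mul_sum, hv]
        simp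
      exact h2.symm
    have h2 : Hᵀ.mulVec v ≠ 0 := by
      intro h0
      rw [h0] at h1
      apply hv0
      rw [h1]
      funext i
      simp
    generalize Hᵀ.mulVec v = w at h1 h2
    have h3 := quad (B 0) w
    simp only [hB] at h3
    rw [h1, h3, ← hX, sX 0 le_rfl]
    have h4 : 0 < X 0 0 0 * (X 0 0 0 * w 0 ^ 2 + (X 0 0 1 + X 0 0 1) * w 0 * w 1 +
        X 0 1 1 * w 1 ^ 2) := by
      have h5 : X 0 0 0 * (X 0 0 0 * w 0 ^ 2 + (X 0 0 1 + X 0 0 1) * w 0 * w 1 +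
        X 0 1 1 * w 1 ^ 2) = (X 0 0 0 * w 0 + X 0 0 1 * w 1) ^ 2 +
          (X 0 0 0 * X 0 1 1 - X 0 0 1 ^ 2) * w 1 ^ 2 := by ring
      rw [h5]
      by_cases hw : w 1 = 0
      · have hw0 : w 0 ≠ 0 := by
          intro h
          apply h2
          funext i
          fin_cases i
          · exact h
          · exact hw
        rw [hw]
        have : 0 < (X 0 0 0 * w 0) ^ 2 := by
          have := mul_ne_zero m2.ne' hw0
          positivity
        simpa using this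
      · have : 0 < w 1 ^ 2 := by positivity
        have := mul_pos m4 this
        positivity
    exact (mul_pos_iff_of_pos_left m2).1 h4
  · obtain ⟨a1, a2, a3, a4, a5, a6⟩ := m1 s hs
    have hXs : X s = s • (1 : Matrix (Fin 2) (Fin 2) ℝ) + X 0 := by
      ext a b
      fin_cases a <;> fin_cases b
      · simpa using a1
      · simpa using a2
      · simpa [sX s hs, sX 0 le_rfl] using a2
      · simpa using a3
    have hGs : G s = X s * X s := by
      ext a b
      fin_cases a <;> fin_cases b <;> simp only [Matrix.mul_apply, Fin.sum_univ_two]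
      · simp [sX s hs] at a4 ⊢
        rw [a4]; ring
      · simp at a5 ⊢
        rw [a5]; ring
      · simp [sX s hs, sG s hs] at a5 ⊢
        rw [a5]; ring
      · simp [sX s hs] at a6 ⊢
        rw [a6]; ring
    constructor
    · intro i j
      have h1 : B s = s • (H * Hᵀ) + B 0 := by
        rw [rB s hs, rB 0 le_rfl, hXs]
        rw [Matrix.mul_add, Matrix.add_mul, Matrix.mul_smul, Matrix.smul_mul, Matrix.mul_one]
      have h2 := congrFun (congrFun h1 i) j
      rw [Matrix.add_apply, Matrix.smul_apply, hB, hB, hP] at h2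
      exact h2
    · intro i j
      have h1 : A s = B s * B s := by
        rw [rA s hs, rB s hs, hGs]
        have : H * X s * Hᵀ * (H * X s * Hᵀ) = H * X s * (Hᵀ * H) * X s * Hᵀ := by
          simp only [Matrix.mul_assoc]
        rw [this, hH, Matrix.mul_one]
        simp only [Matrix.mul_assoc]
      have h2 := congrFun (congrFun h1 i) j
      rw [hA, Matrix.mul_apply] at h2
      simp only [hB] at h2
      exact h2

theorem solve : Solve_Stmt := by
  intro C
  exact ⟨fun x hx => (solve_point C x hx).1, fun s hs x hx => ((solve_point C x hx).2 s hs).1,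
    fun s hs x hx => ((solve_point C x hx).2 s hs).2⟩

theorem Solve (_hS : Square_Stmt) : Solve_Stmt := solve

end Pool.Agent.NullCone
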