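import Pool.Agent.NullCone.Stmts

/-! # Module A: algebra of `γ = V²` at one point -/

open MeasureTheory Filter Topology
open scoped ContDiff

namespace Pool.Agent.NullCone

open Pool.Agent.NullShell

namespace SquareAux

/-- A row vector parallel to the unit vector `x`. -/
theorem parallel (c0 c1 c2 x0 x1 x2 : ℝ) (hx : x0 ^ 2 + x1 ^ 2 + x2 ^ 2 = 1)
    (h01 : c0 * x1 - c1 * x0 = 0) (h02 : c0 * x2 - c2 * x0 = 0) (h12 : c1 * x2 - c2 * x1 = 0) :
    c0 = (c0 * x0 + c1 * x1 + c2 * x2) * x0 ∧ c1 = (c0 * x0 + c1 * x1 + c2 * x2) * x1 ∧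
      c2 = (c0 * x0 + c1 * x1 + c2 * x2) * x2 := by
  refine ⟨?_, ?_, ?_⟩
  · linear_combination -c0 * hx + x1 * h01 + x2 * h02
  · linear_combination -c1 * hx - x0 * h01 + x2 * h12
  · linear_combination -c2 * hx - x0 * h02 - x1 * h12

variable {x : Fin 3 → ℝ} {U : Fin 3 → Fin 3 → ℝ}

theorem unit' (h : PlaneMat x U) : x 0 ^ 2 + x 1 ^ 2 + x 2 ^ 2 = 1 := by
  have := h.unit
  simpa only [Fin.sum_univ_three] using this

theorem tan' (h : PlaneMat x U) (i : Fin 3) : U i 0 * x 0 + U i 1 * x 1 + U i 2 * x 2 = 0 := by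
  have := h.tangent i
  simpa only [Fin.sum_univ_three] using this

/-- `adj U = (det U) x xᵀ`, with the entries of the adjugate written out. -/
theorem adj (h : PlaneMat x U) :
    U 1 1 * U 2 2 - U 1 2 ^ 2 = mdet U * x 0 ^ 2 ∧
    U 0 0 * U 2 2 - U 0 2 ^ 2 = mdet U * x 1 ^ 2 ∧
    U 0 0 * U 1 1 - U 0 1 ^ 2 = mdet U * x 2 ^ 2 ∧
    U 1 2 * U 0 2 - U 0 1 * U 2 2 = mdet U * (x 0 * x 1) ∧
    U 0 1 * U 1 2 - U 1 1 * U 0 2 = mdet U * (x 0 * x 2) ∧
    U 0 1 * U 0 2 - U 0 0 * U 1 2 = mdet U * (x 1 * x 2) := by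
  have hx := unit' h
  have h10 := h.symm 1 0
  have h20 := h.symm 2 0
  have h21 := h.symm 2 1
  have e0 := tan' h 0
  have e1 := tan' h 1
  have e2 := tan' h 2
  rw [h10] at e1
  rw [h20, h21] at e2
  have hd : mdet U = (U 1 1 * U 2 2 - U 1 2 ^ 2) + (U 0 0 * U 2 2 - U 0 2 ^ 2)
      + (U 0 0 * U 1 1 - U 0 1 ^ 2) := by
    unfold mdet mtr
    simp only [Fin.sum_univ_three]
    rw [h10, h20, h21]
    ring
  generalize U 0 0 = a at *
  generalize U 0 1 = b at *
  generalize U 0 2 = c at *
  generalize U 1 1 = d at *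
  generalize U 1 2 = e at *
  generalize U 2 2 = f at *
  obtain ⟨p00, p01, p02⟩ := parallel (d * f - e ^ 2) (e * c - b * f) (b * e - d * c) (x 0) (x 1)
    (x 2) hx (by linear_combination f * e1 - e * e2) (by linear_combination -e * e1 + d * e2)
    (by linear_combination c * e1 - b * e2)
  obtain ⟨p10, p11, p12⟩ := parallel (e * c - b * f) (a * f - c ^ 2) (b * c - a * e) (x 0) (x 1)
    (x 2) hx (by linear_combination c * e2 - f * e0) (by linear_combination -b * e2 + e * e0)
    (by linear_combination a * e2 - c * e0)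
  obtain ⟨p20, p21, p22⟩ := parallel (b * e - d * c) (b * c - a * e) (a * d - b ^ 2) (x 0) (x 1)
    (x 2) hx (by linear_combination e * e0 - c * e1) (by linear_combination -d * e0 + b * e1)
    (by linear_combination b * e0 - a * e1)
  have hD : mdet U = ((d * f - e ^ 2) * x 0 + (e * c - b * f) * x 1 + (b * e - d * c) * x 2) * x 0
      + ((e * c - b * f) * x 0 + (a * f - c ^ 2) * x 1 + (b * c - a * e) * x 2) * x 1
      + ((b * e - d * c) * x 0 + (b * c - a * e) * x 1 + (a * d - b ^ 2) * x 2) * x 2 := by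
    rw [hd]
    linear_combination p00 + p11 + p22
  have a0 : (d * f - e ^ 2) * x 0 + (e * c - b * f) * x 1 + (b * e - d * c) * x 2
      = mdet U * x 0 := by
    rw [hD]
    linear_combination x 0 * p00 + x 1 * p10 + x 2 * p20
  have a1 : (e * c - b * f) * x 0 + (a * f - c ^ 2) * x 1 + (b * c - a * e) * x 2
      = mdet U * x 1 := by
    rw [hD]
    linear_combination x 0 * p01 + x 1 * p11 + x 2 * p21
  have a2 : (b * e - d * c) * x 0 + (b * c - a * e) * x 1 + (a * d - b ^ 2) * x 2
      = mdet U * x 2 := by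
    rw [hD]
    linear_combination x 0 * p02 + x 1 * p12 + x 2 * p22
  rw [a0] at p00 p01 p02
  rw [a1] at p10 p11 p12
  rw [a2] at p20 p21 p22
  refine ⟨?_, ?_, ?_, ?_, ?_, ?_⟩
  · linear_combination p00
  · linear_combination p11
  · linear_combination p22
  · linear_combination p01
  · linear_combination p02
  · linear_combination p12

/-- Cayley and Hamilton on the plane. -/
theorem cayley (h : PlaneMat x U) (i j : Fin 3) :
    ∑ k, U i k * U k j = mtr U * U i j - mdet U * ((if i = j then 1 else 0) - x i * x j) := by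
  obtain ⟨q0, q1, q2, q3, q4, q5⟩ := adj h
  have hd : mdet U = (U 1 1 * U 2 2 - U 1 2 ^ 2) + (U 0 0 * U 2 2 - U 0 2 ^ 2)
      + (U 0 0 * U 1 1 - U 0 1 ^ 2) := by
    unfold mdet mtr
    simp only [Fin.sum_univ_three]
    rw [h.symm 1 0, h.symm 2 0, h.symm 2 1]
    ring
  unfold mtr
  simp only [Fin.sum_univ_three]
  fin_cases i <;> fin_cases j <;>
    simp only [Fin.zero_eta, Fin.mk_one, Fin.reduceFinMk, Fin.isValue, if_true, zero_ne_one,
      one_ne_zero, if_false, Fin.reduceEq, h.symm 1 0, h.symm 2 0, h.symm 2 1]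
  · linear_combination q0 + hd
  · linear_combination q3
  · linear_combination q4
  · linear_combination q3
  · linear_combination q1 + hd
  · linear_combination q5
  · linear_combination q4
  · linear_combination q5
  · linear_combination q2 + hd

/-- Positivity on vectors that are not parallel to `x`. -/
theorem pos_full (h : PlaneMat x U) (w0 w1 w2 : ℝ)
    (hw : ¬ (w0 = (w0 * x 0 + w1 * x 1 + w2 * x 2) * x 0 ∧
      w1 = (w0 * x 0 + w1 * x 1 + w2 * x 2) * x 1 ∧
      w2 = (w0 * x 0 + w1 * x 1 + w2 * x 2) * x 2)) :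
    0 < U 0 0 * w0 ^ 2 + U 1 1 * w1 ^ 2 + U 2 2 * w2 ^ 2 + 2 * U 0 1 * w0 * w1
      + 2 * U 0 2 * w0 * w2 + 2 * U 1 2 * w1 * w2 := by
  have hx := unit' h
  have e0 := tan' h 0
  have e1 := tan' h 1
  have e2 := tan' h 2
  have h10 := h.symm 1 0
  have h20 := h.symm 2 0
  have h21 := h.symm 2 1
  rw [h10] at e1
  rw [h20, h21] at e2
  set c := w0 * x 0 + w1 * x 1 + w2 * x 2 with hc
  have key := h.pos (fun i => ![w0 - c * x 0, w1 - c * x 1, w2 - c * x 2] i) (by
    simp only [Fin.sum_univ_three, Matrix.cons_val_zero, Matrix.cons_val_one, Matrix.cons_val]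
    rw [hc]
    linear_combination (-(w0 * x 0 + w1 * x 1 + w2 * x 2)) * hx) (by
    intro h0
    apply hw
    have k0 := congrFun h0 0
    have k1 := congrFun h0 1
    have k2 := congrFun h0 2
    simp only [Matrix.cons_val_zero, Matrix.cons_val_one, Matrix.cons_val, Pi.zero_apply]
      at k0 k1 k2
    exact ⟨by linarith, by linarith, by linarith⟩)
  simp only [Fin.sum_univ_three, Matrix.cons_val_zero, Matrix.cons_val_one, Matrix.cons_val]
    at key
  rw [h10, h20, h21] at key
  refine key.trans_le (le_of_eq ?_)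
  linear_combination (-2 * c * w0 + c ^ 2 * x 0) * e0 + (-2 * c * w1 + c ^ 2 * x 1) * e1
    + (-2 * c * w2 + c ^ 2 * x 2) * e2

theorem nonneg_full (h : PlaneMat x U) (w0 w1 w2 : ℝ) :
    0 ≤ U 0 0 * w0 ^ 2 + U 1 1 * w1 ^ 2 + U 2 2 * w2 ^ 2 + 2 * U 0 1 * w0 * w1
      + 2 * U 0 2 * w0 * w2 + 2 * U 1 2 * w1 * w2 := by
  by_cases hw : (w0 = (w0 * x 0 + w1 * x 1 + w2 * x 2) * x 0 ∧
      w1 = (w0 * x 0 + w1 * x 1 + w2 * x 2) * x 1 ∧
      w2 = (w0 * x 0 + w1 * x 1 + w2 * x 2) * x 2)
  · obtain ⟨k0, k1, k2⟩ := hw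
    set c := w0 * x 0 + w1 * x 1 + w2 * x 2 with hc
    have e0 := tan' h 0
    have e1 := tan' h 1
    have e2 := tan' h 2
    rw [h.symm 1 0] at e1
    rw [h.symm 2 0, h.symm 2 1] at e2
    clear_value c
    rw [k0, k1, k2]
    apply le_of_eq
    linear_combination (-c ^ 2 * x 0) * e0 + (-c ^ 2 * x 1) * e1 + (-c ^ 2 * x 2) * e2
  · exact (pos_full h w0 w1 w2 hw).le

theorem U00_pos (h : PlaneMat x U) (h0 : x 0 = 0) : 0 < U 0 0 := by
  have := pos_full h 1 0 0 (by
    rintro ⟨k0, -, -⟩
    rw [h0] at k0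
    norm_num at k0)
  linarith

theorem U11_pos (h : PlaneMat x U) (h0 : x 0 ≠ 0) : 0 < U 1 1 := by
  have := pos_full h 0 1 0 (by
    rintro ⟨k0, k1, -⟩
    have k2 : x 1 = 0 := by
      have : x 1 * x 0 = 0 := by linarith
      rcases mul_eq_zero.1 this with h | h
      · exact h
      · exact absurd h h0
    rw [k2] at k1
    norm_num at k1)
  linarith

/-- The trace is positive. -/
theorem mtr_pos (h : PlaneMat x U) : 0 < mtr U := by
  have n0 := nonneg_full h 1 0 0
  have n1 := nonneg_full h 0 1 0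
  have n2 := nonneg_full h 0 0 1
  unfold mtr
  simp only [Fin.sum_univ_three]
  by_cases h0 : x 0 = 0
  · have := U00_pos h h0
    linarith
  · have := U11_pos h h0
    linarith

/-- The determinant is positive. -/
theorem mdet_pos (h : PlaneMat x U) : 0 < mdet U := by
  obtain ⟨q0, q1, q2, -, -, -⟩ := adj h
  by_cases h0 : x 0 = 0
  · have hp := U00_pos h h0
    by_cases h1 : x 1 = 0
    · have h2 : x 2 ≠ 0 := by
        intro h2
        have := unit' h
        rw [h0, h1, h2] at this
        norm_num at this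
      have := pos_full h (-U 0 1) (U 0 0) 0 (by
        rintro ⟨-, k1, k2⟩
        rcases mul_eq_zero.1 k2.symm with k | k
        · rw [k] at k1
          linarith
        · exact h2 k)
      have h3 : 0 < U 0 0 * (U 0 0 * U 1 1 - U 0 1 ^ 2) := by
        refine this.trans_le (le_of_eq ?_)
        ring
      have h4 := (mul_pos_iff_of_pos_left hp).1 h3
      rw [q2] at h4
      exact (mul_pos_iff_of_pos_right (by positivity)).1 h4
    · have := pos_full h (-U 0 2) 0 (U 0 0) (by
        rintro ⟨-, k1, k2⟩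
        rcases mul_eq_zero.1 k1.symm with k | k
        · rw [k] at k2
          linarith
        · exact h1 k)
      have h3 : 0 < U 0 0 * (U 0 0 * U 2 2 - U 0 2 ^ 2) := by
        refine this.trans_le (le_of_eq ?_)
        ring
      have h4 := (mul_pos_iff_of_pos_left hp).1 h3
      rw [q1] at h4
      exact (mul_pos_iff_of_pos_right (by positivity)).1 h4
  · have hp := U11_pos h h0
    have := pos_full h 0 (-U 1 2) (U 1 1) (by
      rintro ⟨k1, -, k2⟩
      rcases mul_eq_zero.1 k1.symm with k | k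
      · rw [k] at k2
        linarith
      · exact h0 k)
    have h3 : 0 < U 1 1 * (U 1 1 * U 2 2 - U 1 2 ^ 2) := by
      refine this.trans_le (le_of_eq ?_)
      ring
    have h4 := (mul_pos_iff_of_pos_left hp).1 h3
    rw [q0] at h4
    exact (mul_pos_iff_of_pos_right (by positivity)).1 h4

/-! ## Matrix form -/

/-- The projection to the plane. -/
def pl (x : Fin 3 → ℝ) : Matrix (Fin 3) (Fin 3) ℝ :=
  Matrix.of fun i j => (if i = j then 1 else 0) - x i * x j

theorem pl_mul (h : PlaneMat x U) : pl x * Matrix.of U = Matrix.of U := by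
  ext i j
  simp only [pl, Matrix.mul_apply, Matrix.of_apply]
  have e := tan' h j
  rw [h.symm j 0, h.symm j 1, h.symm j 2] at e
  have : ∑ k, ((if i = k then (1 : ℝ) else 0) - x i * x k) * U k j
      = (∑ k, (if i = k then (1 : ℝ) else 0) * U k j) - x i * ∑ k, x k * U k j := by
    rw [Finset.mul_sum, ← Finset.sum_sub_distrib]
    refine Finset.sum_congr rfl fun k _ => ?_
    ring
  rw [this]
  simp only [ite_mul, one_mul, zero_mul, Finset.sum_ite_eq, Finset.mem_univ, if_true]
  simp only [Fin.sum_univ_three]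
  linear_combination (-x i) * e

theorem mul_pl (h : PlaneMat x U) : Matrix.of U * pl x = Matrix.of U := by
  have ht : (Matrix.of U).transpose = Matrix.of U := by
    ext i j
    exact h.symm j i
  have hp : (pl x).transpose = pl x := by
    ext i j
    simp only [pl, Matrix.transpose_apply, Matrix.of_apply]
    by_cases hij : i = j
    · subst hij; rfl
    · rw [if_neg hij, if_neg (Ne.symm hij)]; ring
  have := congrArg Matrix.transpose (pl_mul h)
  rwa [Matrix.transpose_mul, ht, hp] at this

theorem pl_pl (h : PlaneMat x U) : pl x * pl x = pl x := by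
  have hx := unit' h
  ext i j
  simp only [pl, Matrix.mul_apply, Matrix.of_apply, Fin.sum_univ_three]
  fin_cases i <;> fin_cases j <;>
    simp only [Fin.zero_eta, Fin.mk_one, Fin.reduceFinMk, Fin.isValue, if_true, zero_ne_one,
      one_ne_zero, if_false, Fin.reduceEq]
  · linear_combination (x 0 * x 0) * hx
  · linear_combination (x 0 * x 1) * hx
  · linear_combination (x 0 * x 2) * hx
  · linear_combination (x 1 * x 0) * hx
  · linear_combination (x 1 * x 1) * hx
  · linear_combination (x 1 * x 2) * hx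
  · linear_combination (x 2 * x 0) * hx
  · linear_combination (x 2 * x 1) * hx
  · linear_combination (x 2 * x 2) * hx

theorem trace_pl (h : PlaneMat x U) : (pl x).trace = 2 := by
  have hx := unit' h
  simp only [pl, Matrix.trace, Matrix.diag_apply, Matrix.of_apply, Fin.sum_univ_three, if_true]
  linear_combination -hx

theorem sq_eq (h : PlaneMat x U) :
    Matrix.of U * Matrix.of U = mtr U • Matrix.of U - mdet U • pl x := by
  ext i j
  have := cayley h i j
  simpa [Matrix.mul_apply, pl] using this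

/-- `tinv` in matrix form. -/
theorem tinv_mat (T : Ten) (x : E) : Matrix.of (fun i j => tinv T i j x)
    = (tdet T x)⁻¹ • (ttr T x • pl (fun i => x i) - Matrix.of fun i j => T i j x) := by
  ext i j
  simp only [tinv, roundM, pl, Matrix.of_apply, Matrix.smul_apply, Matrix.sub_apply, smul_eq_mul]
  rw [div_eq_inv_mul]

theorem tdet_mat (T : Ten) (x : E) : tdet T x = (1 / 2) * (ttr T x ^ 2
    - ((Matrix.of fun i j => T i j x) * (Matrix.of fun i j => T i j x)).trace) := by
  simp only [tdet, Matrix.trace, Matrix.diag_apply, Matrix.mul_apply, Matrix.of_apply]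

theorem ttr_mat (T : Ten) (x : E) : ttr T x = (Matrix.of fun i j => T i j x).trace := by
  simp only [ttr, Matrix.trace, Matrix.diag_apply, Matrix.of_apply]

end SquareAux

open SquareAux in
theorem Square : Square_Stmt := by
  intro V γ x h hγ
  set U : Fin 3 → Fin 3 → ℝ := fun i j => V i j x with hU
  have ht : mtr U = ttr V x := rfl
  have hd : mdet U = tdet V x := rfl
  have hdpos : 0 < tdet V x := mdet_pos h
  have htpos : 0 < ttr V x := mtr_pos h
  have hd0 : tdet V x ≠ 0 := hdpos.ne'
  have hPM := pl_mul h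
  have hMP := mul_pl h
  have hPP := pl_pl h
  have hMM := sq_eq h
  have htP := trace_pl h
  rw [ht, hd] at hMM
  have htM : (Matrix.of U).trace = ttr V x := (ttr_mat V x).symm
  have hW := tinv_mat V x
  have hG : (Matrix.of fun i j => γ i j x) = Matrix.of U * Matrix.of U := by
    ext i j
    simp only [Matrix.mul_apply, Matrix.of_apply]
    exact hγ i j
  have htG : ttr γ x = ttr V x ^ 2 - 2 * tdet V x := by
    rw [ttr_mat, hG, hMM, Matrix.trace_sub, Matrix.trace_smul, Matrix.trace_smul, htM, htP]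
    simp only [smul_eq_mul]
    ring
  have hWg := tinv_mat γ x
  set M : Matrix (Fin 3) (Fin 3) ℝ := Matrix.of U with hM
  set P : Matrix (Fin 3) (Fin 3) ℝ := pl (fun i => x i) with hP
  set W : Matrix (Fin 3) (Fin 3) ℝ := Matrix.of (fun i j => tinv V i j x) with hWdef
  set Wg : Matrix (Fin 3) (Fin 3) ℝ := Matrix.of (fun i j => tinv γ i j x) with hWgdef
  set G : Matrix (Fin 3) (Fin 3) ℝ := Matrix.of (fun i j => γ i j x) with hGdef
  set t := ttr V x with htdef
  set d := tdet V x with hddef
  have hGG : G * G = (t ^ 3 - 2 * t * d) • M + (d ^ 2 - t ^ 2 * d) • P := by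
    rw [hG, hMM]
    simp only [sub_mul, mul_sub, smul_mul_assoc, mul_smul_comm, hMM, hPM, hMP, hPP]
    module
  have hdG : tdet γ x = d ^ 2 := by
    rw [tdet_mat, ← hGdef, hGG, htG, Matrix.trace_add, Matrix.trace_smul, Matrix.trace_smul, htM,
      htP]
    simp only [smul_eq_mul]
    ring
  have hWM : W * M = P := by
    rw [hW]
    simp only [sub_mul, smul_mul_assoc, hMM, hPM]
    rw [sub_sub_cancel, smul_smul, inv_mul_cancel₀ hd0, one_smul]
  have hWg2 : Wg = (d ^ 2)⁻¹ • ((t ^ 2 - d) • P - t • M) := by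
    rw [hWg, hdG, htG, hG, hMM]
    module
  have hWgM : Wg * M = W := by
    rw [hWg2, hW]
    simp only [sub_mul, smul_mul_assoc, hMM, hPM]
    have : ((t ^ 2 - d) • M - t • (t • M - d • P)) = d • (t • P - M) := by module
    rw [this, smul_smul]
    congr 1
    field_simp
  have hWW : Wg = W * W := by
    rw [hWg2, hW]
    simp only [sub_mul, mul_sub, smul_mul_assoc, mul_smul_comm, hMM, hPM, hMP, hPP]
    have : (t • d⁻¹ • (t • P - M) - d⁻¹ • (t • M - (t • M - d • P)))
        = d⁻¹ • ((t ^ 2 - d) • P - t • M) := by module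
    rw [this, smul_smul]
    congr 1
    field_simp
  refine ⟨hdpos, htpos, ?_, ?_, ?_, ?_, ?_⟩
  · unfold areaEl
    rw [hdG, Real.sqrt_sq hdpos.le]
  · intro i j
    exact congrFun (congrFun hWM i) j
  · intro i j
    exact congrFun (congrFun hWgM i) j
  · intro i j
    exact congrFun (congrFun hWW i) j
  · have h1 : gtr γ V x = (Wg * M).trace := by
      unfold gtr
      simp only [Matrix.trace, Matrix.diag_apply, Matrix.mul_apply]
      refine Finset.sum_congr rfl fun i _ => Finset.sum_congr rfl fun j _ => ?_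
      show tinv γ i j x * V i j x = tinv γ i j x * V j i x
      rw [show V i j x = V j i x from h.symm i j]
    rw [h1, hWgM, hW, Matrix.trace_smul, Matrix.trace_sub, Matrix.trace_smul, htP, htM]
    simp only [smul_eq_mul]
    field_simp
    ring

end Pool.Agent.NullCone
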