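import Pool.Agent.NullCone.Defs
import Pool.Agent.NullShell.Stmts

/-! # Statements of the modules -/

open MeasureTheory Filter Topology
open scoped ContDiff

namespace Pool.Agent.NullCone

open Pool.Agent.NullShell

/-! ## Matrices at one point -/

/-- The trace. -/
def mtr (M : Fin 3 → Fin 3 → ℝ) : ℝ := ∑ i, M i i

/-- The determinant on the plane. -/
noncomputable def mdet (M : Fin 3 → Fin 3 → ℝ) : ℝ := (1 / 2) * (mtr M ^ 2 - ∑ i, ∑ j, M i j * M j i)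

/-- `|V⁻¹ (N + l W)|² / det V` for `V = l + U`. -/
noncomputable def coneDens (U : Fin 3 → Fin 3 → ℝ) (N W : Fin 3 → ℝ) (l : ℝ) : ℝ :=
  (∑ i, ((l + mtr U) * (N i + l * W i) - ∑ j, U i j * (N j + l * W j)) ^ 2) /
    (l ^ 2 + l * mtr U + mdet U) ^ 3

/-- The data of a matrix on the plane orthogonal to `x`. -/
structure PlaneMat (x : Fin 3 → ℝ) (U : Fin 3 → Fin 3 → ℝ) : Prop where
  unit : ∑ i, x i ^ 2 = 1
  symm : ∀ i j, U i j = U j i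
  tangent : ∀ i, ∑ j, U i j * x j = 0
  pos : ∀ v : Fin 3 → ℝ, ∑ i, v i * x i = 0 → v ≠ 0 → 0 < ∑ i, ∑ j, U i j * v i * v j

/-! ## A: algebra of `γ = V²` -/

def Square_Stmt : Prop := ∀ (V γ : Ten) (x : E), PlaneMat (fun i => x i) (fun i j => V i j x) →
  (∀ i j, γ i j x = ∑ k, V i k x * V k j x) →
  0 < tdet V x ∧ 0 < ttr V x ∧ areaEl γ x = tdet V x ∧
  (∀ i j, ∑ k, tinv V i k x * V k j x = roundM i j x) ∧
  (∀ i j, ∑ k, tinv γ i k x * V k j x = tinv V i j x) ∧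
  (∀ i j, tinv γ i j x = ∑ k, tinv V i k x * tinv V k j x) ∧
  gtr γ V x * tdet V x = ttr V x

/-! ## B: the optical equation -/

/-- The solution of the optical equation: `χ = s + U`, `γ = χ²`, `U = χ 0`. -/
def Solve_Stmt : Prop := ∀ C : ConeData, IsPosDef (C.χ 0) ∧
  (∀ s, 0 ≤ s → ∀ x ∈ SS, ∀ i j, C.χ s i j x = s * roundM i j x + C.χ 0 i j x) ∧
  (∀ s, 0 ≤ s → ∀ x ∈ SS, ∀ i j, C.γ s i j x = ∑ k, C.χ s i k x * C.χ s k j x)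

/-! ## C: the torsion -/

/-- `W = ∇ (tr U) - div U`. -/
noncomputable def Wfun (U : Ten) (i : Fin 3) (x : E) : ℝ :=
  Lop i (ttr U) x - ∑ j, Lop j (U j i) x

/-- `N = √γ ζ` at `s = 0`. -/
noncomputable def Nfun (C : ConeData) (i : Fin 3) (x : E) : ℝ := areaEl (C.γ 0) x * C.ζ 0 i x

def Torsion_Stmt : Prop := ∀ C : ConeData, ∀ s, 0 ≤ s → ∀ x ∈ SS, ∀ i,
  areaEl (C.γ s) x * C.ζ s i x = Nfun C i x + s * Wfun (C.χ 0) i x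

/-! ## D: the energy -/

/-- `|V⁻¹ (N + l W)|² / det V` on the sphere. -/
noncomputable def cd (C : ConeData) (l : ℝ) (x : E) : ℝ :=
  coneDens (fun i j => C.χ 0 i j x) (fun i => Nfun C i x) (fun i => Wfun (C.χ 0) i x) l

/-- Data and area in terms of `U`: `Nfun` is smooth and tangential, so is `Wfun`. -/
def Smooth_Stmt : Prop := ∀ C : ConeData, (∀ i, Sm (Nfun C i)) ∧ (∀ i, Sm (Wfun (C.χ 0) i)) ∧
  (∀ x ∈ SS, ∑ i, Nfun C i x * x i = 0) ∧ (∀ x ∈ SS, ∑ i, Wfun (C.χ 0) i x * x i = 0) ∧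
  (∀ x ∈ SS, areaEl (C.γ 0) x = tdet (C.χ 0) x) ∧
  (∀ x ∈ SS, PlaneMat (fun i => x i) (fun i j => C.χ 0 i j x)) ∧
  (∀ s, 0 ≤ s → ∀ x ∈ SS, areaEl (C.γ s) x = s ^ 2 + s * ttr (C.χ 0) x + tdet (C.χ 0) x) ∧
  (∀ s, 0 ≤ s → ∀ x ∈ SS, areaEl (C.γ s) x * gtr (C.γ s) (C.χ s) x = 2 * s + ttr (C.χ 0) x) ∧
  (∀ s, 0 ≤ s → ∀ x ∈ SS, areaEl (C.γ s) x * normSq (C.γ s) (C.ζ s) x = cd C s x)

/-- The lower bound for the energy. -/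
def Energy_Stmt : Prop := ∀ (C : ConeData) (EB : ℝ), (∀ x ∈ SS, C.θ 0 x ≤ 0) →
  Tendsto C.hawkingEnergy atTop (𝓝 EB) → ∀ s, 0 ≤ s →
  sint (ttr (C.χ 0)) + 2 * ∫ l in (0 : ℝ)..s, sint (fun x => cd C l x) ≤ 16 * Real.pi * EB

/-! ## E: the one dimensional integral -/

def Scalar_Stmt : Prop := ∀ u v n w : ℝ, 0 < u → 0 < v → ∀ ε : ℝ, 0 < ε → ∃ s₀ : ℝ, 0 ≤ s₀ ∧
  ∀ s, s₀ ≤ s → w ^ 2 / (3 * u + v) - ε ≤
    ∫ l in (0 : ℝ)..s, (n + l * w) ^ 2 / ((l + u) ^ 3 * (l + v))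

/-! ## F: the bound at a point -/

def Pointwise_Stmt : Prop := ∀ (x : Fin 3 → ℝ) (U : Fin 3 → Fin 3 → ℝ) (N W a : Fin 3 → ℝ)
  (R : ℝ), PlaneMat x U → ∑ i, N i * x i = 0 → ∑ i, W i * x i = 0 → ∑ i, a i * x i = 0 → 0 < R →
  ∀ ε : ℝ, 0 < ε → ∃ s₀ : ℝ, 0 ≤ s₀ ∧ ∀ s, s₀ ≤ s →
    (2 / R) * (∑ i, a i * W i)
      - (1 / R ^ 2) * ((∑ i, ∑ j, U i j * a i * a j) + (mtr U / 2) * ∑ i, a i ^ 2) - ε
      ≤ 2 * ∫ l in (0 : ℝ)..s, coneDens U N W l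

/-! ## L: passage to the limit -/

def Limit_Stmt : Prop := ∀ (U : Ten) (N W : Cov) (J : E → ℝ) (c : ℝ), IsSymTensor U →
  IsPosDef U → (∀ i, Sm (N i)) → (∀ i, Sm (W i)) → Sm J →
  (∀ s, 0 ≤ s → 2 * (∫ l in (0 : ℝ)..s, sint (fun x =>
    coneDens (fun i j => U i j x) (fun i => N i x) (fun i => W i x) l)) ≤ c) →
  (∀ x ∈ SS, ∀ ε : ℝ, 0 < ε → ∃ s₀ : ℝ, 0 ≤ s₀ ∧ ∀ s, s₀ ≤ s →
    J x - ε ≤ 2 * ∫ l in (0 : ℝ)..s,
      coneDens (fun i j => U i j x) (fun i => N i x) (fun i => W i x) l) →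
  sint J ≤ c

/-! ## G: the sum of squares -/

/-- `(2/R) ⟨∇α, div U - ∇ tr U⟩ - (1/R²) (U(∇α, ∇α) + (tr U / 2) |∇α|²)`. -/
noncomputable def Jfun (U : Ten) (α : E → ℝ) (R : ℝ) (x : E) : ℝ :=
  (2 / R) * (∑ i, (- Lop i α x) * Wfun U i x)
    - (1 / R ^ 2) * ((∑ i, ∑ j, U i j x * (- Lop i α x) * (- Lop j α x))
      + (ttr U x / 2) * ∑ i, (- Lop i α x) ^ 2)

def MasterG_Stmt : Prop := ∀ (U : Ten) (α : E → ℝ) (R : ℝ), IsSymTensor U → Sm α → 0 < R →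
  4 * Real.pi * R ^ 2 + sint (tdet U)
    ≤ R * (sint (ttr U) + sint (Jfun U α R))
      + sint (fun x => (lap α x - gdot α α x / R - ttr U x / 2 + R) ^ 2)

/-! ## Final -/

def ConeFinal_Stmt : Prop := ∀ (C : ConeData) (EB : ℝ), (∀ x ∈ SS, C.θ 0 x ≤ 0) →
  Tendsto C.hawkingEnergy atTop (𝓝 EB) → Real.sqrt (C.area 0 / (16 * Real.pi)) ≤ EB

end Pool.Agent.NullCone
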