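import Pool.Agent.NullCone.Stmts

/-! # The torsion of a null cone that is not crossed by radiation -/

open MeasureTheory Filter Topology
open scoped ContDiff

namespace Pool.Agent.NullCone

open Pool.Agent.NullShell

namespace Tors

variable {x : E} {T U V γ : Ten}

/-! ## Smoothness of the algebraic operations -/

theorem sm_roundM (i j : Fin 3) : Sm (roundM i j) :=
  (sm_const _).sub ((sm_coord i).mul (sm_coord j))

theorem sm_ttr (hT : ∀ i j, Sm (T i j)) : Sm (ttr T) :=
  Sm.sum fun i _ => hT i i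

theorem sm_tdet (hT : ∀ i j, Sm (T i j)) : Sm (tdet T) :=
  Sm.const_mul _ (((sm_ttr hT).pow 2).sub
    (Sm.sum fun i _ => Sm.sum fun j _ => (hT i j).mul (hT j i)))

theorem sm_tinv (hT : ∀ i j, Sm (T i j)) (h0 : ∀ y ∈ SS, tdet T y ≠ 0) (i j : Fin 3) :
    Sm (tinv T i j) :=
  (((sm_ttr hT).mul (sm_roundM i j)).sub (hT i j)).div (sm_tdet hT) h0

theorem sm_areaEl (hT : ∀ i j, Sm (T i j)) (h0 : ∀ y ∈ SS, tdet T y ≠ 0) : Sm (areaEl T) :=
  fun y hy => (sm_tdet hT y hy).sqrt (h0 y hy)

theorem sm_gtr {T : Ten} (hγ : ∀ i j, Sm (γ i j)) (h0 : ∀ y ∈ SS, tdet γ y ≠ 0)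
    (hT : ∀ i j, Sm (T i j)) : Sm (gtr γ T) :=
  Sm.sum fun i _ => Sm.sum fun j _ => (sm_tinv hγ h0 i j).mul (hT i j)

/-! ## The round metric -/

theorem sum_sq_eq_one (hx : x ∈ SS) : ∑ i : Fin 3, x i ^ 2 = 1 := by
  rw [Fin.sum_univ_three]; exact sq_sum_eq_one hx

theorem sum_mul_roundM (v : Fin 3 → ℝ) (hv : ∑ i, v i * x i = 0) (j : Fin 3) :
    ∑ i, v i * roundM i j x = v j := by
  have : ∀ i, v i * roundM i j x = (if i = j then v i else 0) - (v i * x i) * x j := by
    intro i; unfold roundM; split_ifs <;> ring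
  simp only [this, Finset.sum_sub_distrib, ← Finset.sum_mul, hv]
  simp

theorem roundM_symm (i j : Fin 3) : roundM i j x = roundM j i x := by
  unfold roundM
  have : (if i = j then (1 : ℝ) else 0) = if j = i then 1 else 0 := by
    by_cases h : i = j
    · subst h; rfl
    · rw [if_neg h, if_neg (Ne.symm h)]
  rw [this]; ring

theorem ttr_roundM (hx : x ∈ SS) : ttr roundM x = 2 := by
  unfold ttr roundM
  have := sum_sq_eq_one hx
  rw [Fin.sum_univ_three] at this ⊢
  simp only [if_true]
  linarith [this, sq (x 0), sq (x 1), sq (x 2)]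

/-- `rot j x i` is antisymmetric in `i, j`. -/
theorem rot_antisymm (i j : Fin 3) (x : E) : rot j x i = - rot i x j := by
  fin_cases i <;> fin_cases j <;> simp

theorem sum_coord_rot (x : E) (i : Fin 3) : ∑ j, x j * rot j x i = 0 := by
  rw [Fin.sum_univ_three]
  fin_cases i <;> simp <;> ring

theorem div_roundM (hx : x ∈ SS) (i : Fin 3) : ∑ j, Lop j (roundM j i) x = 0 := by
  have h : ∀ j, Lop j (roundM j i) x = - (x j * rot j x i) := by
    intro j
    have h1 : Lop j (roundM j i) x
        = Lop j (fun _ => (if j = i then (1 : ℝ) else 0)) x - Lop j (fun y => y j * y i) x :=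
      Lop_sub (sm_const _) ((sm_coord j).mul (sm_coord i)) hx
    rw [h1, Lop_const, Lop_mul (sm_coord j) (sm_coord i) hx, Lop_coord, Lop_coord]
    have h2 : rot j x j = 0 := by fin_cases j <;> simp
    rw [h2]; ring
  simp only [h, Finset.sum_neg_distrib, sum_coord_rot, neg_zero]

/-! ## Algebra at one point -/

/-- The matrix of a tensor at a point. -/
def mat (T : Ten) (x : E) : Matrix (Fin 3) (Fin 3) ℝ := Matrix.of fun i j => T i j x

theorem mat_apply (i j : Fin 3) : mat T x i j = T i j x := rfl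

theorem mat_roundM_transpose : (mat roundM x).transpose = mat roundM x := by
  ext i j; exact roundM_symm j i

theorem mat_symm (hV : ∀ i j, V i j x = V j i x) : (mat V x).transpose = mat V x := by
  ext i j; exact hV j i

theorem mat_tinv_symm (hV : ∀ i j, V i j x = V j i x) :
    (mat (tinv V) x).transpose = mat (tinv V) x := by
  ext i j
  change tinv V j i x = tinv V i j x
  unfold tinv
  rw [roundM_symm, hV]

theorem roundM_mul (hV : ∀ i j, V i j x = V j i x) (ht : ∀ i, ∑ j, V i j x * x j = 0) :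
    mat roundM x * mat V x = mat V x := by
  ext i j
  rw [Matrix.mul_apply]
  have : ∀ k, mat roundM x i k * mat V x k j = V j k x * roundM k i x := by
    intro k
    simp only [mat_apply]
    rw [roundM_symm i k, hV k j]; ring
  simp only [this]
  rw [sum_mul_roundM (fun k => V j k x) (ht j)]
  exact hV j i

theorem roundM_tangent (hx : x ∈ SS) (i : Fin 3) : ∑ j, roundM i j x * x j = 0 := by
  have h : ∀ j, roundM i j x * x j = (if i = j then x j else 0) - x i * x j ^ 2 := by
    intro j; unfold roundM; split_ifs <;> ring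
  simp only [h, Finset.sum_sub_distrib, ← Finset.mul_sum, sum_sq_eq_one hx]
  simp

theorem roundM_sq (hx : x ∈ SS) : mat roundM x * mat roundM x = mat roundM x :=
  roundM_mul (fun i j => roundM_symm i j) (roundM_tangent hx)

/-- All algebraic facts. -/
structure Alg (V γ : Ten) (x : E) : Prop where
  pos : 0 < tdet V x
  area : areaEl γ x = tdet V x
  vinv : mat V x * mat (tinv V) x = mat roundM x
  gvinv : mat (tinv V) x * mat V x = mat roundM x
  pinv : mat roundM x * mat (tinv V) x = mat (tinv V) x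
  ginv : mat (tinv γ) x = mat (tinv V) x * mat (tinv V) x
  g : mat γ x = mat V x * mat V x
  tr : gtr γ V x * tdet V x = ttr V x
  form : tdet V x • mat (tinv V) x = ttr V x • mat roundM x - mat V x
  first : areaEl γ x • (mat (tinv γ) x * (mat V x - gtr γ V x • mat γ x)) = - mat V x
  second : areaEl γ x • (mat (tinv γ) x * (mat V x - gtr γ V x • mat γ x) * mat (tinv γ) x)
    = - mat (tinv V) x
  gv : mat γ x * mat (tinv V) x = mat V x

theorem alg (hQ : Square_Stmt) (hx : x ∈ SS) (hp : PlaneMat (fun i => x i) (fun i j => V i j x))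
    (hγ : ∀ i j, γ i j x = ∑ k, V i k x * V k j x) : Alg V γ x := by
  obtain ⟨h1, -, h3, h4, h5, h6, h7⟩ := hQ V γ x hp hγ
  have hsy : ∀ i j, V i j x = V j i x := hp.symm
  have hta : ∀ i, ∑ j, V i j x * x j = 0 := hp.tangent
  have e1 : mat (tinv V) x * mat V x = mat roundM x := by
    ext i j; rw [Matrix.mul_apply]; exact h4 i j
  have e2 : mat (tinv γ) x * mat V x = mat (tinv V) x := by
    ext i j; rw [Matrix.mul_apply]; exact h5 i j
  have e3 : mat (tinv γ) x = mat (tinv V) x * mat (tinv V) x := by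
    ext i j; rw [Matrix.mul_apply]; exact h6 i j
  have e4 : mat γ x = mat V x * mat V x := by
    ext i j; rw [Matrix.mul_apply]; exact hγ i j
  have e5 : mat V x * mat (tinv V) x = mat roundM x := by
    have := congrArg Matrix.transpose e1
    rw [Matrix.transpose_mul, mat_symm hsy, mat_tinv_symm hsy, mat_roundM_transpose] at this
    exact this
  have e6 : mat roundM x * mat V x = mat V x := roundM_mul hsy hta
  have e7 : tdet V x • mat (tinv V) x = ttr V x • mat roundM x - mat V x := by
    ext i j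
    simp only [Matrix.smul_apply, Matrix.sub_apply, mat_apply, smul_eq_mul]
    unfold tinv
    field_simp
  have e8 : mat roundM x * mat (tinv V) x = mat (tinv V) x := by
    have h0 : tdet V x • (mat roundM x * mat (tinv V) x) = tdet V x • mat (tinv V) x := by
      rw [← Matrix.mul_smul, e7, Matrix.mul_sub, Matrix.mul_smul, roundM_sq hx, e6]
    exact (smul_right_injective _ h1.ne') h0
  have e9 : areaEl γ x • (mat (tinv γ) x * (mat V x - gtr γ V x • mat γ x)) = - mat V x := by
    rw [h3, Matrix.mul_sub, Matrix.mul_smul, e2, e4, ← Matrix.mul_assoc, e2, e1, smul_sub, e7,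
      smul_smul, mul_comm, h7]
    abel
  refine ⟨h1, h3, e5, e1, e8, e3, e4, h7, e7, e9, ?_, ?_⟩
  · rw [← Matrix.smul_mul, e9, e3, Matrix.neg_mul, ← Matrix.mul_assoc, e5, e8]
  · rw [e4, Matrix.mul_assoc, e5]
    have := congrArg Matrix.transpose e6
    rw [Matrix.transpose_mul, mat_symm hsy, mat_roundM_transpose] at this
    exact this

/-! ## The metric and the second fundamental form of the sections -/

variable {C : ConeData} {s : ℝ}

theorem planeMat_chi (hS : Solve_Stmt) (C : ConeData) (hs : 0 ≤ s) (hx : x ∈ SS) :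
    PlaneMat (fun i => x i) (fun i j => C.χ s i j x) := by
  obtain ⟨h1, h2, -⟩ := hS C
  refine ⟨sum_sq_eq_one hx, (C.secondForm s hs).symm x hx, (C.secondForm s hs).tangent x hx, ?_⟩
  intro v hv hv0
  have h3 := h1 x hx v hv hv0
  have h4 : ∑ i, ∑ j, C.χ s i j x * v i * v j
      = s * ∑ j, v j ^ 2 + ∑ i, ∑ j, C.χ 0 i j x * v i * v j := by
    have e1 : ∀ i j, C.χ s i j x * v i * v j
        = s * ((v i * roundM i j x) * v j) + C.χ 0 i j x * v i * v j := by
      intro i j; rw [h2 s hs x hx]; ring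
    simp only [e1, Finset.sum_add_distrib, ← Finset.mul_sum]
    congr 2
    rw [Finset.sum_comm]
    refine Finset.sum_congr rfl fun j _ => ?_
    rw [← Finset.sum_mul, sum_mul_roundM v hv]; ring
  rw [h4]
  have h5 : 0 ≤ s * ∑ j, v j ^ 2 := mul_nonneg hs (Finset.sum_nonneg fun j _ => sq_nonneg _)
  linarith

theorem algC (hQ : Square_Stmt) (hS : Solve_Stmt) (C : ConeData) (hs : 0 ≤ s) (hx : x ∈ SS) :
    Alg (C.χ s) (C.γ s) x :=
  alg hQ hx (planeMat_chi hS C hs hx) ((hS C).2.2 s hs x hx)

theorem tdet_ne (hQ : Square_Stmt) (hS : Solve_Stmt) (C : ConeData) (hs : 0 ≤ s) :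
    ∀ y ∈ SS, tdet (C.γ s) y ≠ 0 := by
  intro y hy
  have h := algC hQ hS C hs hy
  have h1 : 0 < Real.sqrt (tdet (C.γ s) y) := by
    have := h.area
    unfold areaEl at this
    rw [this]; exact h.pos
  exact (Real.sqrt_pos.1 h1).ne'

/-! ## The divergence -/

theorem first_term (hQ : Square_Stmt) (hS : Solve_Stmt) (C : ConeData) (hs : 0 ≤ s) (hx : x ∈ SS)
    (i : Fin 3) :
    (∑ j, Lop j (fun y => areaEl (C.γ s) y * ∑ k, tinv (C.γ s) j k y *
      (C.χ s k i y - gtr (C.γ s) (C.χ s) y * C.γ s k i y)) x) = - ∑ j, Lop j (C.χ s j i) x := by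
  have hγ : ∀ i j, Sm (C.γ s i j) := (C.metric s hs).smooth
  have hχ : ∀ i j, Sm (C.χ s i j) := (C.secondForm s hs).smooth
  have h0 := tdet_ne hQ hS C hs
  rw [← Finset.sum_neg_distrib]
  refine Finset.sum_congr rfl fun j _ => ?_
  rw [← Lop_neg]
  refine Lop_congr ?_ (hχ j i).neg ?_ hx
  · refine (sm_areaEl hγ h0).mul (Sm.sum fun k _ => (sm_tinv hγ h0 j k).mul
      ((hχ k i).sub ((sm_gtr hγ h0 hχ).mul (hγ k i))))
  · intro y hy
    have h := congrFun (congrFun (algC hQ hS C hs hy).first j) i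
    rw [Matrix.smul_apply, Matrix.mul_apply, Matrix.neg_apply] at h
    exact h

theorem eps_antisymm (i j k : Fin 3) : eps i j k = - eps i k j := by
  unfold eps; ring

theorem sum_eps_symm (i : Fin 3) (A : Fin 3 → Fin 3 → ℝ) (hA : ∀ j l, A j l = A l j) :
    ∑ j, ∑ l, eps i j l * A j l = 0 := by
  have h : ∑ j, ∑ l, eps i j l * A j l = - ∑ j, ∑ l, eps i j l * A j l := by
    conv_lhs => rw [Finset.sum_comm]
    rw [← Finset.sum_neg_distrib]
    refine Finset.sum_congr rfl fun j _ => ?_
    rw [← Finset.sum_neg_distrib]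
    refine Finset.sum_congr rfl fun l _ => ?_
    rw [eps_antisymm i l j, hA l j]; ring
  linarith

/-- The derivative of a tangent symmetric tensor vanishes on `x, x`. -/
theorem lop_xx (hU : IsSymTensor U) (hx : x ∈ SS) (i : Fin 3) :
    ∑ a, ∑ b, x a * x b * Lop i (U a b) x = 0 := by
  have h1 : ∀ a, ∑ b, Lop i (U a b) x * x b = - ∑ b, U a b x * rot i x b := by
    intro a
    have e1 : Lop i (fun y => ∑ b, U a b y * y b) x = Lop i (fun _ => (0 : ℝ)) x :=
      Lop_congr (Sm.sum fun b _ => (hU.smooth a b).mul (sm_coord b)) (sm_const 0)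
        (fun y hy => hU.tangent y hy a) hx
    rw [Lop_const, Lop_sum (fun b _ => (hU.smooth a b).mul (sm_coord b)) hx] at e1
    have e2 : ∀ b, Lop i (fun y => U a b y * y b) x
        = U a b x * rot i x b + Lop i (U a b) x * x b := by
      intro b
      rw [Lop_mul (hU.smooth a b) (sm_coord b) hx, Lop_coord]; ring
    simp only [e2, Finset.sum_add_distrib] at e1
    linarith
  have h2 : ∀ a, ∑ b, x a * x b * Lop i (U a b) x = - ∑ b, x a * U a b x * rot i x b := by
    intro a
    have : ∀ b, x a * x b * Lop i (U a b) x = x a * (Lop i (U a b) x * x b) := by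
      intro b; ring
    simp only [this, ← Finset.mul_sum, h1]
    rw [mul_neg, Finset.mul_sum]
    congr 1
    refine Finset.sum_congr rfl fun b _ => by ring
  simp only [h2, Finset.sum_neg_distrib]
  rw [Finset.sum_comm]
  have h3 : ∀ b, ∑ a, x a * U a b x * rot i x b = 0 := by
    intro b
    rw [← Finset.sum_mul]
    have : ∑ a, x a * U a b x = 0 := by
      rw [← hU.tangent x hx b]
      refine Finset.sum_congr rfl fun a _ => ?_
      rw [hU.symm x hx a b]; ring
    rw [this, zero_mul]
  simp only [h3]; simp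

theorem sum_lie (hQ : Square_Stmt) (hS : Solve_Stmt) (C : ConeData) (hs : 0 ≤ s) (hx : x ∈ SS)
    (i : Fin 3) :
    ∑ j, ∑ k, tinv (C.χ s) j k x * lieRot i (C.γ s) j k x = 2 * Lop i (ttr (C.χ s)) x := by
  have hγ : ∀ i j, Sm (C.γ s i j) := (C.metric s hs).smooth
  have hU := C.secondForm s hs
  have hχ : ∀ i j, Sm (C.χ s i j) := hU.smooth
  have A := algC hQ hS C hs hx
  have hsy := hU.symm x hx
  have hgy := (C.metric s hs).symm x hx
  have hvi : ∀ j k, tinv (C.χ s) j k x = tinv (C.χ s) k j x := fun j k =>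
    congrFun (congrFun (mat_tinv_symm hsy) k) j
  -- the derivative of the metric
  have hL : ∀ j k, Lop i (C.γ s j k) x
      = ∑ m, (C.χ s j m x * Lop i (C.χ s m k) x + C.χ s m k x * Lop i (C.χ s j m) x) := by
    intro j k
    rw [Lop_congr (hγ j k) (Sm.sum fun m _ => (hχ j m).mul (hχ m k))
      (fun y hy => (hS C).2.2 s hs y hy j k) hx, Lop_sum (fun m _ => (hχ j m).mul (hχ m k)) hx]
    exact Finset.sum_congr rfl fun m _ => Lop_mul (hχ j m) (hχ m k) hx
  -- trace of the derivative
  have hT : Lop i (ttr (C.χ s)) x = ∑ a, Lop i (C.χ s a a) x := Lop_sum (fun a _ => hχ a a) hx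
  have hP : ∑ a, ∑ b, roundM a b x * Lop i (C.χ s a b) x = Lop i (ttr (C.χ s)) x := by
    have e : ∀ a b, roundM a b x * Lop i (C.χ s a b) x
        = (if a = b then Lop i (C.χ s a b) x else 0) - x a * x b * Lop i (C.χ s a b) x := by
      intro a b; unfold roundM; split_ifs <;> ring
    simp only [e, Finset.sum_sub_distrib, lop_xx hU hx i, hT]
    simp
  -- first part
  have p1 : ∑ j, ∑ k, tinv (C.χ s) j k x * Lop i (C.γ s j k) x
      = 2 * Lop i (ttr (C.χ s)) x := by
    have q1 : ∑ j, ∑ k, ∑ m, tinv (C.χ s) j k x * (C.χ s j m x * Lop i (C.χ s m k) x)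
        = Lop i (ttr (C.χ s)) x := by
      rw [← hP]
      -- sum over j first
      have : ∀ k m, ∑ j, tinv (C.χ s) j k x * (C.χ s j m x * Lop i (C.χ s m k) x)
          = roundM m k x * Lop i (C.χ s m k) x := by
        intro k m
        have e := congrFun (congrFun A.vinv m) k
        rw [Matrix.mul_apply] at e
        change ∑ j, C.χ s m j x * tinv (C.χ s) j k x = roundM m k x at e
        rw [← e, Finset.sum_mul]
        refine Finset.sum_congr rfl fun j _ => ?_
        rw [hsy m j]; ring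
      calc ∑ j, ∑ k, ∑ m, tinv (C.χ s) j k x * (C.χ s j m x * Lop i (C.χ s m k) x)
          = ∑ m, ∑ k, ∑ j, tinv (C.χ s) j k x * (C.χ s j m x * Lop i (C.χ s m k) x) := by
            rw [Finset.sum_comm]
            conv_rhs => rw [Finset.sum_comm]
            refine Finset.sum_congr rfl fun k _ => ?_
            rw [Finset.sum_comm]
        _ = _ := by simp only [this]
    have q2 : ∑ j, ∑ k, ∑ m, tinv (C.χ s) j k x * (C.χ s m k x * Lop i (C.χ s j m) x)
        = Lop i (ttr (C.χ s)) x := by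
      rw [← hP]
      have : ∀ j m, ∑ k, tinv (C.χ s) j k x * (C.χ s m k x * Lop i (C.χ s j m) x)
          = roundM j m x * Lop i (C.χ s j m) x := by
        intro j m
        have e := congrFun (congrFun A.gvinv j) m
        rw [Matrix.mul_apply] at e
        change ∑ k, tinv (C.χ s) j k x * C.χ s k m x = roundM j m x at e
        rw [← e, Finset.sum_mul]
        refine Finset.sum_congr rfl fun k _ => ?_
        rw [hsy m k]; ring
      refine Finset.sum_congr rfl fun j _ => ?_
      rw [Finset.sum_comm]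
      exact Finset.sum_congr rfl fun m _ => this j m
    have e : ∀ j k, tinv (C.χ s) j k x * Lop i (C.γ s j k) x
        = (∑ m, tinv (C.χ s) j k x * (C.χ s j m x * Lop i (C.χ s m k) x))
          + ∑ m, tinv (C.χ s) j k x * (C.χ s m k x * Lop i (C.χ s j m) x) := by
      intro j k
      rw [hL, Finset.mul_sum, ← Finset.sum_add_distrib]
      exact Finset.sum_congr rfl fun m _ => by ring
    simp only [e, Finset.sum_add_distrib, q1, q2]; ring
  -- the structure constants
  have gv : ∀ l j, ∑ k, C.γ s l k x * tinv (C.χ s) k j x = C.χ s l j x := by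
    intro l j
    have e := congrFun (congrFun A.gv l) j
    rw [Matrix.mul_apply] at e
    exact e
  have p2 : ∑ j, ∑ k, tinv (C.χ s) j k x * ∑ l, eps i j l * C.γ s l k x = 0 := by
    rw [← sum_eps_symm i (fun j l => C.χ s j l x) (fun j l => hsy j l)]
    refine Finset.sum_congr rfl fun j _ => ?_
    simp only [Finset.mul_sum]
    rw [Finset.sum_comm]
    refine Finset.sum_congr rfl fun l _ => ?_
    rw [hsy j l, ← gv l j, Finset.mul_sum]
    refine Finset.sum_congr rfl fun k _ => ?_
    rw [hvi j k]; ring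
  have p3 : ∑ j, ∑ k, tinv (C.χ s) j k x * ∑ l, eps i k l * C.γ s j l x = 0 := by
    rw [← sum_eps_symm i (fun j l => C.χ s j l x) (fun j l => hsy j l), Finset.sum_comm]
    refine Finset.sum_congr rfl fun k _ => ?_
    simp only [Finset.mul_sum]
    rw [Finset.sum_comm]
    refine Finset.sum_congr rfl fun l _ => ?_
    rw [hsy k l, ← gv l k, Finset.mul_sum]
    refine Finset.sum_congr rfl fun j _ => ?_
    rw [hgy j l]; ring
  have e : ∀ j k, tinv (C.χ s) j k x * lieRot i (C.γ s) j k x
      = tinv (C.χ s) j k x * Lop i (C.γ s j k) x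
        + tinv (C.χ s) j k x * (∑ l, eps i j l * C.γ s l k x)
        + tinv (C.χ s) j k x * (∑ l, eps i k l * C.γ s j l x) := by
    intro j k; unfold lieRot; ring
  simp only [e, Finset.sum_add_distrib, p1, p2, p3]; ring

theorem second_term (hQ : Square_Stmt) (hS : Solve_Stmt) (C : ConeData) (hs : 0 ≤ s) (hx : x ∈ SS)
    (i : Fin 3) :
    (1 / 2) * areaEl (C.γ s) x * ∑ j, ∑ k, (∑ l, ∑ m, tinv (C.γ s) j l x *
      (C.χ s l m x - gtr (C.γ s) (C.χ s) x * C.γ s l m x) * tinv (C.γ s) m k x) *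
        lieRot i (C.γ s) j k x = - Lop i (ttr (C.χ s)) x := by
  have A := algC hQ hS C hs hx
  have h : ∀ j k, areaEl (C.γ s) x * (∑ l, ∑ m, tinv (C.γ s) j l x *
      (C.χ s l m x - gtr (C.γ s) (C.χ s) x * C.γ s l m x) * tinv (C.γ s) m k x)
      = - tinv (C.χ s) j k x := by
    intro j k
    have e := congrFun (congrFun A.second j) k
    rw [Matrix.smul_apply, Matrix.mul_apply, Matrix.neg_apply] at e
    simp only [Matrix.mul_apply, smul_eq_mul] at e
    rw [mat_apply (T := tinv (C.χ s))] at e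
    rw [← e]
    congr 1
    rw [Finset.sum_comm]
    refine Finset.sum_congr rfl fun m _ => ?_
    rw [Finset.sum_mul]
    rfl
  have h2 : areaEl (C.γ s) x * ∑ j, ∑ k, (∑ l, ∑ m, tinv (C.γ s) j l x *
      (C.χ s l m x - gtr (C.γ s) (C.χ s) x * C.γ s l m x) * tinv (C.γ s) m k x) *
        lieRot i (C.γ s) j k x = - (2 * Lop i (ttr (C.χ s)) x) := by
    rw [← sum_lie hQ hS C hs hx i, Finset.mul_sum, ← Finset.sum_neg_distrib]
    refine Finset.sum_congr rfl fun j _ => ?_
    rw [Finset.mul_sum, ← Finset.sum_neg_distrib]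
    refine Finset.sum_congr rfl fun k _ => ?_
    rw [← mul_assoc, h]; ring
  rw [mul_assoc, h2]; ring

theorem divDens_eq (hQ : Square_Stmt) (hS : Solve_Stmt) (C : ConeData) (hs : 0 ≤ s) (hx : x ∈ SS)
    (i : Fin 3) :
    divDens (C.γ s) (fun j k y => C.χ s j k y - gtr (C.γ s) (C.χ s) y * C.γ s j k y) i x
      = Wfun (C.χ s) i x := by
  have h1 := first_term hQ hS C hs hx i
  have h2 := second_term hQ hS C hs hx i
  unfold divDens Wfun
  rw [h1, h2]; ring

theorem wfun_const (hS : Solve_Stmt) (C : ConeData) (hs : 0 ≤ s) (hx : x ∈ SS) (i : Fin 3) :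
    Wfun (C.χ s) i x = Wfun (C.χ 0) i x := by
  have hχ : ∀ i j, Sm (C.χ s i j) := (C.secondForm s hs).smooth
  have hU : ∀ i j, Sm (C.χ 0 i j) := (C.secondForm 0 le_rfl).smooth
  have h2 := (hS C).2.1 s hs
  have e1 : ∀ j k, Lop j (C.χ s k i) x = s * Lop j (roundM k i) x + Lop j (C.χ 0 k i) x := by
    intro j k
    rw [Lop_congr (hχ k i) (((sm_roundM k i).const_mul s).add (hU k i))
      (fun y hy => h2 y hy k i) hx, Lop_add ((sm_roundM k i).const_mul s) (hU k i) hx,
      Lop_const_mul s (sm_roundM k i) hx]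
  have e2 : Lop i (ttr (C.χ s)) x = Lop i (ttr (C.χ 0)) x := by
    have : ∀ y ∈ SS, ttr (C.χ s) y = s * 2 + ttr (C.χ 0) y := by
      intro y hy
      unfold ttr
      simp only [h2 y hy, Finset.sum_add_distrib, ← Finset.mul_sum]
      rw [show ∑ a, roundM a a y = 2 from ttr_roundM hy]
    rw [Lop_congr (sm_ttr hχ) ((sm_const (s * 2)).add (sm_ttr hU)) this hx,
      Lop_add (sm_const _) (sm_ttr hU) hx, Lop_const, zero_add]
  unfold Wfun
  rw [e2]
  simp only [e1, Finset.sum_add_distrib, ← Finset.mul_sum, div_roundM hx]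
  ring

/-! ## The energy density -/

theorem sum_roundM_roundM (hx : x ∈ SS) :
    ∑ i, ∑ j, roundM i j x * roundM j i x = 2 := by
  have h := roundM_sq hx
  have e : ∀ i, ∑ j, roundM i j x * roundM j i x = roundM i i x := by
    intro i
    have := congrFun (congrFun h i) i
    rw [Matrix.mul_apply] at this
    exact this
  simp only [e]
  exact ttr_roundM hx

theorem sum_roundM_mul (hU : ∀ i j, U i j x = U j i x) (ht : ∀ i, ∑ j, U i j x * x j = 0) :
    ∑ i, ∑ j, roundM i j x * U j i x = ttr U x := by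
  have h := roundM_mul hU ht
  have e : ∀ i, ∑ j, roundM i j x * U j i x = U i i x := by
    intro i
    have := congrFun (congrFun h i) i
    rw [Matrix.mul_apply] at this
    exact this
  simp only [e]
  rfl

theorem ttr_chi (hS : Solve_Stmt) (C : ConeData) (hs : 0 ≤ s) (hx : x ∈ SS) :
    ttr (C.χ s) x = s * 2 + ttr (C.χ 0) x := by
  have h2 := (hS C).2.1 s hs
  unfold ttr
  simp only [h2 x hx, Finset.sum_add_distrib, ← Finset.mul_sum]
  rw [show ∑ a, roundM a a x = 2 from ttr_roundM hx]

theorem tdet_chi (hS : Solve_Stmt) (C : ConeData) (hs : 0 ≤ s) (hx : x ∈ SS) :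
    tdet (C.χ s) x = s ^ 2 + s * ttr (C.χ 0) x + tdet (C.χ 0) x := by
  have h2 := (hS C).2.1 s hs x hx
  have hU := C.secondForm 0 le_rfl
  have e1 := sum_roundM_roundM hx
  have e2 := sum_roundM_mul (hU.symm x hx) (hU.tangent x hx)
  have e3 : ∑ i, ∑ j, C.χ 0 i j x * roundM j i x = ttr (C.χ 0) x := by
    rw [← e2, Finset.sum_comm]
    exact Finset.sum_congr rfl fun i _ => Finset.sum_congr rfl fun j _ => mul_comm _ _
  have e4 : ∑ i, ∑ j, C.χ s i j x * C.χ s j i x
      = s ^ 2 * 2 + s * ttr (C.χ 0) x + s * ttr (C.χ 0) x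
        + ∑ i, ∑ j, C.χ 0 i j x * C.χ 0 j i x := by
    have : ∀ i j, C.χ s i j x * C.χ s j i x = s ^ 2 * (roundM i j x * roundM j i x)
        + s * (roundM i j x * C.χ 0 j i x) + s * (C.χ 0 i j x * roundM j i x)
        + C.χ 0 i j x * C.χ 0 j i x := by
      intro i j; rw [h2, h2]; ring
    simp only [this, Finset.sum_add_distrib, ← Finset.mul_sum, e1, e2, e3]
  unfold tdet
  rw [ttr_chi hS C hs hx, e4]; ring

end Tors

open Tors

theorem Torsion (hQ : Square_Stmt) (hS : Solve_Stmt) : Torsion_Stmt := by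
  intro C s hs x hx i
  set f : ℝ → ℝ := fun r => areaEl (C.γ r) x * C.ζ r i x - r * Wfun (C.χ 0) i x with hf
  have hd : ∀ r, 0 ≤ r → HasDerivWithinAt f 0 (Set.Ici 0) r := by
    intro r hr
    have h1 := C.codazzi r hr x hx i
    rw [divDens_eq hQ hS C hr hx i, wfun_const hS C hr hx i] at h1
    have h2 : HasDerivWithinAt (fun r : ℝ => r * Wfun (C.χ 0) i x) (1 * Wfun (C.χ 0) i x)
        (Set.Ici 0) r := (hasDerivWithinAt_id r _).mul_const _
    have h3 := h1.sub h2
    rw [one_mul, sub_self] at h3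
    exact h3
  have hc : ContinuousOn f (Set.Icc 0 s) := fun r hr =>
    ((hd r hr.1).continuousWithinAt).mono fun y hy => hy.1
  have hd' : ∀ r ∈ Set.Ico (0 : ℝ) s, HasDerivWithinAt f 0 (Set.Ici r) r := fun r hr =>
    (hd r hr.1).mono fun y hy => le_trans hr.1 hy
  have h := constant_of_has_deriv_right_zero hc hd' s ⟨hs, le_rfl⟩
  simp only [hf] at h
  unfold Nfun
  linarith

theorem SmoothS (hQ : Square_Stmt) (hS : Solve_Stmt) (hT : Torsion_Stmt) : Smooth_Stmt := by
  intro C
  have hU := C.secondForm 0 le_rfl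
  have hN : ∀ i, Sm (Nfun C i) := fun i =>
    (sm_areaEl (C.metric 0 le_rfl).smooth (tdet_ne hQ hS C le_rfl)).mul
      (C.torsion_smooth 0 le_rfl i)
  have hW : ∀ i, Sm (Wfun (C.χ 0) i) := fun i =>
    ((sm_ttr hU.smooth).lop i).sub (Sm.sum fun j _ => (hU.smooth j i).lop j)
  have hNt : ∀ x ∈ SS, ∑ i, Nfun C i x * x i = 0 := by
    intro x hx
    have h := C.torsion_tangent 0 le_rfl x hx
    have : ∀ i, Nfun C i x * x i = areaEl (C.γ 0) x * (C.ζ 0 i x * x i) := by
      intro i; unfold Nfun; ring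
    simp only [this, ← Finset.mul_sum, h, mul_zero]
  have hWt : ∀ x ∈ SS, ∑ i, Wfun (C.χ 0) i x * x i = 0 := by
    intro x hx
    have h1 : ∑ i, Lop i (ttr (C.χ 0)) x * x i = 0 := by
      have h := sum_coord_mul_Lop (ttr (C.χ 0)) x
      rw [Fin.sum_univ_three]
      linarith
    have h2 : ∀ j, ∑ i, Lop j (C.χ 0 j i) x * x i = - ∑ i, C.χ 0 j i x * rot j x i := by
      intro j
      have e1 : Lop j (fun y => ∑ i, C.χ 0 j i y * y i) x = Lop j (fun _ => (0 : ℝ)) x :=
        Lop_congr (Sm.sum fun i _ => (hU.smooth j i).mul (sm_coord i)) (sm_const 0)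
          (fun y hy => hU.tangent y hy j) hx
      rw [Lop_const, Lop_sum (fun i _ => (hU.smooth j i).mul (sm_coord i)) hx] at e1
      have e2 : ∀ i, Lop j (fun y => C.χ 0 j i y * y i) x
          = C.χ 0 j i x * rot j x i + Lop j (C.χ 0 j i) x * x i := by
        intro i
        rw [Lop_mul (hU.smooth j i) (sm_coord i) hx, Lop_coord]; ring
      simp only [e2, Finset.sum_add_distrib] at e1
      linarith
    have h3 : ∑ j, ∑ i, C.χ 0 j i x * rot j x i = 0 := by
      have : ∑ j, ∑ i, C.χ 0 j i x * rot j x i = - ∑ j, ∑ i, C.χ 0 j i x * rot j x i := by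
        conv_lhs => rw [Finset.sum_comm]
        rw [← Finset.sum_neg_distrib]
        refine Finset.sum_congr rfl fun j _ => ?_
        rw [← Finset.sum_neg_distrib]
        refine Finset.sum_congr rfl fun i _ => ?_
        rw [hU.symm x hx i j, rot_antisymm j i x]; ring
      linarith
    have h4 : ∀ i, Wfun (C.χ 0) i x * x i
        = Lop i (ttr (C.χ 0)) x * x i - ∑ j, Lop j (C.χ 0 j i) x * x i := by
      intro i; unfold Wfun; rw [sub_mul, Finset.sum_mul]
    simp only [h4, Finset.sum_sub_distrib, h1]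
    rw [Finset.sum_comm]
    simp only [h2, Finset.sum_neg_distrib, h3]; simp
  refine ⟨hN, hW, hNt, hWt, ?_, ?_, ?_, ?_, ?_⟩
  · intro x hx; exact (algC hQ hS C le_rfl hx).area
  · intro x hx; exact planeMat_chi hS C le_rfl hx
  · intro s hs x hx
    rw [(algC hQ hS C hs hx).area, tdet_chi hS C hs hx]
  · intro s hs x hx
    rw [(algC hQ hS C hs hx).area, mul_comm, (algC hQ hS C hs hx).tr, ttr_chi hS C hs hx]; ring
  · intro s hs x hx
    have A := algC hQ hS C hs hx
    have h2 := (hS C).2.1 s hs x hx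
    have hV := C.secondForm s hs
    have hsy := hV.symm x hx
    have hvi : ∀ j k, tinv (C.χ s) j k x = tinv (C.χ s) k j x := fun j k =>
      congrFun (congrFun (mat_tinv_symm hsy) k) j
    have hζ := C.torsion_tangent s hs x hx
    have hD0 : tdet (C.χ s) x ≠ 0 := A.pos.ne'
    set D : ℝ := tdet (C.χ s) x with hD
    set q : Fin 3 → ℝ := fun k => ∑ j, tinv (C.χ s) k j x * C.ζ s j x with hq
    set R : Fin 3 → ℝ := fun k => (s + ttr (C.χ 0) x) * (Nfun C k x + s * Wfun (C.χ 0) k x)
      - ∑ j, C.χ 0 k j x * (Nfun C j x + s * Wfun (C.χ 0) j x) with hR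
    have n1 : normSq (C.γ s) (C.ζ s) x = ∑ k, q k ^ 2 := by
      have e : ∀ i j, tinv (C.γ s) i j x * C.ζ s i x * C.ζ s j x
          = ∑ k, (tinv (C.χ s) k i x * C.ζ s i x) * (tinv (C.χ s) k j x * C.ζ s j x) := by
        intro i j
        have e1 := congrFun (congrFun A.ginv i) j
        rw [Matrix.mul_apply] at e1
        change tinv (C.γ s) i j x = ∑ k, tinv (C.χ s) i k x * tinv (C.χ s) k j x at e1
        rw [e1, Finset.sum_mul, Finset.sum_mul]
        refine Finset.sum_congr rfl fun k _ => ?_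
        rw [hvi i k]; ring
      unfold normSq
      simp only [e]
      calc ∑ i, ∑ j, ∑ k, (tinv (C.χ s) k i x * C.ζ s i x) * (tinv (C.χ s) k j x * C.ζ s j x)
          = ∑ i, ∑ k, ∑ j, (tinv (C.χ s) k i x * C.ζ s i x) * (tinv (C.χ s) k j x * C.ζ s j x) := by
            refine Finset.sum_congr rfl fun i _ => ?_
            rw [Finset.sum_comm]
        _ = ∑ k, ∑ i, ∑ j, (tinv (C.χ s) k i x * C.ζ s i x) * (tinv (C.χ s) k j x * C.ζ s j x) := by
            rw [Finset.sum_comm]
        _ = _ := by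
            refine Finset.sum_congr rfl fun k _ => ?_
            rw [sq, hq, Finset.sum_mul_sum]
    have n2 : ∀ k, D * q k = (s + ttr (C.χ 0) x) * C.ζ s k x - ∑ j, C.χ 0 k j x * C.ζ s j x := by
      intro k
      have e1 : ∀ j, D * (tinv (C.χ s) k j x * C.ζ s j x)
          = (s + ttr (C.χ 0) x) * (C.ζ s j x * roundM j k x) - C.χ 0 k j x * C.ζ s j x := by
        intro j
        have e2 := congrFun (congrFun A.form k) j
        rw [Matrix.smul_apply, Matrix.sub_apply, Matrix.smul_apply] at e2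
        change D * tinv (C.χ s) k j x = ttr (C.χ s) x * roundM k j x - C.χ s k j x at e2
        rw [ttr_chi hS C hs hx, h2] at e2
        rw [← mul_assoc, e2, roundM_symm j k]; ring
      rw [hq, Finset.mul_sum]
      simp only [e1, Finset.sum_sub_distrib, ← Finset.mul_sum, sum_mul_roundM _ hζ]
    have n3 : ∀ k, D * C.ζ s k x = Nfun C k x + s * Wfun (C.χ 0) k x := by
      intro k
      rw [← hT C s hs x hx k, A.area]
    have n4 : ∀ k, D ^ 2 * q k = R k := by
      intro k
      have : D ^ 2 * q k = D * (D * q k) := by ring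
      rw [this, n2, hR]
      simp only [← n3]
      rw [mul_sub, Finset.mul_sum]
      congr 1
      · ring
      · exact Finset.sum_congr rfl fun j _ => by ring
    have n5 : cd C s x = (∑ k, R k ^ 2) / (s ^ 2 + s * ttr (C.χ 0) x + tdet (C.χ 0) x) ^ 3 := rfl
    rw [n5, ← tdet_chi hS C hs hx, ← hD, A.area, ← hD, n1]
    simp only [← n4]
    rw [eq_div_iff (pow_ne_zero 3 hD0), Finset.mul_sum, Finset.sum_mul]
    exact Finset.sum_congr rfl fun k _ => by ring

end Pool.Agent.NullCone
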